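import Pool.Agent.CatP.Zmap

/-! Definitions for the odd characteristic part. `q + 2` is the size `N`. -/

namespace Pool.Agent.CatP.Odd

open MvPolynomial Pool.Agent.H91.Cat

/-- The families: `inl a` for `a < q + 1`, and the special ones `inr 0`, `inr 1`, `inr 2`. -/
abbrev Fam (q : ℕ) : Type := Fin (q + 1) ⊕ Fin 3

/-- The cells of the array; the first coordinate is the block. -/
abbrev Cell (q : ℕ) : Type := Fin (q + 2) × Fin (q + 2)

/-- The family of a cell. Block `0` has the families `inr 0` and all the `inl a`; the block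
`a + 1` has the families `inr 1`, `inr 2` and all the `inl b` with `b ≠ a`. -/
def fam {q : ℕ} (c : Cell q) : Fam q :=
  Fin.cases (motive := fun _ => Fam q)
    (Fin.cases (motive := fun _ => Fam q) (Sum.inr 0) (fun j => Sum.inl j) c.2)
    (fun a => Fin.cases (motive := fun _ => Fam q) (Sum.inr 1)
      (fun j1 => Fin.cases (motive := fun _ => Fam q) (Sum.inr 2)
        (fun j => Sum.inl (a.succAbove j)) j1) c.2) c.1

theorem fam_zero_zero {q : ℕ} : fam ((0, 0) : Cell q) = Sum.inr 0 := rfl

theorem fam_zero_succ {q : ℕ} (j : Fin (q + 1)) : fam ((0, j.succ) : Cell q) = Sum.inl j := rfl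

theorem fam_succ_zero {q : ℕ} (a : Fin (q + 1)) : fam ((a.succ, 0) : Cell q) = Sum.inr 1 := rfl

theorem fam_succ_one {q : ℕ} (a : Fin (q + 1)) :
    fam ((a.succ, (0 : Fin (q + 1)).succ) : Cell q) = Sum.inr 2 := rfl

theorem fam_succ_succ {q : ℕ} (a : Fin (q + 1)) (j : Fin q) :
    fam ((a.succ, j.succ.succ) : Cell q) = Sum.inl (a.succAbove j) := rfl

/-- The permutations of the cells which preserve the families. -/
def famPerm (q : ℕ) : Finset (Equiv.Perm (Cell q)) :=
  Finset.univ.filter fun s => ∀ c, fam (s c) = fam c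

/-- The value of the alternating sum over the permutations which preserve the families, for a
functional `Z` and letters `w`. -/
def fval {A B : Type*} [CommRing A] [CommRing B] {q : ℕ} (Z : B → A) (w : Cell q → B) : A :=
  ∑ s ∈ famPerm q, ((Equiv.Perm.sign s : ℤ) : A) * ∏ b, Z (∏ j, w (s (b, j)))

/-- The exponent vector of a product of `d` variables. -/
noncomputable def blk {n d : ℕ} (c : Fin d → Fin n) : Expo n d :=
  toExpo (∑ j, Finsupp.single (c j) 1) (by
    simp only [Finsupp.finsetSum_apply]
    rw [Finset.sum_comm]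
    simp [Finsupp.single_apply])

/-- The polynomial. -/
noncomputable def fOdd (k : Type*) [Field k] (q : ℕ) :
    MvPolynomial (Expo ((q + 2) * (q + 2)) (q + 2)) k :=
  ∑ s ∈ famPerm q, ((Equiv.Perm.sign s : ℤ) : MvPolynomial (Expo ((q + 2) * (q + 2)) (q + 2)) k) *
    ∏ b, X (blk fun j => finProdFinEquiv (s (b, j)))

/-- All `m x m` determinants of the pairing between elements of `L` and arbitrary elements
vanish. -/
def H1 {A B : Type*} [CommRing A] [CommRing B] [Algebra A B] (L : Submodule A B)
    (Z : B →ₗ[A] A) (m : ℕ) : Prop :=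
  ∀ r c : Fin m → B, (∀ a, r a ∈ L) → (Matrix.of fun a b => Z (r a * c b)).det = 0

end Pool.Agent.CatP.Odd
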