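import Mathlib

/-! Jacobian determinants of commuting derivations of a commutative ring. -/

namespace Pool.Agent.CatP.Odd

/-- Commuting derivations. -/
structure ComDer {R ι : Type*} [CommRing R] (d : ι → R → R) : Prop where
  add : ∀ i a b, d i (a + b) = d i a + d i b
  mul : ∀ i a b, d i (a * b) = d i a * b + a * d i b
  comm : ∀ i j a, d i (d j a) = d j (d i a)

theorem jacd_zero {R ι : Type*} [CommRing R] {d : ι → R → R} (hd : ComDer d) (i : ι) :
    d i 0 = 0 := by
  have h := hd.add i 0 0
  rw [add_zero] at h
  exact left_eq_add.1 h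

theorem jacd_one {R ι : Type*} [CommRing R] {d : ι → R → R} (hd : ComDer d) (i : ι) :
    d i 1 = 0 := by
  have h := hd.mul i 1 1
  rw [mul_one, mul_one, one_mul] at h
  exact left_eq_add.1 h

theorem jacd_prod {R ι κ : Type*} [CommRing R] [DecidableEq κ] {d : ι → R → R} (hd : ComDer d)
    (i : ι) (s : Finset κ) (f : κ → R) :
    d i (∏ l ∈ s, f l) = ∑ l ∈ s, d i (f l) * ∏ l' ∈ s.erase l, f l' := by
  induction s using Finset.induction_on with
  | empty => simp [jacd_one hd]
  | insert a s ha ih =>
    rw [Finset.prod_insert ha, hd.mul, ih, Finset.sum_insert ha, Finset.erase_insert ha,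
      Finset.mul_sum]
    congr 1
    refine Finset.sum_congr rfl fun l hl => ?_
    have hla : l ≠ a := fun h => ha (h ▸ hl)
    rw [Finset.erase_insert_of_ne hla.symm, Finset.prod_insert]
    · ring
    · simp [ha]

/-- A Jacobian determinant with an argument `u` vanishes if `u` kills all products of derivatives
of the other arguments. -/
theorem jac_exact {R ι : Type*} [CommRing R] [Fintype ι] [DecidableEq ι] (d : ι → R → R)
    (hd : ComDer d) (g : ι → R) (j : ι) (u : R)
    (hu : ∀ σ : Equiv.Perm ι, u * ∏ l ∈ Finset.univ.erase j, d (σ l) (g l) = 0) :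
    (Matrix.of fun i l => d i (Function.update g j u l)).det = 0 := by
  classical
  rw [Matrix.det_apply]
  have h1 : ∀ σ : Equiv.Perm ι,
      (∏ l, (Matrix.of fun i l => d i (Function.update g j u l)) (σ l) l) =
      ∑ l ∈ Finset.univ.erase j, -(u * (d (σ j) (d (σ l) (g l)) *
        ∏ l' ∈ (Finset.univ.erase j).erase l, d (σ l') (g l'))) := by
    intro σ
    rw [← Finset.mul_prod_erase Finset.univ _ (Finset.mem_univ j)]
    simp only [Matrix.of_apply, Function.update_self]
    have h2 : ∏ l ∈ Finset.univ.erase j, d (σ l) (Function.update g j u l) =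
        ∏ l ∈ Finset.univ.erase j, d (σ l) (g l) := by
      refine Finset.prod_congr rfl fun l hl => ?_
      rw [Function.update_of_ne (Finset.ne_of_mem_erase hl)]
    rw [h2]
    have h3 := congrArg (d (σ j)) (hu σ)
    rw [hd.mul, jacd_zero hd, jacd_prod hd] at h3
    rw [Finset.sum_neg_distrib, ← Finset.mul_sum]
    exact eq_neg_of_add_eq_zero_left h3
  simp_rw [h1, Finset.smul_sum]
  rw [Finset.sum_comm]
  refine Finset.sum_eq_zero fun l hl => ?_
  have hlj : l ≠ j := Finset.ne_of_mem_erase hl
  refine Finset.sum_involution (fun σ _ => σ * Equiv.swap j l) ?_ ?_ ?_ ?_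
  · intro σ _
    have e1 : (σ * Equiv.swap j l) j = σ l := by simp
    have e2 : (σ * Equiv.swap j l) l = σ j := by simp
    have e3 : ∏ l' ∈ (Finset.univ.erase j).erase l, d ((σ * Equiv.swap j l) l') (g l') =
        ∏ l' ∈ (Finset.univ.erase j).erase l, d (σ l') (g l') := by
      refine Finset.prod_congr rfl fun l' hl' => ?_
      have a1 : l' ≠ l := Finset.ne_of_mem_erase hl'
      have a2 : l' ≠ j := Finset.ne_of_mem_erase (Finset.mem_of_mem_erase hl')
      rw [Equiv.Perm.mul_apply, Equiv.swap_apply_of_ne_of_ne a2 a1]
    rw [e1, e2, e3, hd.comm (σ l) (σ j), Equiv.Perm.sign_mul, Equiv.Perm.sign_swap hlj.symm]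
    simp
  · intro σ _ _ h
    have := congrArg (fun τ : Equiv.Perm ι => τ j) h
    simp only [Equiv.Perm.mul_apply, Equiv.swap_apply_left] at this
    exact hlj (σ.injective this)
  · intro σ _
    exact Finset.mem_univ _
  · intro σ _
    rw [mul_assoc, Equiv.swap_mul_self, mul_one]

theorem jac_update {R : Type*} [CommRing R] {n : ℕ} (d : Fin n → R → R) (t : Fin n → R)
    (l : Fin n) (u : R) :
    (Matrix.of fun i l' => d i (Function.update t l u l')) =
      (Matrix.of fun i l' => d i (t l')).updateCol l (fun i => d i u) := by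
  ext i l'
  by_cases h : l' = l
  · subst h
    simp
  · rw [Matrix.updateCol_ne h]
    simp [Function.update_of_ne h]

/-- The determinant with first row the multiples of the functions, and the derivatives in the other
rows. -/
theorem wronskian {R : Type*} [CommRing R] {n : ℕ} (d : Fin n → R → R) (hd : ComDer d) (c : R)
    (g : Fin (n + 1) → R)
    (hg : ∀ (l : Fin n) (σ : Equiv.Perm (Fin n)),
      g 0 * g l.succ * ∏ l' ∈ Finset.univ.erase l, d (σ l') (g l'.succ) = 0) :
    (Matrix.of fun i l : Fin (n + 1) =>
      Fin.cases (motive := fun _ => R) (c * g l) (fun i' => d i' (g l)) i).det =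
      ((n + 1 : ℕ) : R) * (c * (g 0 * (Matrix.of fun i l : Fin n => d i (g l.succ)).det)) := by
  set J : R := (Matrix.of fun i l : Fin n => d i (g l.succ)).det with hJ
  rw [Matrix.det_succ_row_zero, Fin.sum_univ_succ]
  have h0 : ∀ l : Fin n, (-1 : R) ^ ((l.succ : Fin (n + 1)) : ℕ) *
      (Matrix.of fun i l : Fin (n + 1) =>
        Fin.cases (motive := fun _ => R) (c * g l) (fun i' => d i' (g l)) i) 0 l.succ *
      ((Matrix.of fun i l : Fin (n + 1) =>
        Fin.cases (motive := fun _ => R) (c * g l) (fun i' => d i' (g l)) i).submatrix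
          Fin.succ l.succ.succAbove).det = c * (g 0 * J) := by
    intro l
    set M : Matrix (Fin n) (Fin n) R := Matrix.of fun i l' => d i (g (l.succ.succAbove l')) with hM
    have hsub : (Matrix.of fun i l : Fin (n + 1) =>
        Fin.cases (motive := fun _ => R) (c * g l) (fun i' => d i' (g l)) i).submatrix
          Fin.succ l.succ.succAbove = M := by
      ext i l'
      simp [hM]
    have hN : (Matrix.of fun i l' => d i (Function.update (fun l => g l.succ) l (g 0) l')) =
        M.submatrix id (Fin.cycleRange l) := by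
      ext i l'
      simp only [Matrix.of_apply, Matrix.submatrix_apply, hM, id, Fin.succAbove_cycleRange]
      by_cases h : l' = l
      · subst h
        simp
      · rw [Function.update_of_ne h, Equiv.swap_apply_of_ne_of_ne (Fin.succ_ne_zero _)
          (fun h' => h (Fin.succ_injective _ h'))]
    have hdetN : (Matrix.of fun i l' => d i (Function.update (fun l => g l.succ) l (g 0) l')).det =
        (-1) ^ (l : ℕ) * M.det := by
      rw [hN, Matrix.det_permute', Fin.sign_cycleRange]
      simp
    have hex := jac_exact d hd (fun l => g l.succ) l (g 0 * g l.succ) (hg l)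
    rw [jac_update] at hex
    have hcol : (fun i => d i (g 0 * g l.succ)) =
        (g l.succ • fun i => d i (g 0)) + (g 0 • fun i => d i (g l.succ)) := by
      funext i
      simp only [Pi.add_apply, Pi.smul_apply, smul_eq_mul, hd.mul]
      ring
    rw [hcol, Matrix.det_updateCol_add, Matrix.det_updateCol_smul, Matrix.det_updateCol_smul,
      ← jac_update, ← jac_update, hdetN] at hex
    have hself : (Function.update (fun l : Fin n => g l.succ) l (g l.succ)) =
        fun l => g l.succ := Function.update_eq_self l (fun l : Fin n => g l.succ)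
    rw [hself] at hex
    rw [hsub]
    simp only [Matrix.of_apply, Fin.cases_zero, Fin.val_succ]
    rw [← hJ] at hex
    have h5 : g 0 * J = -(g l.succ * ((-1) ^ (l : ℕ) * M.det)) := by
      rw [eq_neg_iff_add_eq_zero, add_comm]
      exact hex
    rw [h5, pow_succ]
    ring
  rw [Finset.sum_congr rfl fun l _ => h0 l]
  simp only [Fin.val_zero, pow_zero, one_mul, Matrix.of_apply, Fin.cases_zero, Finset.sum_const,
    Finset.card_univ, Fintype.card_fin, nsmul_eq_mul, Fin.succAbove_zero]
  have hz : (Matrix.of fun i l : Fin (n + 1) =>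
      Fin.cases (motive := fun _ => R) (c * g l) (fun i' => d i' (g l)) i).submatrix
        Fin.succ Fin.succ = Matrix.of fun i l : Fin n => d i (g l.succ) := by
    ext i l'
    simp
  rw [hz, ← hJ]
  push_cast
  ring

end Pool.Agent.CatP.Odd
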