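import Pool.Agent.CatP.Odd.Ops
import Pool.Agent.CatP.Odd.Jac

/-! The point kills the minors. -/

namespace Pool.Agent.CatP.Odd

open MvPolynomial Pool.Agent.H91.Cat ExteriorAlgebra

namespace KL

variable {k : Type*} [Field k] {q : ℕ}

/-- The result of the operators of a list of cells. -/
noncomputable def appl (k : Type*) [Field k] {q : ℕ} (l : List (Cell q)) : EE k q :=
  l.foldr (fun c t => op k c t) (vol k q)

/-- The span of the generators of the families except `inr 0`. -/
noncomputable def VY (k : Type*) [Field k] (q : ℕ) : Submodule k (Cell q ⊕ Fam q → k) :=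
  Submodule.span k ((fun f : Fam q => (bv (Sum.inr f) : Cell q ⊕ Fam q → k)) ''
    ((Finset.univ.erase (Sum.inr 0) : Finset (Fam q)) : Set (Fam q)))

/-- The span of the generator of the family `inr 0`. -/
noncomputable def V0 (k : Type*) [Field k] (q : ℕ) : Submodule k (Cell q ⊕ Fam q → k) :=
  Submodule.span k ((fun f : Fam q => (bv (Sum.inr f) : Cell q ⊕ Fam q → k)) ''
    (({Sum.inr 0} : Finset (Fam q)) : Set (Fam q)))

/-- The span of the generators of the cells except `(0, 0)`. -/
noncomputable def VT (k : Type*) [Field k] (q : ℕ) : Submodule k (Cell q ⊕ Fam q → k) :=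
  Submodule.span k ((fun c : Cell q => (bv (Sum.inl c) : Cell q ⊕ Fam q → k)) ''
    ((Finset.univ.erase (0, 0) : Finset (Cell q)) : Set (Cell q)))

theorem VY_bot : Fil (VY k q) (q + 4) = ⊥ := by
  refine Fil_span_eq_bot _ _ ?_
  rw [Finset.card_erase_of_mem (Finset.mem_univ _), Finset.card_univ, Fintype.card_sum,
    Fintype.card_fin, Fintype.card_fin]
  omega

theorem V0_bot : Fil (V0 k q) 2 = ⊥ := by
  refine Fil_span_eq_bot _ _ ?_
  rw [Finset.card_singleton]
  omega

theorem VT_bot : Fil (VT k q) ((q + 2) * (q + 2)) = ⊥ := by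
  refine Fil_span_eq_bot _ _ ?_
  rw [Finset.card_erase_of_mem (Finset.mem_univ _), Finset.card_univ, Fintype.card_prod,
    Fintype.card_fin]
  exact Nat.sub_lt (Nat.mul_pos (by omega) (by omega)) one_pos

theorem fam_eq_inr_zero {c : Cell q} : fam c = Sum.inr 0 ↔ c = (0, 0) := by
  obtain ⟨b, j⟩ := c
  refine Fin.cases ?_ (fun a => ?_) b
  · refine Fin.cases ?_ (fun j => ?_) j
    · simp [fam_zero_zero]
    · rw [fam_zero_succ]
      simp
  · refine Fin.cases ?_ (fun j => ?_) j
    · rw [fam_succ_zero]; simp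
    · refine Fin.cases ?_ (fun j => ?_) j
      · rw [fam_succ_one]; simp
      · rw [fam_succ_succ]; simp

theorem op_ne {c : Cell q} (hc : c ≠ (0, 0)) (t : EE k q) :
    op k c t = tt k c * dy k (fam c) t := by
  unfold op
  rw [if_neg (fun h => hc (fam_eq_inr_zero.1 h))]
  rfl

theorem op_zero (t : EE k q) :
    op k ((0, 0) : Cell q) t = tt k (0, 0) * (yy k (Sum.inr 0) * t) := by
  unfold op
  rw [if_pos fam_zero_zero, LinearMap.mulLeft_apply, mul_assoc]

theorem op_VY {c : Cell q} {t : EE k q} {m : ℕ} (h : t ∈ Fil (VY k q) (m + 1)) :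
    op k c t ∈ Fil (VY k q) m := by
  by_cases hc : c = (0, 0)
  · subst hc
    rw [op_zero]
    exact mul_left_mem_Fil _ _ (mul_left_mem_Fil _ _ (Fil_anti _ (Nat.le_succ m) h))
  · rw [op_ne hc]
    exact mul_left_mem_Fil _ _ (contract_mem_Fil _ _ h)

theorem op_VY_zero {t : EE k q} {m : ℕ} (h : t ∈ Fil (VY k q) m) :
    op k ((0, 0) : Cell q) t ∈ Fil (VY k q) m := by
  rw [op_zero]
  exact mul_left_mem_Fil _ _ (mul_left_mem_Fil _ _ h)

theorem op_V0 {c : Cell q} {t : EE k q} {m : ℕ} (h : t ∈ Fil (V0 k q) m) :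
    op k c t ∈ Fil (V0 k q) m := by
  by_cases hc : c = (0, 0)
  · subst hc
    rw [op_zero]
    exact mul_left_mem_Fil _ _ (mul_left_mem_Fil _ _ h)
  · rw [op_ne hc]
    refine mul_left_mem_Fil _ _ (contract_mem_Fil_of_zero _ _ ?_ h)
    intro v hv
    refine Submodule.span_induction ?_ ?_ ?_ ?_ hv
    · rintro x ⟨f, hf, rfl⟩
      rw [Finset.mem_coe, Finset.mem_singleton] at hf
      subst hf
      change bv (Sum.inr (Sum.inr 0)) (Sum.inr (fam c)) = (0 : k)
      unfold bv
      rw [Pi.single_eq_of_ne]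
      intro h1
      rw [Sum.inr.injEq] at h1
      exact hc (fam_eq_inr_zero.1 h1)
    · exact map_zero _
    · intro x y _ _ hx hy
      rw [map_add, hx, hy, add_zero]
    · intro a x _ hx
      rw [map_smul, hx, smul_zero]

theorem op_V0_zero {t : EE k q} {m : ℕ} (h : t ∈ Fil (V0 k q) m) :
    op k ((0, 0) : Cell q) t ∈ Fil (V0 k q) (m + 1) := by
  rw [op_zero, add_comm]
  refine mul_left_mem_Fil _ _ (mul_mem_Fil _ (ι_mem_Fil _ ?_) h)
  exact Submodule.subset_span ⟨Sum.inr 0, by simp, rfl⟩

theorem op_VT {c : Cell q} (hc : c ≠ (0, 0)) {t : EE k q} {m : ℕ} (h : t ∈ Fil (VT k q) m) :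
    op k c t ∈ Fil (VT k q) (m + 1) := by
  rw [op_ne hc, add_comm]
  refine mul_mem_Fil _ (ι_mem_Fil _ ?_) (contract_mem_Fil_of_zero _ _ ?_ h)
  · exact Submodule.subset_span ⟨c, by simp [hc], rfl⟩
  · intro v hv
    refine Submodule.span_induction ?_ ?_ ?_ ?_ hv
    · rintro x ⟨f, hf, rfl⟩
      change bv (Sum.inl f) (Sum.inr (fam c)) = (0 : k)
      unfold bv
      rw [Pi.single_eq_of_ne (by simp)]
    · exact map_zero _
    · intro x y _ _ hx hy
      rw [map_add, hx, hy, add_zero]
    · intro a x _ hx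
      rw [map_smul, hx, smul_zero]

theorem op_VT_zero {t : EE k q} {m : ℕ} (h : t ∈ Fil (VT k q) m) :
    op k ((0, 0) : Cell q) t ∈ Fil (VT k q) m := by
  rw [op_zero]
  exact mul_left_mem_Fil _ _ (mul_left_mem_Fil _ _ h)

theorem vol_VY : vol k q ∈ Fil (VY k q) (q + 3) := by
  have hy : ∀ f : Fam q, f ≠ Sum.inr 0 → yy k f ∈ Fil (VY k q) 1 := by
    intro f hf
    refine ι_mem_Fil _ (Submodule.subset_span ⟨f, by simp [hf], rfl⟩)
  unfold vol
  have h1 := mul_mem_Fil _ (mul_mem_Fil _ (hy (Sum.inr 1) (by simp)) (hy (Sum.inr 2) (by simp)))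
    (prod_ofFn_mem_Fil (VY k q) (fun a : Fin (q + 1) => yy k (Sum.inl a)) (fun _ => 1)
      (fun a => hy _ (by simp)))
  have h2 : 1 + 1 + ∑ _a : Fin (q + 1), 1 = q + 3 := by
    simp
    omega
  rwa [h2] at h1

/-- The number of cells different from `(0, 0)` in a list. -/
def nc (l : List (Cell q)) : ℕ := l.countP (fun c => c ≠ (0, 0))

/-- The number of cells `(0, 0)` in a list. -/
def n0 (l : List (Cell q)) : ℕ := l.countP (fun c => c = (0, 0))

theorem nc_cons_zero (l : List (Cell q)) : nc ((0, 0) :: l) = nc l := by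
  unfold nc; rw [List.countP_cons]; simp

theorem nc_cons_ne {c : Cell q} (hc : c ≠ (0, 0)) (l : List (Cell q)) :
    nc (c :: l) = nc l + 1 := by
  unfold nc; rw [List.countP_cons]; simp [hc]

theorem n0_cons_zero (l : List (Cell q)) : n0 ((0, 0) :: l) = n0 l + 1 := by
  unfold n0; rw [List.countP_cons]; simp

theorem n0_cons_ne {c : Cell q} (hc : c ≠ (0, 0)) (l : List (Cell q)) :
    n0 (c :: l) = n0 l := by
  unfold n0; rw [List.countP_cons]; simp [hc]

theorem nc_add_n0 (l : List (Cell q)) : nc l + n0 l = l.length := by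
  induction l with
  | nil => rfl
  | cons c l ih =>
    by_cases hc : c = (0, 0)
    · subst hc
      rw [nc_cons_zero, n0_cons_zero, List.length_cons]
      omega
    · rw [nc_cons_ne hc, n0_cons_ne hc, List.length_cons]
      omega

theorem appl_VY (l : List (Cell q)) (m : ℕ) (hm : m + nc l ≤ q + 3) :
    appl k l ∈ Fil (VY k q) m := by
  induction l generalizing m with
  | nil => exact Fil_anti _ (by omega) vol_VY
  | cons c l ih =>
    change op k c (appl k l) ∈ _
    by_cases hc : c = (0, 0)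
    · subst hc
      rw [nc_cons_zero] at hm
      exact op_VY_zero (ih m hm)
    · rw [nc_cons_ne hc] at hm
      exact op_VY (ih (m + 1) (by omega))

theorem appl_V0 (l : List (Cell q)) : appl k l ∈ Fil (V0 k q) (n0 l) := by
  induction l with
  | nil =>
    change _ ∈ Fil (V0 k q) 0
    rw [Fil_zero]
    exact Submodule.mem_top
  | cons c l ih =>
    change op k c (appl k l) ∈ _
    by_cases hc : c = (0, 0)
    · subst hc
      rw [n0_cons_zero]
      exact op_V0_zero ih
    · rw [n0_cons_ne hc]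
      exact op_V0 ih

theorem appl_VT (l : List (Cell q)) : appl k l ∈ Fil (VT k q) (nc l) := by
  induction l with
  | nil =>
    change _ ∈ Fil (VT k q) 0
    rw [Fil_zero]
    exact Submodule.mem_top
  | cons c l ih =>
    change op k c (appl k l) ∈ _
    by_cases hc : c = (0, 0)
    · subst hc
      rw [nc_cons_zero]
      exact op_VT_zero ih
    · rw [nc_cons_ne hc]
      exact op_VT hc ih

theorem gi_appl (hq : Odd q) (l : List (Cell q)) : gi (appl k l) = appl k l := by
  induction l with
  | nil => exact vol_gi hq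
  | cons c l ih =>
    change gi (op k c (appl k l)) = op k c (appl k l)
    rw [op_gi, ih]

/-- The value as an element of the even part. -/
noncomputable def QE (hq : Odd q) (l : List (Cell q)) : Ev k q := ⟨appl k l, gi_appl hq l⟩

/-- The operators on the even part. -/
noncomputable def opE (k : Type*) [Field k] {q : ℕ} (c : Cell q) (x : Ev k q) : Ev k q :=
  ⟨op k c x.1, by
    have hx : gi x.1 = x.1 := x.2
    change gi (op k c x.1) = op k c x.1
    rw [op_gi, hx]⟩

theorem prod_mem (V : Submodule k (Cell q ⊕ Fam q → k)) {ι : Type*} (s : Finset ι)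
    (x : ι → Ev k q) (m : ι → ℕ) (h : ∀ i ∈ s, ((x i : Ev k q) : EE k q) ∈ Fil V (m i)) :
    ((∏ i ∈ s, x i : Ev k q) : EE k q) ∈ Fil V (∑ i ∈ s, m i) := by
  classical
  induction s using Finset.induction_on with
  | empty =>
    rw [Finset.sum_empty, Fil_zero]
    exact Submodule.mem_top
  | insert a s ha ih =>
    rw [Finset.prod_insert ha, Finset.sum_insert ha]
    exact mul_mem_Fil _ (h a (Finset.mem_insert_self _ _))
      (ih fun i hi => h i (Finset.mem_insert_of_mem hi))

theorem eq_zero_of_mem {V : Submodule k (Cell q ⊕ Fam q → k)} {m m' : ℕ} (hb : Fil V m = ⊥)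
    {x : Ev k q} (h : (x : EE k q) ∈ Fil V m') (hm : m ≤ m') : x = 0 := by
  have h1 := Fil_anti V hm h
  rw [hb, Submodule.mem_bot] at h1
  exact Subtype.ext h1

theorem det_eq_zero_of {n : ℕ} (M : Matrix (Fin n) (Fin n) (Ev k q))
    (h : ∀ σ : Equiv.Perm (Fin n), ∏ i, M (σ i) i = 0) : M.det = 0 := by
  rw [Matrix.det_apply]
  refine Finset.sum_eq_zero fun σ _ => ?_
  rw [h σ, smul_zero]

theorem comDer {ι : Type*} (c : ι → Cell q) (hc : ∀ i, c i ≠ (0, 0)) :
    ComDer (fun i => opE k (c i)) where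
  add _ _ _ := Subtype.ext (map_add _ _ _)
  mul i a _ := Subtype.ext (op_mul _ (hc i) _ _ a.2)
  comm _ _ _ := Subtype.ext (op_comm _ _ _)

/-- The case in which no row is the cell `(0, 0)`. -/
theorem case_a (hq : Odd q) (c : Fin (q + 2) → Cell q) (hc : ∀ i, c i ≠ (0, 0))
    (L : Fin (q + 2) → List (Cell q)) (hL : ∀ b, (L b).length = q + 1) :
    (Matrix.of fun i b => opE k (c i) (QE hq (L b))).det = 0 := by
  rcases Nat.lt_or_ge (∑ b, n0 (L b)) 2 with h2 | h2
  · rcases Nat.eq_zero_or_pos (∑ b, n0 (L b)) with h0 | h0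
    · -- no cell `(0, 0)` at all
      have h1 : ∀ b, n0 (L b) = 0 := fun b => (Finset.sum_eq_zero_iff.1 h0) b (Finset.mem_univ _)
      refine det_eq_zero_of _ fun σ => ?_
      refine eq_zero_of_mem VT_bot (prod_mem _ _ _ (fun _ => q + 2) fun i _ => ?_) ?_
      · have h3 := nc_add_n0 (L i)
        rw [h1, hL, add_zero] at h3
        have h4 := op_VT (hc (σ i)) (appl_VT (k := k) (L i))
        rw [h3] at h4
        exact h4
      · rw [Finset.sum_const, Finset.card_univ, Fintype.card_fin, smul_eq_mul]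
    · -- exactly one
      have hs : ∑ b, n0 (L b) = 1 := by omega
      obtain ⟨b0, _, hb0⟩ : ∃ b ∈ Finset.univ, n0 (L b) ≠ 0 :=
        Finset.exists_ne_zero_of_sum_ne_zero (by omega)
      have h5 : n0 (L b0) + ∑ b ∈ Finset.univ.erase b0, n0 (L b) = 1 :=
        (Finset.add_sum_erase Finset.univ (fun b => n0 (L b)) (Finset.mem_univ b0)).trans hs
      have hu : ∀ σ : Equiv.Perm (Fin (q + 2)), QE (k := k) hq (L b0) *
          ∏ l ∈ Finset.univ.erase b0, opE k (c (σ l)) (QE hq (L l)) = 0 := by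
        intro σ
        have h6 : ((∏ l ∈ Finset.univ.erase b0, opE k (c (σ l)) (QE hq (L l)) : Ev k q) :
            EE k q) ∈ Fil (VY k q) (∑ _l ∈ Finset.univ.erase b0, 1) := by
          refine prod_mem _ _ _ _ fun l hl => ?_
          have h7 : n0 (L l) = 0 := by
            have h8 : n0 (L l) ≤ ∑ b ∈ Finset.univ.erase b0, n0 (L b) :=
              Finset.single_le_sum (f := fun b => n0 (L b)) (fun _ _ => Nat.zero_le _) hl
            omega
          have h9 := nc_add_n0 (L l)
          rw [h7, hL, add_zero] at h9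
          exact op_VY (appl_VY (L l) 2 (by omega))
        have h10 : ((QE (k := k) hq (L b0) : Ev k q) : EE k q) ∈ Fil (VY k q) 3 := by
          have h11 := nc_add_n0 (L b0)
          rw [hL] at h11
          exact appl_VY (L b0) 3 (by omega)
        have h12 : ((QE (k := k) hq (L b0) *
          ∏ l ∈ Finset.univ.erase b0, opE k (c (σ l)) (QE hq (L l)) : Ev k q) : EE k q) ∈
            Fil (VY k q) (3 + ∑ _l ∈ Finset.univ.erase b0, 1) := mul_mem_Fil _ h10 h6
        refine eq_zero_of_mem VY_bot h12 ?_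
        rw [Finset.sum_const, Finset.card_erase_of_mem (Finset.mem_univ _), Finset.card_univ,
          Fintype.card_fin, smul_eq_mul]
        omega
      have h13 := jac_exact (fun i => opE k (c i)) (comDer c hc) (fun b => QE (k := k) hq (L b)) b0
        (QE hq (L b0)) hu
      rwa [Function.update_eq_self] at h13
  · refine det_eq_zero_of _ fun σ => ?_
    exact eq_zero_of_mem V0_bot (prod_mem _ _ _ (fun i => n0 (L i)) fun i _ =>
      op_V0 (appl_V0 (L i))) h2

/-- The case in which the first row is the cell `(0, 0)` and no other row is. -/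
theorem case_b (hq : Odd q) (hp : ((q + 2 : ℕ) : k) = 0) (c : Fin (q + 2) → Cell q)
    (h0 : c 0 = (0, 0)) (hc : ∀ i : Fin (q + 1), c i.succ ≠ (0, 0))
    (L : Fin (q + 2) → List (Cell q)) (hL : ∀ b, (L b).length = q + 1) :
    (Matrix.of fun i b => opE k (c i) (QE hq (L b))).det = 0 := by
  rcases Nat.eq_zero_or_pos (∑ b, n0 (L b)) with hs | hs
  · have h1 : ∀ b, n0 (L b) = 0 := fun b => (Finset.sum_eq_zero_iff.1 hs) b (Finset.mem_univ _)
    have h2 : ∀ b, ((QE (k := k) hq (L b) : Ev k q) : EE k q) ∈ Fil (VY k q) 2 := by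
      intro b
      have h3 := nc_add_n0 (L b)
      rw [h1, hL, add_zero] at h3
      exact appl_VY (L b) 2 (by omega)
    have hcc : gi (tt k ((0, 0) : Cell q) * yy k (Sum.inr 0)) =
        tt k ((0, 0) : Cell q) * yy k (Sum.inr 0) := by
      unfold tt yy
      rw [map_mul, gi_ι, gi_ι, neg_mul_neg]
    have h4 := wronskian (fun i : Fin (q + 1) => opE k (c i.succ)) (comDer _ hc)
      (⟨_, hcc⟩ : Ev k q) (fun b => QE (k := k) hq (L b)) (by
      intro l σ
      have h6 : ((∏ l' ∈ Finset.univ.erase l, opE k (c (σ l').succ) (QE hq (L l'.succ)) :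
          Ev k q) : EE k q) ∈ Fil (VY k q) (∑ _l ∈ Finset.univ.erase l, 1) :=
        prod_mem _ _ _ _ fun l' _ => op_VY (h2 l'.succ)
      have h7 := mul_mem_Fil _ (mul_mem_Fil _ (h2 0) (h2 l.succ)) h6
      refine eq_zero_of_mem (m' := 2 + 2 + ∑ _l ∈ Finset.univ.erase l, 1) VY_bot h7 ?_
      rw [Finset.sum_const, Finset.card_erase_of_mem (Finset.mem_univ _), Finset.card_univ,
          Fintype.card_fin, smul_eq_mul]
      omega)
    have h8 : (((q + 1 + 1 : ℕ)) : Ev k q) = 0 := by
      have h9 : (((q + 1 + 1 : ℕ)) : Ev k q) = algebraMap k (Ev k q) ((q + 2 : ℕ) : k) := by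
        rw [map_natCast]
      rw [h9, hp, map_zero]
    rw [h8, zero_mul] at h4
    rw [← h4]
    congr 1
    ext i b
    rw [Matrix.of_apply, Matrix.of_apply]
    refine Fin.cases ?_ (fun i => ?_) i
    · change op k (c 0) _ = _ * _
      rw [h0, op_zero, mul_assoc]
    · rfl
  · refine det_eq_zero_of _ fun σ => ?_
    have h3 : ∀ i, ((opE k (c (σ i)) (QE hq (L i)) : Ev k q) : EE k q) ∈
        Fil (V0 k q) (n0 (L i) + if σ i = 0 then 1 else 0) := by
      intro i
      by_cases h : σ i = 0
      · rw [if_pos h, h, h0]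
        exact op_V0_zero (appl_V0 (L i))
      · rw [if_neg h]
        exact op_V0 (appl_V0 (L i))
    refine eq_zero_of_mem V0_bot (prod_mem _ _ _ _ fun i _ => h3 i) ?_
    rw [Finset.sum_add_distrib]
    have h5 : ∑ i, (if σ i = 0 then 1 else 0) = 1 := by
      rw [Finset.sum_eq_single (σ.symm 0)]
      · rw [if_pos (Equiv.apply_symm_apply _ _)]
      · intro b _ hb
        rw [if_neg]
        intro hb2
        exact hb (by rw [← hb2, Equiv.symm_apply_apply])
      · intro h; exact absurd (Finset.mem_univ _) h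
    omega

/-- The general case. -/
theorem det_zero (hq : Odd q) (hp : ((q + 2 : ℕ) : k) = 0) (c : Fin (q + 2) → Cell q)
    (hc : Function.Injective c)
    (L : Fin (q + 2) → List (Cell q)) (hL : ∀ b, (L b).length = q + 1) :
    (Matrix.of fun i b => opE k (c i) (QE hq (L b))).det = 0 := by
  by_cases h : ∃ i0, c i0 = (0, 0)
  · obtain ⟨i0, hi0⟩ := h
    have h1 := case_b hq hp (c ∘ Equiv.swap 0 i0) (by simp [hi0]) (by
      intro i hi
      have h2 := hc (hi.trans hi0.symm)
      rw [Equiv.swap_apply_eq_iff, Equiv.swap_apply_right] at h2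
      exact Fin.succ_ne_zero i h2) L hL
    have h3 : (Matrix.of fun i b => opE k ((c ∘ Equiv.swap 0 i0) i) (QE hq (L b))) =
      (Matrix.of fun i b => opE k (c i) (QE hq (L b))).submatrix (Equiv.swap 0 i0) id := rfl
    rw [h3, Matrix.det_permute] at h1
    rcases Int.units_eq_one_or (Equiv.Perm.sign (Equiv.swap 0 i0)) with h4 | h4
    · rw [h4] at h1
      simpa using h1
    · rw [h4] at h1
      simpa using h1
  · push Not at h
    exact case_a hq c h L hL

theorem zL_list (l : List (Fin ((q + 2) * (q + 2)))) :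
    zL k q ((l.map X).prod) = appl k (l.map finProdFinEquiv.symm) := by
  induction l with
  | nil => exact zL_one
  | cons i l ih =>
    rw [List.map_cons, List.prod_cons, zL_X_mul, ih]
    rfl

theorem exists_list {n : ℕ} (μ : Fin n →₀ ℕ) :
    ∃ l : List (Fin n), (monomial μ 1 : MvPolynomial (Fin n) k) = (l.map X).prod ∧
      l.length = ∑ x, μ x := by
  refine ⟨(Finsupp.toMultiset μ).toList, ?_, ?_⟩
  · rw [monomial_eq, C_1, one_mul, ← Multiset.prod_coe, ← Multiset.map_coe, Multiset.coe_toList,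
      Finsupp.toMultiset_map, Finsupp.prod_toMultiset,
      Finsupp.prod_mapDomain_index (fun _ => pow_zero _) (fun _ _ _ => pow_add _ _ _)]
  · rw [Multiset.length_toList, Finsupp.card_toMultiset, Finsupp.sum_fintype _ _ (fun _ => rfl)]
    rfl

theorem exists_cell {n : ℕ} (α : Expo n 1) : ∃ i : Fin n, ofExpo α = Finsupp.single i 1 := by
  have h : ∑ x, ofExpo α x = 1 := sum_ofExpo α
  obtain ⟨i, _, hi⟩ : ∃ i ∈ Finset.univ, ofExpo α i ≠ 0 :=
    Finset.exists_ne_zero_of_sum_ne_zero (by rw [h]; exact one_ne_zero)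
  refine ⟨i, ?_⟩
  have h1 : ofExpo α i + ∑ x ∈ Finset.univ.erase i, ofExpo α x = 1 := by
    rw [Finset.add_sum_erase _ _ (Finset.mem_univ i), h]
  ext x
  by_cases hx : x = i
  · subst hx
    rw [Finsupp.single_eq_same]
    omega
  · have h2 : ofExpo α x ≤ ∑ x ∈ Finset.univ.erase i, ofExpo α x :=
      Finset.single_le_sum (f := fun x => ofExpo α x) (fun _ _ => Nat.zero_le _)
        (Finset.mem_erase.2 ⟨hx, Finset.mem_univ _⟩)
    rw [Finsupp.single_eq_of_ne hx]
    omega

end KL

open KL in
theorem ptE_minors {k : Type*} [Field k] {q : ℕ} (hq : Odd q) (hp : ((q + 2 : ℕ) : k) = 0)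
    (h : 1 ≤ q + 2) : ∀ g ∈ Minors k ((q + 2) * (q + 2)) (q + 2) 1 h (q + 1),
      ptE (k := k) hq g = 0 := by
  intro g hg
  have hle : Minors k ((q + 2) * (q + 2)) (q + 2) 1 h (q + 1) ≤ RingHom.ker (ptE (k := k) hq) := by
    unfold Minors
    rw [Ideal.span_le]
    rintro p ⟨f, g, rfl⟩
    rw [SetLike.mem_coe, RingHom.mem_ker, RingHom.map_det]
    choose ci hci using fun a => exists_cell (f a)
    choose L hL1 hL2 using fun b => exists_list (k := k) (ofExpo (g b))
    have hinj : Function.Injective fun a => finProdFinEquiv.symm (ci a) := by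
      intro a b hab
      have h1 : ci a = ci b := finProdFinEquiv.symm.injective hab
      apply f.injective
      have h2 : ofExpo (f a) = ofExpo (f b) := by rw [hci, hci, h1]
      exact Subtype.ext (funext fun x => DFunLike.congr_fun h2 x)
    have h3 := det_zero (k := k) hq hp (fun a => finProdFinEquiv.symm (ci a)) hinj
      (fun b => (L b).map finProdFinEquiv.symm) (by
        intro b
        rw [List.length_map, hL2, sum_ofExpo]
        rfl)
    rw [← h3]
    congr 1
    ext a b
    rw [Matrix.of_apply, RingHom.mapMatrix_apply, Matrix.map_apply, Matrix.submatrix_apply]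
    unfold catMatrix ptE
    rw [eval₂Hom_X']
    have h4 : ofExpo (Expo.add h (f a) (g b)) = Finsupp.single (ci a) 1 + ofExpo (g b) := by
      rw [← hci]
      ext x
      rfl
    change zL k q (monomial (ofExpo (Expo.add h (f a) (g b))) 1) =
      op k (finProdFinEquiv.symm (ci a)) (appl k ((L b).map finProdFinEquiv.symm))
    rw [h4, ← zL_list, ← zL_X_mul, ← hL1, X, monomial_mul, one_mul]
  exact hle hg

end Pool.Agent.CatP.Odd
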