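import Pool.Agent.CatP.Odd.Ops

/-! The point does not kill the polynomial. -/

namespace Pool.Agent.CatP.Odd

open MvPolynomial Pool.Agent.H91.Cat ExteriorAlgebra

theorem card_fiber {q : ℕ} (f : Fam q) : Fintype.card {c : Cell q // fam c = f} =
    ∑ b : Fin (q + 2), ∑ j : Fin (q + 2), if fam ((b, j) : Cell q) = f then 1 else 0 := by
  rw [Fintype.card_subtype, Finset.card_filter, ← Finset.univ_product_univ, Finset.sum_product]

theorem succAbove_count {q : ℕ} (a b : Fin (q + 1)) :
    ∑ j : Fin q, (if a.succAbove j = b then 1 else 0) = if a = b then 0 else 1 := by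
  by_cases h : a = b
  · subst h
    rw [if_pos rfl]
    refine Finset.sum_eq_zero fun j _ => if_neg (Fin.succAbove_ne a j)
  · rw [if_neg h]
    obtain ⟨j, hj⟩ := Fin.exists_succAbove_eq (Ne.symm h)
    rw [Finset.sum_eq_single j, if_pos hj]
    · intro j' _ hne
      rw [if_neg]
      intro h2
      exact hne (Fin.succAbove_right_injective (h2.trans hj.symm))
    · intro h2
      exact absurd (Finset.mem_univ _) h2

theorem card_fiber_inl {q : ℕ} (a : Fin (q + 1)) :
    Fintype.card {c : Cell q // fam c = Sum.inl a} = q + 1 := by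
  rw [card_fiber, Fin.sum_univ_succ, Fin.sum_univ_succ]
  simp only [fam_zero_zero, fam_zero_succ, reduceCtorEq, if_false, zero_add, Sum.inl.injEq]
  rw [Finset.sum_ite_eq' Finset.univ a (fun _ => 1), if_pos (Finset.mem_univ _)]
  have h1 : ∀ a' : Fin (q + 1), (∑ j : Fin (q + 2),
      if fam ((a'.succ, j) : Cell q) = Sum.inl a then 1 else 0) = if a' = a then 0 else 1 := by
    intro a'
    rw [Fin.sum_univ_succ, Fin.sum_univ_succ]
    simp only [fam_succ_zero, fam_succ_one, fam_succ_succ, reduceCtorEq, if_false, zero_add,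
      Sum.inl.injEq]
    exact succAbove_count a' a
  rw [Finset.sum_congr rfl fun a' _ => h1 a']
  have h2 : ∑ a' : Fin (q + 1), (if a' = a then 0 else 1) = q := by
    rw [Finset.sum_congr rfl (g := fun a' : Fin (q + 1) => if a' ≠ a then 1 else 0)
      (fun a' _ => by simp only [ne_eq, ite_not]), ← Finset.card_filter, Finset.filter_ne',
      Finset.card_erase_of_mem (Finset.mem_univ _), Finset.card_univ, Fintype.card_fin]
    rfl
  omega

theorem card_fiber_inr {q : ℕ} (i : Fin 3) :
    Fintype.card {c : Cell q // fam c = Sum.inr i} = if i = 0 then 1 else q + 1 := by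
  rw [card_fiber, Fin.sum_univ_succ, Fin.sum_univ_succ]
  have h0 : ∀ b : Fin (q + 1), (∑ j : Fin (q + 2),
      if fam ((b.succ, j) : Cell q) = Sum.inr i then 1 else 0) = if i = 0 then 0 else 1 := by
    intro b
    rw [Fin.sum_univ_succ, Fin.sum_univ_succ]
    simp only [fam_succ_zero, fam_succ_one, fam_succ_succ, reduceCtorEq, if_false,
      Sum.inr.injEq, Finset.sum_const_zero, add_zero]
    fin_cases i <;> simp
  rw [Finset.sum_congr rfl fun b _ => h0 b]
  simp only [fam_zero_zero, fam_zero_succ, reduceCtorEq, if_false, Sum.inr.injEq,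
    Finset.sum_const_zero, add_zero, Finset.sum_const, Finset.card_univ, Fintype.card_fin,
    smul_eq_mul]
  fin_cases i <;> simp

/-- The number of permutations which preserve the families. -/
theorem card_famPerm (q : ℕ) : (famPerm q).card = (q + 1).factorial ^ (q + 3) := by
  have h1 : (famPerm q).card = Fintype.card {g : Equiv.Perm (Cell q) // fam ∘ g = fam} := by
    rw [Fintype.card_subtype]
    unfold famPerm
    congr 1
    ext s
    simp only [Finset.mem_filter, Finset.mem_univ, true_and, funext_iff, Function.comp]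
  rw [h1, DomMulAct.stabilizer_card, Fintype.prod_sum_type]
  rw [Finset.prod_congr rfl fun a _ => by rw [card_fiber_inl a]]
  rw [Finset.prod_congr (s₂ := (Finset.univ : Finset (Fin 3))) rfl
    fun i _ => by rw [card_fiber_inr i]]
  rw [Finset.prod_const, Finset.card_univ, Fintype.card_fin, Fin.prod_univ_three]
  simp only [if_true, Fin.isValue, one_ne_zero, if_false, Nat.factorial_one, one_mul]
  rw [if_neg (by decide)]
  ring

section Words

variable {k : Type*} [Field k] {q : ℕ}

/-- The generator attached to an index. -/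
noncomputable def gen (k : Type*) [Field k] {q : ℕ} (i : Cell q ⊕ Fam q) : EE k q := ι k (bv i)

/-- The product of the generators along a list. -/
noncomputable def Wd (k : Type*) [Field k] {q : ℕ} (l : List (Cell q ⊕ Fam q)) : EE k q :=
  (l.map (gen k)).prod

theorem Wd_cons (i : Cell q ⊕ Fam q) (l : List (Cell q ⊕ Fam q)) :
    Wd k (i :: l) = gen k i * Wd k l := by
  simp [Wd]

theorem Wd_append (l l' : List (Cell q ⊕ Fam q)) : Wd k (l ++ l') = Wd k l * Wd k l' := by
  simp [Wd]

theorem gen_swap (i j : Cell q ⊕ Fam q) : gen k i * gen k j = - (gen k j * gen k i) := by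
  rw [eq_neg_iff_add_eq_zero]
  exact ι_add_mul_swap _ _

theorem Wd_perm {l l' : List (Cell q ⊕ Fam q)} (h : l.Perm l') :
    Wd k l = Wd k l' ∨ Wd k l = - Wd k l' := by
  induction h with
  | nil => exact Or.inl rfl
  | cons x _ ih =>
    rw [Wd_cons, Wd_cons]
    rcases ih with h1 | h1
    · left; rw [h1]
    · right; rw [h1, mul_neg]
  | swap x y l =>
    right
    rw [Wd_cons, Wd_cons, Wd_cons, Wd_cons, ← mul_assoc, ← mul_assoc, gen_swap y x, neg_mul]
  | trans _ _ ih1 ih2 =>
    rcases ih1 with h1 | h1 <;> rcases ih2 with h2 | h2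
    · left; rw [h1, h2]
    · right; rw [h1, h2]
    · right; rw [h1, h2]
    · left; rw [h1, h2, neg_neg]

/-- Contraction with a coordinate. -/
noncomputable def dco (k : Type*) [Field k] {q : ℕ} (i : Cell q ⊕ Fam q) : EE k q →ₗ[k] EE k q :=
  CliffordAlgebra.contractLeft (Q := (0 : QuadraticForm k (Cell q ⊕ Fam q → k)))
    (LinearMap.proj i)

theorem dco_ι_mul (i : Cell q ⊕ Fam q) (v : Cell q ⊕ Fam q → k) (t : EE k q) :
    dco k i (ι k v * t) = v i • t - ι k v * dco k i t :=
  CliffordAlgebra.contractLeft_ι_mul _ _ _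

theorem dco_one (i : Cell q ⊕ Fam q) : dco k i (1 : EE k q) = 0 :=
  CliffordAlgebra.contractLeft_one _ _

theorem dco_Wd_of_notMem (i : Cell q ⊕ Fam q) (l : List (Cell q ⊕ Fam q)) (h : i ∉ l) :
    dco k i (Wd k l) = 0 := by
  induction l with
  | nil => exact dco_one i
  | cons x l ih =>
    rw [List.mem_cons, not_or] at h
    rw [Wd_cons]
    unfold gen
    rw [dco_ι_mul, ih h.2, mul_zero, sub_zero]
    unfold bv
    rw [Pi.single_eq_of_ne h.1, zero_smul]

theorem dco_Wd_cons (i : Cell q ⊕ Fam q) (l : List (Cell q ⊕ Fam q)) (h : i ∉ l) :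
    dco k i (Wd k (i :: l)) = Wd k l := by
  rw [Wd_cons]
  unfold gen
  rw [dco_ι_mul, dco_Wd_of_notMem i l h, mul_zero, sub_zero]
  unfold bv
  rw [Pi.single_eq_same, one_smul]

theorem Wd_ne_zero (l : List (Cell q ⊕ Fam q)) (h : l.Nodup) : Wd k l ≠ 0 := by
  induction l with
  | nil =>
    change (1 : EE k q) ≠ 0
    exact one_ne_zero
  | cons x l ih =>
    rw [List.nodup_cons] at h
    intro h0
    apply ih h.2
    rw [← dco_Wd_cons x l h.1, h0, map_zero]

/-- `t` is, up to sign, the product of the generators in `S`. -/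
def IsW (t : EE k q) (S : Finset (Cell q ⊕ Fam q)) : Prop :=
  ∃ l : List (Cell q ⊕ Fam q), l.Nodup ∧ l.toFinset = S ∧ (t = Wd k l ∨ t = - Wd k l)

theorem IsW.ne_zero {t : EE k q} {S : Finset (Cell q ⊕ Fam q)} (h : IsW t S) : t ≠ 0 := by
  obtain ⟨l, h1, _, h3⟩ := h
  rcases h3 with h3 | h3
  · rw [h3]; exact Wd_ne_zero l h1
  · rw [h3]; exact neg_ne_zero.2 (Wd_ne_zero l h1)

theorem IsW.mul {t t' : EE k q} {S S' : Finset (Cell q ⊕ Fam q)} (h : IsW t S) (h' : IsW t' S')
    (hd : Disjoint S S') : IsW (t * t') (S ∪ S') := by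
  obtain ⟨l, h1, h2, h3⟩ := h
  obtain ⟨l', h1', h2', h3'⟩ := h'
  refine ⟨l ++ l', ?_, ?_, ?_⟩
  · rw [List.nodup_append']
    refine ⟨h1, h1', ?_⟩
    intro x hx hx'
    have hx1 : x ∈ S := by rw [← h2]; exact List.mem_toFinset.2 hx
    have hx2 : x ∈ S' := by rw [← h2']; exact List.mem_toFinset.2 hx'
    exact Finset.disjoint_left.1 hd hx1 hx2
  · rw [List.toFinset_append, h2, h2']
  · rw [Wd_append]
    rcases h3 with h3 | h3 <;> rcases h3' with h3' | h3' <;> rw [h3, h3']
    · left; rfl
    · right; rw [mul_neg]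
    · right; rw [neg_mul]
    · left; rw [neg_mul_neg]

theorem IsW.one : IsW (1 : EE k q) ∅ := ⟨[], List.nodup_nil, rfl, Or.inl rfl⟩

theorem IsW.gen (i : Cell q ⊕ Fam q) : IsW (gen k i) {i} := by
  refine ⟨[i], List.nodup_singleton i, rfl, Or.inl ?_⟩
  rw [Wd_cons]
  change _ = _ * 1
  rw [mul_one]

theorem IsW.dco {t : EE k q} {S : Finset (Cell q ⊕ Fam q)} (h : IsW t S) (i : Cell q ⊕ Fam q)
    (hi : i ∈ S) : IsW (dco k i t) (S.erase i) := by
  obtain ⟨l, h1, h2, h3⟩ := h
  have hil : i ∈ l := by rw [← List.mem_toFinset, h2]; exact hi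
  obtain ⟨l1, l2, rfl⟩ := List.append_of_mem hil
  have hperm : (l1 ++ i :: l2).Perm (i :: (l1 ++ l2)) := List.perm_middle
  have hnd : (i :: (l1 ++ l2)).Nodup := hperm.nodup_iff.1 h1
  rw [List.nodup_cons] at hnd
  refine ⟨l1 ++ l2, hnd.2, ?_, ?_⟩
  · have h6 : (l1 ++ i :: l2).toFinset = (i :: (l1 ++ l2)).toFinset :=
      List.toFinset_eq_of_perm _ _ hperm
    rw [← h2, h6, List.toFinset_cons, Finset.erase_insert]
    rw [List.mem_toFinset]
    exact hnd.1
  · have h4 := Wd_perm (k := k) hperm
    have h5 := dco_Wd_cons (k := k) i (l1 ++ l2) hnd.1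
    rcases h3 with h3 | h3 <;> rcases h4 with h4 | h4 <;> rw [h3, h4] <;>
      simp only [map_neg, h5, neg_neg, true_or, or_true]

/-- The block to which the generator contributes. -/
def own : Cell q ⊕ Fam q → Fin (q + 2)
  | Sum.inl c => c.1
  | Sum.inr (Sum.inl a) => a.succ
  | Sum.inr (Sum.inr _) => 0

theorem op_ne {c : Cell q} (hc : fam c ≠ Sum.inr 0) (t : EE k q) :
    op k c t = gen k (Sum.inl c) * dco k (Sum.inr (fam c)) t := by
  unfold op
  rw [if_neg hc]
  rfl

theorem op_zz (t : EE k q) :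
    op k ((0, 0) : Cell q) t = gen k (Sum.inl (0, 0)) * (gen k (Sum.inr (Sum.inr 0)) * t) := by
  unfold op
  rw [if_pos fam_zero_zero, LinearMap.mulLeft_apply, mul_assoc]
  rfl

theorem IsW.op {t : EE k q} {S : Finset (Cell q ⊕ Fam q)} (h : IsW t S) {c : Cell q}
    (hc : fam c ≠ Sum.inr 0) (h1 : Sum.inr (fam c) ∈ S) (h2 : Sum.inl c ∉ S) :
    IsW (op k c t) (insert (Sum.inl c) (S.erase (Sum.inr (fam c)))) := by
  rw [op_ne hc, Finset.insert_eq]
  refine (IsW.gen _).mul (h.dco _ h1) ?_
  rw [Finset.disjoint_singleton_left]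
  intro h3
  exact h2 (Finset.mem_of_mem_erase h3)

theorem IsW.op_zero {t : EE k q} {S : Finset (Cell q ⊕ Fam q)} (h : IsW t S)
    (h1 : Sum.inr (Sum.inr 0) ∉ S) (h2 : Sum.inl (0, 0) ∉ S) :
    IsW (Odd.op k ((0, 0) : Cell q) t) (insert (Sum.inl (0, 0)) (insert (Sum.inr (Sum.inr 0)) S)) := by
  rw [Odd.op_zz, Finset.insert_eq (Sum.inl ((0, 0) : Cell q)), Finset.insert_eq (Sum.inr (Sum.inr 0))]
  refine (IsW.gen _).mul ((IsW.gen _).mul h ?_) ?_
  · rwa [Finset.disjoint_singleton_left]
  · rw [Finset.disjoint_singleton_left, Finset.mem_union, not_or]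
    exact ⟨by simp, h2⟩

theorem IsW_vol : IsW (vol k q) (Finset.univ.filter fun x =>
    ∃ f : Fam q, x = Sum.inr f ∧ f ≠ Sum.inr 0) := by
  refine ⟨Sum.inr (Sum.inr 1) :: Sum.inr (Sum.inr 2) ::
    (List.ofFn fun a : Fin (q + 1) => Sum.inr (Sum.inl a)), ?_, ?_, Or.inl ?_⟩
  · rw [List.nodup_cons, List.nodup_cons]
    refine ⟨?_, ?_, ?_⟩
    · simp [List.mem_ofFn]
    · simp [List.mem_ofFn]
    · rw [List.nodup_ofFn]
      intro a b h
      simpa using h
  · ext x
    simp only [List.toFinset_cons, Finset.mem_insert, List.mem_toFinset, List.mem_ofFn,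
      Finset.mem_filter, Finset.mem_univ, true_and]
    constructor
    · rintro (rfl | rfl | ⟨a, rfl⟩)
      · exact ⟨_, rfl, by simp⟩
      · exact ⟨_, rfl, by simp⟩
      · exact ⟨_, rfl, by simp⟩
    · rintro ⟨f, rfl, hf⟩
      rcases f with a | i
      · exact Or.inr (Or.inr ⟨a, rfl⟩)
      · fin_cases i
        · exact absurd rfl hf
        · exact Or.inl rfl
        · exact Or.inr (Or.inl rfl)
  · rw [Wd_cons, Wd_cons]
    unfold vol Wd
    rw [List.map_ofFn, ← mul_assoc]
    rfl

/-- Applying the operators of a list of cells. -/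
noncomputable def app (k : Type*) [Field k] {q : ℕ} (l : List (Cell q)) : EE k q :=
  l.foldr (fun c t => Odd.op k c t) (vol k q)

theorem IsW_app (l : List (Cell q)) (h1 : ∀ c ∈ l, fam c ≠ Sum.inr 0) (h2 : (l.map fam).Nodup) :
    ∃ S : Finset (Cell q ⊕ Fam q), IsW (app k l) S ∧
      (∀ c, Sum.inl c ∈ S ↔ c ∈ l) ∧
      (∀ f, Sum.inr f ∈ S ↔ f ≠ Sum.inr 0 ∧ f ∉ l.map fam) := by
  induction l with
  | nil =>
    refine ⟨_, IsW_vol, fun c => ?_, fun f => ?_⟩
    · simp
    · rcases f with a | i <;> simp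
  | cons c l ih =>
    rw [List.map_cons, List.nodup_cons] at h2
    have hc := h1 c List.mem_cons_self
    obtain ⟨S, h3, h4, h5⟩ := ih (fun c' hc' => h1 c' (List.mem_cons_of_mem _ hc')) h2.2
    refine ⟨_, h3.op hc ((h5 _).2 ⟨hc, h2.1⟩) ?_, fun c' => ?_, fun f => ?_⟩
    · rw [h4]
      intro hl
      exact h2.1 (List.mem_map_of_mem hl)
    · rw [Finset.mem_insert, Finset.mem_erase, h4, List.mem_cons, Sum.inl.injEq]
      simp
    · rw [Finset.mem_insert, Finset.mem_erase, h5, List.map_cons, List.mem_cons]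
      simp only [reduceCtorEq, false_or, ne_eq, Sum.inr.injEq, not_or]
      tauto

/-- The cells of a block. -/
def blc (q : ℕ) (b : Fin (q + 2)) : List (Cell q) := List.ofFn fun j => (b, j)

theorem nodup_map_blc_succ (a : Fin (q + 1)) : ((blc q a.succ).map fam).Nodup := by
  unfold blc
  rw [List.map_ofFn, List.nodup_ofFn]
  intro i j hij
  simp only [Function.comp] at hij
  revert hij
  refine Fin.cases ?_ (fun i => ?_) i <;> refine Fin.cases ?_ (fun j => ?_) j
  · intro _; rfl
  · refine Fin.cases ?_ (fun j => ?_) j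
    · rw [fam_succ_zero, fam_succ_one]; intro h; simp at h
    · rw [fam_succ_zero, fam_succ_succ]; intro h; simp at h
  · refine Fin.cases ?_ (fun i => ?_) i
    · rw [fam_succ_zero, fam_succ_one]; intro h; simp at h
    · rw [fam_succ_zero, fam_succ_succ]; intro h; simp at h
  · refine Fin.cases ?_ (fun i => ?_) i <;> refine Fin.cases ?_ (fun j => ?_) j
    · intro _; rfl
    · rw [fam_succ_one, fam_succ_succ]; intro h; simp at h
    · rw [fam_succ_one, fam_succ_succ]; intro h; simp at h
    · rw [fam_succ_succ, fam_succ_succ, Sum.inl.injEq]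
      intro h
      rw [Fin.succAbove_right_injective h]

theorem IsW_block_succ (a : Fin (q + 1)) :
    IsW (app k (blc q a.succ)) (Finset.univ.filter fun x => own x = a.succ) := by
  obtain ⟨S, h1, h2, h3⟩ := IsW_app (k := k) (blc q a.succ) (by
    intro c hc
    unfold blc at hc
    rw [List.mem_ofFn] at hc
    obtain ⟨j, rfl⟩ := hc
    refine Fin.cases ?_ (fun j => ?_) j
    · rw [fam_succ_zero]; simp
    · refine Fin.cases ?_ (fun j => ?_) j
      · rw [fam_succ_one]; simp
      · rw [fam_succ_succ]; simp) (nodup_map_blc_succ a)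
  have h4 : S = Finset.univ.filter fun x => own x = a.succ := by
    refine Finset.ext fun x => ?_
    rw [Finset.mem_filter]
    simp only [Finset.mem_univ, true_and]
    rcases x with c | f
    · rw [h2]
      unfold blc
      rw [List.mem_ofFn]
      change _ ↔ c.1 = a.succ
      constructor
      · rintro ⟨j, rfl⟩; rfl
      · intro h; exact ⟨c.2, by rw [← h]⟩
    · rw [h3]
      unfold blc
      rw [List.map_ofFn, List.mem_ofFn]
      simp only [Function.comp]
      rcases f with b | i
      · change _ ↔ b.succ = a.succ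
        rw [Fin.succ_inj]
        constructor
        · rintro ⟨_, h⟩
          by_contra hne
          obtain ⟨j, hj⟩ := Fin.exists_succAbove_eq hne
          exact h ⟨j.succ.succ, by rw [fam_succ_succ, hj]⟩
        · rintro rfl
          refine ⟨by simp, ?_⟩
          rintro ⟨j, hj⟩
          revert hj
          refine Fin.cases ?_ (fun j => ?_) j
          · rw [fam_succ_zero]; simp
          · refine Fin.cases ?_ (fun j => ?_) j
            · rw [fam_succ_one]; simp
            · rw [fam_succ_succ, Sum.inl.injEq]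
              exact Fin.succAbove_ne b j
      · change _ ↔ (0 : Fin (q + 2)) = a.succ
        constructor
        · rintro ⟨h, h'⟩
          exfalso
          fin_cases i
          · exact h rfl
          · exact h' ⟨0, fam_succ_zero a⟩
          · exact h' ⟨(0 : Fin (q + 1)).succ, fam_succ_one a⟩
        · intro h
          exact absurd h (Fin.succ_ne_zero a).symm
  rw [← h4]
  exact h1

theorem IsW_block_zero :
    IsW (app k (blc q 0)) (Finset.univ.filter fun x => own x = 0) := by
  have hb : blc q 0 = (0, 0) :: (List.ofFn fun j : Fin (q + 1) => ((0, j.succ) : Cell q)) := by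
    unfold blc
    rw [List.ofFn_succ]
  obtain ⟨S, h1, h2, h3⟩ := IsW_app (k := k)
    (List.ofFn fun j : Fin (q + 1) => ((0, j.succ) : Cell q)) (by
    intro c hc
    rw [List.mem_ofFn] at hc
    obtain ⟨j, rfl⟩ := hc
    rw [fam_zero_succ]; simp) (by
    rw [List.map_ofFn, List.nodup_ofFn]
    intro i j hij
    simp only [Function.comp, fam_zero_succ, Sum.inl.injEq] at hij
    exact hij)
  have h5 : app k (blc q 0) = Odd.op k ((0, 0) : Cell q)
      (app k (List.ofFn fun j : Fin (q + 1) => ((0, j.succ) : Cell q))) := by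
    rw [hb]
    rfl
  have h6 := h1.op_zero (by rw [h3]; simp) (by
    rw [h2, List.mem_ofFn]
    rintro ⟨j, hj⟩
    exact Fin.succ_ne_zero j (congrArg Prod.snd hj))
  have h4 : insert (Sum.inl (0, 0)) (insert (Sum.inr (Sum.inr 0)) S) =
      Finset.univ.filter fun x => own x = 0 := by
    refine Finset.ext fun x => ?_
    rw [Finset.mem_filter]
    simp only [Finset.mem_univ, true_and, Finset.mem_insert]
    rcases x with c | f
    · rw [h2, List.mem_ofFn]
      change _ ↔ c.1 = 0
      simp only [Sum.inl.injEq, reduceCtorEq, false_or]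
      constructor
      · rintro (rfl | ⟨j, rfl⟩) <;> rfl
      · obtain ⟨b, j⟩ := c
        intro h
        simp only at h
        subst h
        refine Fin.cases ?_ (fun j => ?_) j
        · exact Or.inl rfl
        · exact Or.inr ⟨j, rfl⟩
    · rw [h3, List.map_ofFn, List.mem_ofFn]
      simp only [Function.comp, fam_zero_succ, reduceCtorEq, false_or, Sum.inr.injEq]
      rcases f with b | i
      · change _ ↔ b.succ = 0
        simp
      · change _ ↔ (0 : Fin (q + 2)) = 0
        simp only [Sum.inr.injEq, reduceCtorEq, exists_false, not_false_eq_true, and_true, ne_eq,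
          iff_true]
        exact em _
  rw [h5, ← h4]
  exact h6

theorem IsW_block (b : Fin (q + 2)) :
    IsW (app k (blc q b)) (Finset.univ.filter fun x => own x = b) := by
  refine Fin.cases ?_ (fun a => ?_) b
  · exact IsW_block_zero
  · exact IsW_block_succ a

theorem IsW_blocks (L : List (Fin (q + 2))) (h : L.Nodup) :
    IsW ((L.map fun b => app k (blc q b)).prod) (Finset.univ.filter fun x => own x ∈ L) := by
  induction L with
  | nil =>
    rw [show (Finset.univ.filter fun x : Cell q ⊕ Fam q => own x ∈ ([] : List (Fin (q + 2)))) = ∅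
      from Finset.filter_eq_empty_iff.2 (fun x _ h => List.not_mem_nil h)]
    exact IsW.one
  | cons b L ih =>
    rw [List.nodup_cons] at h
    rw [List.map_cons, List.prod_cons]
    have h1 := (IsW_block (k := k) b).mul (ih h.2) (by
      rw [Finset.disjoint_filter]
      intro x _ h2 h3
      rw [h2] at h3
      exact h.1 h3)
    have h4 : (Finset.univ.filter fun x : Cell q ⊕ Fam q => own x ∈ b :: L) =
        (Finset.univ.filter fun x => own x = b) ∪ Finset.univ.filter fun x => own x ∈ L := by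
      refine Finset.ext fun x => ?_
      simp only [Finset.mem_filter, Finset.mem_univ, true_and, Finset.mem_union, List.mem_cons]
    rw [h4]
    exact h1

theorem blocks_ne_zero (k : Type*) [Field k] (q : ℕ) :
    (List.ofFn fun b : Fin (q + 2) => app k (blc q b)).prod ≠ 0 := by
  have h := (IsW_blocks (k := k) (List.finRange (q + 2)) (List.nodup_finRange _)).ne_zero
  rwa [← List.ofFn_eq_map] at h

end Words

/-! ### Moving the cell generators to the left -/

section Move

variable {k : Type*} [Field k] {q : ℕ}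

/-- The operator of a vector and a family. -/
noncomputable def opv (v : Cell q ⊕ Fam q → k) (f : Fam q) : EE k q →ₗ[k] EE k q :=
  if f = Sum.inr 0 then LinearMap.mulLeft k (ι k v * yy k (Sum.inr 0))
  else LinearMap.mulLeft k (ι k v) ∘ₗ dy k f

/-- `u` can be moved to the left through every `t`, at the cost of `n` involutions. -/
def Push (n : ℕ) (u : EE k q) : Prop := ∀ t : EE k q, t * u = u * (gi^[n]) t

theorem Push.one : Push 0 (1 : EE k q) := fun t => by
  rw [mul_one, one_mul]; rfl

theorem Push.ι (v : Cell q ⊕ Fam q → k) : Push 1 (ExteriorAlgebra.ι k v) := fun t => mul_ι_eq v t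

theorem Push.mul {n m : ℕ} {u u' : EE k q} (h : Push n u) (h' : Push m u') :
    Push (n + m) (u * u') := fun t => by
  rw [← mul_assoc, h t, mul_assoc, h' _, ← mul_assoc, ← Function.iterate_add_apply, add_comm m n]

theorem Push.ofFn_ι {n : ℕ} (v : Fin n → (Cell q ⊕ Fam q → k)) :
    Push n (List.ofFn fun j => ExteriorAlgebra.ι k (v j)).prod := by
  induction n with
  | zero => rw [List.ofFn_zero]; exact Push.one
  | succ n ih =>
    rw [List.ofFn_succ, List.prod_cons]
    have h := (Push.ι (k := k) (v 0)).mul (ih (fun j => v j.succ))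
    rw [Nat.add_comm 1 n] at h
    exact h

theorem Push.ofFn {n m : ℕ} (u : Fin m → EE k q) (h : ∀ b, Push n (u b)) :
    Push (m * n) (List.ofFn u).prod := by
  induction m with
  | zero => rw [List.ofFn_zero, Nat.zero_mul]; exact Push.one
  | succ m ih =>
    rw [List.ofFn_succ, List.prod_cons, Nat.succ_mul, add_comm]
    exact (h 0).mul (ih _ fun b => h b.succ)

theorem gi_ofFn_ι {n : ℕ} (v : Fin n → (Cell q ⊕ Fam q → k)) :
    gi (List.ofFn fun j => ExteriorAlgebra.ι k (v j)).prod =
      (-1 : k) ^ n • (List.ofFn fun j => ExteriorAlgebra.ι k (v j)).prod := by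
  induction n with
  | zero => rw [List.ofFn_zero, List.prod_nil, map_one, pow_zero, one_smul]
  | succ n ih =>
    rw [List.ofFn_succ, List.prod_cons, map_mul, ih, gi_ι, pow_succ, mul_smul_comm, mul_neg_one,
      neg_mul, smul_neg, neg_smul]

theorem dy_ofFn_ι (f : Fam q) {n : ℕ} (v : Fin n → (Cell q ⊕ Fam q → k))
    (hv : ∀ j, v j (Sum.inr f) = 0) :
    dy k f (List.ofFn fun j => ExteriorAlgebra.ι k (v j)).prod = 0 := by
  induction n with
  | zero => rw [List.ofFn_zero, List.prod_nil]; exact CliffordAlgebra.contractLeft_one _ _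
  | succ n ih =>
    rw [List.ofFn_succ, List.prod_cons]
    have h1 : dy k f (ExteriorAlgebra.ι k (v 0) *
        (List.ofFn fun j : Fin n => ExteriorAlgebra.ι k (v j.succ)).prod) =
        v 0 (Sum.inr f) • (List.ofFn fun j : Fin n => ExteriorAlgebra.ι k (v j.succ)).prod -
        ExteriorAlgebra.ι k (v 0) *
          dy k f (List.ofFn fun j : Fin n => ExteriorAlgebra.ι k (v j.succ)).prod :=
      CliffordAlgebra.contractLeft_ι_mul _ _ _
    rw [h1, hv 0, zero_smul, ih _ fun j => hv j.succ, mul_zero, sub_zero]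

/-- The vectors supported on the cells. -/
def CellV (v : Cell q ⊕ Fam q → k) : Prop := ∀ f, v (Sum.inr f) = 0

theorem opv_mul {n : ℕ} (v : Fin n → (Cell q ⊕ Fam q → k)) (hv : ∀ j, CellV (v j))
    (v0 : Cell q ⊕ Fam q → k) (f : Fam q) (Y : EE k q) :
    opv v0 f ((List.ofFn fun j => ExteriorAlgebra.ι k (v j)).prod * Y) =
      ExteriorAlgebra.ι k v0 * ((List.ofFn fun j => ExteriorAlgebra.ι k (v j)).prod *
      (if f = Sum.inr 0 then (gi^[n]) (yy k (Sum.inr 0)) * Y else (-1 : k) ^ n • dy k f Y)) := by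
  unfold opv
  by_cases hf : f = Sum.inr 0
  · rw [if_pos hf, if_pos hf, LinearMap.mulLeft_apply, mul_assoc, ← mul_assoc (yy k _),
      Push.ofFn_ι v, mul_assoc]
  · rw [if_neg hf, if_neg hf, LinearMap.comp_apply, LinearMap.mulLeft_apply]
    have h1 : dy k f ((List.ofFn fun j => ExteriorAlgebra.ι k (v j)).prod * Y) =
        dy k f (List.ofFn fun j => ExteriorAlgebra.ι k (v j)).prod * Y +
        gi (List.ofFn fun j => ExteriorAlgebra.ι k (v j)).prod * dy k f Y := contract_mul _ _ _
    rw [h1, dy_ofFn_ι f v (fun j => hv j f), zero_mul, zero_add, gi_ofFn_ι, smul_mul_assoc,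
      mul_smul_comm (_ : k) (List.ofFn _).prod]

theorem exists_block {n : ℕ} (f : Fin n → Fam q) :
    ∃ Y : EE k q, ∀ v : Fin n → (Cell q ⊕ Fam q → k), (∀ j, CellV (v j)) →
      (List.ofFn fun j => (v j, f j)).foldr (fun p t => opv p.1 p.2 t) (vol k q) =
        (List.ofFn fun j => ExteriorAlgebra.ι k (v j)).prod * Y := by
  induction n with
  | zero =>
    refine ⟨vol k q, fun v _ => ?_⟩
    rw [List.ofFn_zero, List.ofFn_zero, List.prod_nil, one_mul]
    rfl
  | succ n ih =>
    obtain ⟨Y, hY⟩ := ih (fun j => f j.succ)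
    refine ⟨if f 0 = Sum.inr 0 then (gi^[n]) (yy k (Sum.inr 0)) * Y
      else (-1 : k) ^ n • dy k (f 0) Y, fun v hv => ?_⟩
    rw [List.ofFn_succ, List.foldr_cons, hY (fun j => v j.succ) (fun j => hv j.succ),
      opv_mul _ (fun j => hv j.succ), List.ofFn_succ, List.prod_cons, mul_assoc]

theorem exists_blocks {n m : ℕ} (Y : Fin m → EE k q) :
    ∃ Y' : EE k q, ∀ v : Fin m → Fin n → (Cell q ⊕ Fam q → k),
      (List.ofFn fun b => (List.ofFn fun j => ExteriorAlgebra.ι k (v b j)).prod * Y b).prod =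
      (List.ofFn fun b => (List.ofFn fun j => ExteriorAlgebra.ι k (v b j)).prod).prod * Y' := by
  induction m with
  | zero =>
    refine ⟨1, fun v => ?_⟩
    rw [List.ofFn_zero, List.ofFn_zero, List.prod_nil, one_mul]
  | succ m ih =>
    obtain ⟨Y', hY'⟩ := ih (fun b => Y b.succ)
    refine ⟨(gi^[m * n]) (Y 0) * Y', fun v => ?_⟩
    rw [List.ofFn_succ, List.prod_cons, hY' (fun b => v b.succ), List.ofFn_succ (n := m),
      List.prod_cons, mul_assoc, ← mul_assoc (Y 0),
      Push.ofFn (n := n) _ (fun b => Push.ofFn_ι (v (Fin.succ b))), mul_assoc, mul_assoc]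

theorem alt_cells (v : Cell q → (Cell q ⊕ Fam q → k)) :
    (List.ofFn fun b : Fin (q + 2) => (List.ofFn fun j : Fin (q + 2) =>
      ExteriorAlgebra.ι k (v (b, j))).prod).prod =
      (ιMulti k ((q + 2) * (q + 2))).domDomCongr finProdFinEquiv.symm v := by
  rw [AlternatingMap.domDomCongr_apply, ιMulti_apply, List.ofFn_mul, List.prod_flatten,
    List.map_ofFn]
  congr 1
  congr 1
  funext b
  simp only [Function.comp]
  congr 1
  congr 1
  funext j
  congr 2
  rw [eq_comm, Equiv.symm_apply_eq]
  apply Fin.ext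
  simp only [finProdFinEquiv_apply_val]
  ring

theorem zL_prod {n : ℕ} (c : Fin n → Cell q) :
    zL k q (∏ j, X (finProdFinEquiv (c j))) = app k (List.ofFn c) := by
  induction n with
  | zero =>
    rw [Fin.prod_univ_zero, zL_one, List.ofFn_zero]
    rfl
  | succ n ih =>
    rw [Fin.prod_univ_succ, zL_X_mul, ih (fun j => c j.succ), List.ofFn_succ,
      Equiv.symm_apply_apply]
    rfl

theorem monomial_blk {n d : ℕ} (c : Fin d → Fin n) :
    (monomial (ofExpo (blk c)) 1 : MvPolynomial (Fin n) k) = ∏ j, X (c j) := by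
  have h : ofExpo (blk c) = ∑ j, Finsupp.single (c j) 1 := ofExpo_toExpo _ _
  rw [h, monomial_sum_one]
  rfl

theorem ptE_X_blk (hq : Odd q) (c : Fin (q + 2) → Cell q) :
    ((ptE (k := k) hq (X (blk fun j => finProdFinEquiv (c j))) : Ev k q) : EE k q) =
      app k (List.ofFn c) := by
  unfold ptE
  rw [eval₂Hom_X']
  change zL k q (monomial (ofExpo _) 1) = _
  rw [monomial_blk, zL_prod]

end Move

theorem app_eq_opv {k : Type*} [Field k] {q : ℕ} {n : ℕ} (c : Fin n → Cell q) (f : Fin n → Fam q)
    (h : ∀ j, fam (c j) = f j) : app k (List.ofFn c) =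
      (List.ofFn fun j => ((bv (Sum.inl (c j)) : Cell q ⊕ Fam q → k), f j)).foldr
        (fun p t => opv p.1 p.2 t) (vol k q) := by
  induction n with
  | zero => rw [List.ofFn_zero, List.ofFn_zero]; rfl
  | succ n ih =>
    rw [List.ofFn_succ, List.ofFn_succ (n := n), List.foldr_cons, ← ih _ _ fun j => h j.succ, ← h 0]
    rfl

theorem ptE_fOdd_eq {k : Type*} [Field k] {q : ℕ} (hq : Odd q) :
    ((ptE (k := k) hq (fOdd k q) : Ev k q) : EE k q) =
      (((famPerm q).card : ℕ) : k) • (List.ofFn fun b : Fin (q + 2) => app k (blc q b)).prod := by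
  choose Y hY using fun b : Fin (q + 2) =>
    exists_block (k := k) (fun j : Fin (q + 2) => fam ((b, j) : Cell q))
  obtain ⟨Y', hY'⟩ := exists_blocks (k := k) (n := q + 2) Y
  have key : ∀ s ∈ famPerm q, (List.ofFn fun b : Fin (q + 2) =>
      app k (List.ofFn fun j : Fin (q + 2) => s (b, j))).prod =
      (ιMulti k ((q + 2) * (q + 2))).domDomCongr finProdFinEquiv.symm
        (fun c => bv (Sum.inl (s c))) * Y' := by
    intro s hs
    have hs1 := (Finset.mem_filter.1 hs).2
    rw [← alt_cells (fun c => bv (Sum.inl (s c))), ← hY' (fun b j => bv (Sum.inl (s (b, j))))]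
    congr 2
    funext b
    rw [← hY b (fun j => bv (Sum.inl (s (b, j)))) (fun j f => by
      unfold bv
      rw [Pi.single_eq_of_ne (by simp)])]
    exact app_eq_opv _ _ fun j => hs1 (b, j)
  have hval : ∀ s : Equiv.Perm (Cell q),
      ((∏ b, ptE (k := k) hq (X (blk fun j => finProdFinEquiv (s (b, j)))) : Ev k q) : EE k q) =
      (List.ofFn fun b : Fin (q + 2) =>
        app k (List.ofFn fun j : Fin (q + 2) => s (b, j))).prod := by
    intro s
    rw [← List.prod_ofFn]
    change (Ev k q).val _ = _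
    rw [map_list_prod, List.map_ofFn]
    congr 2
    funext b
    exact ptE_X_blk hq fun j => s (b, j)
  have h1 := key 1 (by
    unfold famPerm
    simp)
  unfold fOdd
  rw [map_sum]
  simp only [map_mul, map_prod, map_intCast]
  change (Ev k q).val _ = _
  rw [map_sum]
  have h2 : ∀ s ∈ famPerm q, (Ev k q).val (((Equiv.Perm.sign s : ℤ) : Ev k q) *
      ∏ b, ptE (k := k) hq (X (blk fun j => finProdFinEquiv (s (b, j))))) =
      (List.ofFn fun b : Fin (q + 2) => app k (blc q b)).prod := by
    intro s hs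
    rw [map_mul, map_intCast]
    change _ * ((∏ b, ptE (k := k) hq (X (blk fun j => finProdFinEquiv (s (b, j)))) : Ev k q) :
      EE k q) = _
    rw [hval s, key s hs]
    have h3 := ((ιMulti k ((q + 2) * (q + 2)) (M := Cell q ⊕ Fam q → k)).domDomCongr
      finProdFinEquiv.symm).map_perm (fun c : Cell q => (bv (Sum.inl c) : Cell q ⊕ Fam q → k)) s
    have h4 : (fun c : Cell q => (bv (Sum.inl (s c)) : Cell q ⊕ Fam q → k)) =
      (fun c : Cell q => bv (Sum.inl c)) ∘ s := rfl
    rw [h4, h3]
    have h5 : (List.ofFn fun b : Fin (q + 2) => app k (blc q b)).prod =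
      (ιMulti k ((q + 2) * (q + 2))).domDomCongr finProdFinEquiv.symm
        (fun c => bv (Sum.inl c)) * Y' := h1
    rw [h5, ← mul_assoc]
    congr 1
    rcases Int.units_eq_one_or (Equiv.Perm.sign s) with h6 | h6 <;> rw [h6]
    · simp
    · simp
  rw [Finset.sum_congr rfl h2, Finset.sum_const, ← Nat.cast_smul_eq_nsmul k]

/-- The point does not kill the polynomial. -/
theorem ptE_fOdd {k : Type*} [Field k] {q : ℕ} (hq : Odd q)
    (hfac : (((q + 1).factorial : ℕ) : k) ≠ 0) : ptE (k := k) hq (fOdd k q) ≠ 0 := by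
  intro h0
  have h1 := ptE_fOdd_eq (k := k) hq
  rw [h0] at h1
  have h2 : (((famPerm q).card : ℕ) : k) ≠ 0 := by
    rw [card_famPerm, Nat.cast_pow]
    exact pow_ne_zero _ hfac
  exact smul_ne_zero h2 (blocks_ne_zero k q) h1.symm

end Pool.Agent.CatP.Odd
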