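import Pool.Agent.CatP.Odd.Defs

/-! If the letters of the family `inr 1` are in the kernel of `Z (· * C)`, then `Z (x * C)` kills
the value. -/

namespace Pool.Agent.CatP.Odd

theorem F3_fam {q : ℕ} (c : Cell q) (h : fam c = Sum.inr 1) : ∃ a : Fin (q + 1), c = (a.succ, 0) := by
  obtain ⟨b, j⟩ := c
  induction b using Fin.cases with
  | zero =>
    induction j using Fin.cases with
    | zero =>
      rw [fam_zero_zero] at h
      exact absurd (Sum.inr_injective h) (by decide)
    | succ j =>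
      rw [fam_zero_succ] at h
      exact absurd h (by simp)
  | succ a =>
    induction j using Fin.cases with
    | zero => exact ⟨a, rfl⟩
    | succ j =>
      induction j using Fin.cases with
      | zero =>
        rw [fam_succ_one] at h
        exact absurd (Sum.inr_injective h) (by decide)
      | succ j =>
        rw [fam_succ_succ] at h
        exact absurd h (by simp)

theorem F3_inj (q : ℕ) : Function.Injective (fun a : Fin (q + 1) => ((a.succ, 0) : Cell q)) := by
  intro a b h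
  exact Fin.succ_injective _ (congrArg Prod.fst h)

open Classical in
/-- The permutation of the cells attached to a permutation of the blocks. -/
noncomputable def F3_hatPerm {q : ℕ} (ρ : Equiv.Perm (Fin (q + 1))) : Equiv.Perm (Cell q) :=
  ρ.extendDomain (Equiv.ofInjective _ (F3_inj q))

theorem F3_sign_hatPerm {q : ℕ} (ρ : Equiv.Perm (Fin (q + 1))) :
    Equiv.Perm.sign (F3_hatPerm ρ) = Equiv.Perm.sign ρ := by
  classical
  unfold F3_hatPerm
  convert Equiv.Perm.sign_extendDomain ρ (Equiv.ofInjective _ (F3_inj q)) using 2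

theorem F3_hatPerm_apply {q : ℕ} (ρ : Equiv.Perm (Fin (q + 1))) (a : Fin (q + 1)) :
    F3_hatPerm ρ (a.succ, 0) = ((ρ a).succ, 0) := by
  classical
  unfold F3_hatPerm
  exact Equiv.Perm.extendDomain_apply_image ρ (Equiv.ofInjective _ (F3_inj q)) a

theorem F3_hatPerm_apply_zero {q : ℕ} (ρ : Equiv.Perm (Fin (q + 1))) (j : Fin (q + 2)) :
    F3_hatPerm ρ (0, j) = (0, j) := by
  classical
  unfold F3_hatPerm
  refine Equiv.Perm.extendDomain_apply_not_subtype ρ (Equiv.ofInjective _ (F3_inj q)) ?_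
  rintro ⟨a, ha⟩
  exact Fin.succ_ne_zero a (congrArg Prod.fst ha)

theorem F3_hatPerm_apply_succ {q : ℕ} (ρ : Equiv.Perm (Fin (q + 1))) (b : Fin (q + 2))
    (j : Fin (q + 1)) : F3_hatPerm ρ (b, j.succ) = (b, j.succ) := by
  classical
  unfold F3_hatPerm
  refine Equiv.Perm.extendDomain_apply_not_subtype ρ (Equiv.ofInjective _ (F3_inj q)) ?_
  rintro ⟨a, ha⟩
  exact Fin.succ_ne_zero j (congrArg Prod.snd ha).symm

theorem F3_fam_hatPerm {q : ℕ} (ρ : Equiv.Perm (Fin (q + 1))) (c : Cell q) :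
    fam (F3_hatPerm ρ c) = fam c := by
  obtain ⟨b, j⟩ := c
  induction b using Fin.cases with
  | zero => rw [F3_hatPerm_apply_zero]
  | succ a =>
    induction j using Fin.cases with
    | zero => rw [F3_hatPerm_apply, fam_succ_zero, fam_succ_zero]
    | succ j => rw [F3_hatPerm_apply_succ]

theorem F3_mul_mem {q : ℕ} (ρ : Equiv.Perm (Fin (q + 1))) (s : Equiv.Perm (Cell q)) :
    s ∈ famPerm q ↔ s * F3_hatPerm ρ ∈ famPerm q := by
  simp only [famPerm, Finset.mem_filter, Finset.mem_univ, true_and]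
  constructor
  · intro h c
    rw [Equiv.Perm.mul_apply, h, F3_fam_hatPerm]
  · intro h c
    have h1 := h ((F3_hatPerm ρ).symm c)
    have h2 := F3_fam_hatPerm ρ ((F3_hatPerm ρ).symm c)
    rw [Equiv.Perm.mul_apply, Equiv.apply_symm_apply] at h1
    rw [Equiv.apply_symm_apply] at h2
    rw [h1, ← h2]

theorem F3_det {A B : Type*} [CommRing A] [CommRing B] [Algebra A B] {q : ℕ} (L : Submodule A B)
    (Z : B →ₗ[A] A) (H : H1 L Z (q + 2)) (x : B) (hx : x ∈ L) (C : B) (r c : Fin (q + 1) → B)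
    (hr : ∀ a, r a ∈ L) (h : ∀ a, Z (r a * C) = 0) :
    Z (x * C) * (Matrix.of fun a b => Z (r a * c b)).det = 0 := by
  have h1 := H (Fin.cons x r) (Fin.cons C c) (fun a => by
    induction a using Fin.cases with
    | zero => exact hx
    | succ a => exact hr a)
  rw [Matrix.det_succ_column_zero, Fin.sum_univ_succ] at h1
  have h2 : ∀ a : Fin (q + 1), (Matrix.of fun a b => Z ((Fin.cons x r : Fin (q + 2) → B) a *
      (Fin.cons C c : Fin (q + 2) → B) b)) a.succ 0 = 0 := fun a => h a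
  simp only [h2, mul_zero, zero_mul, Finset.sum_const_zero, add_zero, Fin.val_zero, pow_zero,
    one_mul] at h1
  exact h1

theorem F3_sum {A B : Type*} [CommRing A] [CommRing B] [Algebra A B] {q : ℕ}
    (Z : B →ₗ[A] A) (w : Cell q → B) (s : Equiv.Perm (Cell q)) :
    ∑ ρ : Equiv.Perm (Fin (q + 1)), ((Equiv.Perm.sign (s * F3_hatPerm ρ) : ℤ) : A) *
        ∏ b, Z (∏ j, w ((s * F3_hatPerm ρ) (b, j))) =
      ((Equiv.Perm.sign s : ℤ) : A) * Z (∏ j, w (s (0, j))) *
      (Matrix.of fun a b : Fin (q + 1) => Z (w (s (a.succ, 0)) *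
        ∏ j : Fin (q + 1), w (s (b.succ, j.succ)))).det := by
  rw [Matrix.det_apply', Finset.mul_sum]
  refine Finset.sum_congr rfl fun ρ _ => ?_
  rw [Fin.prod_univ_succ (n := q + 1), Equiv.Perm.sign_mul, F3_sign_hatPerm]
  have h1 : ∀ a : Fin (q + 1), Z (∏ j, w ((s * F3_hatPerm ρ) (a.succ, j))) =
      Z (w (s ((ρ a).succ, 0)) * ∏ j : Fin (q + 1), w (s (a.succ, j.succ))) := by
    intro a
    rw [Fin.prod_univ_succ]
    simp only [Equiv.Perm.mul_apply, F3_hatPerm_apply, F3_hatPerm_apply_succ]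
  rw [Finset.prod_congr rfl fun a _ => h1 a]
  simp only [Equiv.Perm.mul_apply, F3_hatPerm_apply_zero, Matrix.of_apply]
  push_cast
  ring

theorem F3 {A B : Type*} [CommRing A] [CommRing B] [Algebra A B] {q : ℕ} (L : Submodule A B)
    (Z : B →ₗ[A] A) (H : H1 L Z (q + 2)) (hfac : IsUnit (((q + 1).factorial : ℕ) : A))
    (w : Cell q → B) (hw : ∀ c, w c ∈ L) (x : B) (hx : x ∈ L) (C : B)
    (h : ∀ a : Fin (q + 1), Z (w (a.succ, 0) * C) = 0) :
    Z (x * C) * fval Z w = 0 := by
  rw [← hfac.mul_right_eq_zero]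
  have h1 : ∀ ρ : Equiv.Perm (Fin (q + 1)), ∑ s ∈ famPerm q,
      ((Equiv.Perm.sign (s * F3_hatPerm ρ) : ℤ) : A) *
        ∏ b, Z (∏ j, w ((s * F3_hatPerm ρ) (b, j))) = fval Z w := by
    intro ρ
    unfold fval
    exact Finset.sum_equiv (Equiv.mulRight (F3_hatPerm ρ)) (fun s => F3_mul_mem ρ s) fun s _ => rfl
  have h2 : (((q + 1).factorial : ℕ) : A) * fval Z w = ∑ s ∈ famPerm q,
      ∑ ρ : Equiv.Perm (Fin (q + 1)), ((Equiv.Perm.sign (s * F3_hatPerm ρ) : ℤ) : A) *
        ∏ b, Z (∏ j, w ((s * F3_hatPerm ρ) (b, j))) := by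
    rw [Finset.sum_comm, Finset.sum_congr rfl fun ρ _ => h1 ρ, Finset.sum_const,
      Finset.card_univ, Fintype.card_perm, Fintype.card_fin, nsmul_eq_mul]
  rw [mul_left_comm, h2, Finset.mul_sum]
  refine Finset.sum_eq_zero fun s hs => ?_
  rw [F3_sum, mul_left_comm]
  have h3 := (Finset.mem_filter.1 hs).2
  rw [F3_det L Z H x hx C (fun a => w (s (a.succ, 0)))
    (fun b => ∏ j : Fin (q + 1), w (s (b.succ, j.succ))) (fun a => hw _) ?_, mul_zero]
  intro a
  obtain ⟨a', ha'⟩ := F3_fam (s (a.succ, 0)) (by rw [h3, fam_succ_zero])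
  simp only [ha']
  exact h a'

end Pool.Agent.CatP.Odd
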