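import Pool.Agent.CatP.Odd.Defs

/-! Basic properties of `fval`: multilinearity and naturality. -/

namespace Pool.Agent.CatP.Odd

open MvPolynomial Pool.Agent.H91.Cat

theorem value_split {A B : Type*} [CommRing A] [CommRing B] [Algebra A B] {q : ℕ}
    (Z : B →ₗ[A] A) (w : Cell q → B) (c : Cell q) (s : Equiv.Perm (Cell q)) :
    ∃ (R : B) (P : A), ∀ u : B, ∏ b, Z (∏ j, Function.update w c u (s (b, j))) =
      Z (u * R) * P := by
  classical
  obtain ⟨⟨b0, j0⟩, h0⟩ : ∃ d, s d = c := s.surjective c
  refine ⟨∏ j ∈ Finset.univ.erase j0, w (s (b0, j)),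
    ∏ b ∈ Finset.univ.erase b0, Z (∏ j, w (s (b, j))), fun u => ?_⟩
  rw [← Finset.mul_prod_erase Finset.univ _ (Finset.mem_univ b0)]
  congr 1
  · rw [← Finset.mul_prod_erase Finset.univ _ (Finset.mem_univ j0), h0, Function.update_self]
    congr 2
    refine Finset.prod_congr rfl fun j hj => ?_
    rw [Function.update_of_ne]
    intro h
    rw [← h0] at h
    have h2 := s.injective h
    exact Finset.ne_of_mem_erase hj (Prod.mk.inj h2).2
  · refine Finset.prod_congr rfl fun b hb => ?_
    congr 1
    refine Finset.prod_congr rfl fun j _ => ?_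
    rw [Function.update_of_ne]
    intro h
    rw [← h0] at h
    have h2 := s.injective h
    exact Finset.ne_of_mem_erase hb (Prod.mk.inj h2).1

/-- `fval` is additive in each letter. Each product contains the letter of the cell `c` in exactly
one of the factors of exactly one block. -/
theorem fval_update_add {A B : Type*} [CommRing A] [CommRing B] [Algebra A B] {q : ℕ}
    (Z : B →ₗ[A] A) (w : Cell q → B) (c : Cell q) (u v : B) :
    fval Z (Function.update w c (u + v)) =
      fval Z (Function.update w c u) + fval Z (Function.update w c v) := by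
  unfold fval
  rw [← Finset.sum_add_distrib]
  refine Finset.sum_congr rfl fun s _ => ?_
  obtain ⟨R, P, h⟩ := value_split Z w c s
  rw [h, h, h, add_mul, map_add]
  ring

/-- `fval` is homogeneous in each letter. -/
theorem fval_update_smul {A B : Type*} [CommRing A] [CommRing B] [Algebra A B] {q : ℕ}
    (Z : B →ₗ[A] A) (w : Cell q → B) (c : Cell q) (a : A) (u : B) :
    fval Z (Function.update w c (a • u)) = a * fval Z (Function.update w c u) := by
  unfold fval
  rw [Finset.mul_sum]
  refine Finset.sum_congr rfl fun s _ => ?_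
  obtain ⟨R, P, h⟩ := value_split Z w c s
  rw [h, h, smul_mul_assoc, map_smul, smul_eq_mul]
  ring

theorem Zmap_blk {k : Type*} [Field k] {n d : ℕ} {A : Type*} [CommRing A]
    (φ : MvPolynomial (Expo n d) k →+* A) (c : Fin d → Fin n) :
    Zmap φ (∏ j, X (c j)) = φ (X (blk c)) := by
  have h1 : (∏ j, X (c j) : MvPolynomial (Fin n) A) =
      monomial (∑ j, Finsupp.single (c j) 1) 1 := by
    rw [MvPolynomial.monomial_sum_one]
    rfl
  have h2 : ∑ a, (∑ j, Finsupp.single (c j) 1 : Fin n →₀ ℕ) a = d := by
    simp only [Finsupp.finsetSum_apply]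
    rw [Finset.sum_comm]
    simp [Finsupp.single_apply]
  rw [h1, Zmap_monomial, one_mul, zval, dif_pos h2]
  rfl

/-- The image of the polynomial `fOdd` is the value of `fval` at the variables. -/
theorem map_fOdd {k : Type*} [Field k] (q : ℕ) {A : Type*} [CommRing A]
    (φ : MvPolynomial (Expo ((q + 2) * (q + 2)) (q + 2)) k →+* A) :
    φ (fOdd k q) = fval (Zmap φ) (fun c : Cell q => X (finProdFinEquiv c)) := by
  unfold fOdd fval
  rw [map_sum]
  refine Finset.sum_congr rfl fun s _ => ?_
  rw [map_mul, map_intCast, map_prod]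
  congr 1
  refine Finset.prod_congr rfl fun b _ => ?_
  rw [Zmap_blk]

end Pool.Agent.CatP.Odd
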