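import Pool.Agent.CatP.Odd.G01
import Pool.Agent.CatP.Odd.F3
import Pool.Agent.CatP.Odd.Value

/-! The product of `fOdd` and a power of each variable is in the ideal. -/

namespace Pool.Agent.CatP.Odd

open MvPolynomial Pool.Agent.H91.Cat

section abstract

variable {A B : Type*} [CommRing A] [CommRing B] [Algebra A B] {q : ℕ}

theorem satOdd_step (L : Submodule A B) (Z : B →ₗ[A] A) (H : H1 L Z (q + 2))
    (hfac : IsUnit (((q + 1).factorial : ℕ) : A)) (w : Cell q → B) (hw : ∀ c, w c ∈ L)
    (x : B) (hx : x ∈ L) (C : B) (n0 : ℕ)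
    (hk : ∀ w' : Cell q → B, (∀ c, w' c ∈ L) → w' (0, 0) = w (0, 0) → ∀ a : Fin (q + 1),
      Z (x * C) ^ n0 * fval Z (Function.update w' (a.succ, 0) x) = 0) :
    Z (x * C) ^ (n0 + (q + 2)) * fval Z w = 0 := by
  classical
  have key : ∀ T : Finset (Fin (q + 1)), ∃ w' : Cell q → B, (∀ c, w' c ∈ L) ∧
      w' (0, 0) = w (0, 0) ∧ (∀ a ∈ T, Z (w' (a.succ, 0) * C) = 0) ∧
      Z (x * C) ^ n0 * fval Z w' = Z (x * C) ^ (n0 + T.card) * fval Z w := by
    intro T
    induction T using Finset.induction_on with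
    | empty => exact ⟨w, hw, rfl, by simp, by simp⟩
    | insert a T ha ih =>
      obtain ⟨w', h1, h2, h3, h4⟩ := ih
      refine ⟨Function.update w' (a.succ, 0)
        (Z (x * C) • w' (a.succ, 0) + (- Z (w' (a.succ, 0) * C)) • x), ?_, ?_, ?_, ?_⟩
      · intro c
        by_cases hc : c = (a.succ, 0)
        · subst hc
          rw [Function.update_self]
          exact L.add_mem (L.smul_mem _ (h1 _)) (L.smul_mem _ hx)
        · rw [Function.update_of_ne hc]
          exact h1 c
      · rw [Function.update_of_ne, h2]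
        intro hc
        have := congrArg Prod.fst hc
        exact absurd this.symm (Fin.succ_ne_zero a)
      · intro a' ha'
        by_cases haa : a' = a
        · subst haa
          rw [Function.update_self, add_mul, map_add, smul_mul_assoc, smul_mul_assoc, map_smul,
            map_smul, smul_eq_mul, smul_eq_mul]
          ring
        · rw [Function.update_of_ne, h3 a' (Finset.mem_of_mem_insert_of_ne ha' haa)]
          intro hc
          exact haa (Fin.succ_injective _ (congrArg Prod.fst hc))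
      · rw [fval_update_add, fval_update_smul, fval_update_smul, Function.update_eq_self,
          Finset.card_insert_of_notMem ha]
        have h5 := hk w' h1 h2 a
        linear_combination (Z (x * C)) * h4 - Z (w' (a.succ, 0) * C) * h5
  obtain ⟨w', h1, _, h3, h4⟩ := key Finset.univ
  have h5 := F3 L Z H hfac w' h1 x hx C fun a => h3 a (Finset.mem_univ a)
  rw [Finset.card_univ, Fintype.card_fin] at h4
  have h6 : Z (x * C) ^ (n0 + (q + 2)) = Z (x * C) * Z (x * C) ^ (n0 + (q + 1)) := by ring
  rw [h6, mul_assoc, ← h4]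
  linear_combination (Z (x * C) ^ n0) * h5

/-- Abstract form. -/
theorem pow_mul_fval {A B : Type*} [CommRing A] [CommRing B] [Algebra A B] {q : ℕ} (hq : Odd q)
    (L : Submodule A B) (Z : B →ₗ[A] A) (H : H1 L Z (q + 2))
    (hfac : IsUnit (((q + 1).factorial : ℕ) : A)) (w : Cell q → B) (hw : ∀ c, w c ∈ L)
    (x : B) (hx : x ∈ L) (C : B) : Z (x * C) ^ (2 * (q + 2)) * fval Z w = 0 := by
  classical
  have upd : ∀ (w' : Cell q → B), (∀ c, w' c ∈ L) → ∀ (c : Cell q) (y : B), y ∈ L →
      ∀ c', Function.update w' c y c' ∈ L := by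
    intro w' hw' c y hy c'
    by_cases hc : c' = c
    · subst hc
      rwa [Function.update_self]
    · rw [Function.update_of_ne hc]
      exact hw' c'
  have ne0 : ∀ a : Fin (q + 1), ((0, 0) : Cell q) ≠ (a.succ, 0) := by
    intro a hc
    exact absurd (congrArg Prod.fst hc).symm (Fin.succ_ne_zero a)
  -- step one: the letter in the cell `(0, 0)` is `x`
  have S1 : ∀ w' : Cell q → B, (∀ c, w' c ∈ L) → w' (0, 0) = x →
      Z (x * C) ^ (q + 2) * fval Z w' = 0 := by
    intro w' hw' h0
    have h1 := satOdd_step L Z H hfac w' hw' x hx C 0 (fun w'' hw'' h2 a => by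
      rw [G01 hq L Z H (Function.update w'' (a.succ, 0) x) (upd w'' hw'' _ x hx) a, mul_zero]
      rw [Function.update_self, Function.update_of_ne (ne0 a), h2, h0])
    rwa [zero_add] at h1
  -- step two: a letter of the family `inr 1` is `x`
  have S2 : ∀ w' : Cell q → B, (∀ c, w' c ∈ L) → ∀ a : Fin (q + 1),
      Z (x * C) ^ (q + 2) * fval Z (Function.update w' (a.succ, 0) x) = 0 := by
    intro w' hw' a
    have G : ∀ s t : B, s ∈ L → t ∈ L → s = t →
        fval Z (Function.update (Function.update w' (a.succ, 0) s) (0, 0) t) = 0 := by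
      intro s t hs ht hst
      subst hst
      refine G01 hq L Z H _ (upd _ (upd w' hw' _ s hs) _ s hs) a ?_
      rw [Function.update_self, Function.update_of_ne (ne0 a).symm, Function.update_self]
    have hy := hw' (0, 0)
    have e1 := G (x + w' (0, 0)) (x + w' (0, 0)) (L.add_mem hx hy) (L.add_mem hx hy) rfl
    have e2 := G x x hx hx rfl
    have e3 := G (w' (0, 0)) (w' (0, 0)) hy hy rfl
    have comm : ∀ s t : B, Function.update (Function.update w' (a.succ, 0) s) (0, 0) t =
        Function.update (Function.update w' (0, 0) t) (a.succ, 0) s := by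
      intro s t
      exact Function.update_comm (ne0 a).symm _ _ _
    rw [fval_update_add, comm, comm, fval_update_add, fval_update_add, ← comm, ← comm, ← comm,
      ← comm, e2, e3] at e1
    have e4 : Function.update (Function.update w' (a.succ, 0) x) (0, 0) (w' (0, 0)) =
        Function.update w' (a.succ, 0) x := by
      rw [comm, Function.update_eq_self]
    rw [e4] at e1
    have e5 := S1 (Function.update (Function.update w' (a.succ, 0) (w' (0, 0))) (0, 0) x)
      (upd _ (upd w' hw' _ _ hy) _ x hx) (Function.update_self _ _ _)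
    linear_combination (Z (x * C) ^ (q + 2)) * e1 - e5
  have h1 := satOdd_step L Z H hfac w hw x hx C (q + 2) fun w' hw' _ a => S2 w' hw' a
  rw [two_mul]
  exact h1

end abstract

theorem fOdd_sat (k : Type*) [Field k] {q : ℕ} (hq : Odd q)
    (hfac : (((q + 1).factorial : ℕ) : k) ≠ 0) (h : 1 ≤ q + 2)
    (γ : Expo ((q + 2) * (q + 2)) (q + 2)) :
    ∃ N : ℕ, X γ ^ N * fOdd k q ∈ Minors k ((q + 2) * (q + 2)) (q + 2) 1 h (q + 1) := by
  set I := Minors k ((q + 2) * (q + 2)) (q + 2) 1 h (q + 1) with hI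
  set φ := Ideal.Quotient.mk I with hφdef
  have hφ : ∀ p ∈ Minors k ((q + 2) * (q + 2)) (q + 2) 1 h (q + 1), φ p = 0 :=
    fun p hp => Ideal.Quotient.eq_zero_iff_mem.2 hp
  set L := MvPolynomial.homogeneousSubmodule (Fin ((q + 2) * (q + 2)))
    (MvPolynomial (Expo ((q + 2) * (q + 2)) (q + 2)) k ⧸ I) 1 with hL
  have H : H1 L (Zmap φ) (q + 2) := by
    intro r c hr
    exact det_Zmap_eq_zero h φ hφ r c fun a => (mem_homogeneousSubmodule _ _).1 (hr a)
  have hfac' : IsUnit (((q + 1).factorial : ℕ) :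
      MvPolynomial (Expo ((q + 2) * (q + 2)) (q + 2)) k ⧸ I) := by
    have h1 := (IsUnit.mk0 _ hfac).map
      (algebraMap k (MvPolynomial (Expo ((q + 2) * (q + 2)) (q + 2)) k ⧸ I))
    rwa [map_natCast] at h1
  have hX : ∀ i : Fin ((q + 2) * (q + 2)), (X i : MvPolynomial (Fin ((q + 2) * (q + 2)))
      (MvPolynomial (Expo ((q + 2) * (q + 2)) (q + 2)) k ⧸ I)) ∈ L :=
    fun i => (mem_homogeneousSubmodule _ _).2 (isHomogeneous_X _ _)
  obtain ⟨i, hi⟩ : ∃ i, γ.1 i ≠ 0 := by
    by_contra hcon
    push Not at hcon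
    have h2 := γ.2
    rw [Finset.sum_eq_zero fun x _ => hcon x] at h2
    omega
  have hle : Finsupp.single i 1 ≤ ofExpo γ := by
    rw [Finsupp.single_le_iff, ofExpo_apply]
    omega
  have hmon : (X i * monomial (ofExpo γ - Finsupp.single i 1) 1 :
      MvPolynomial (Fin ((q + 2) * (q + 2)))
        (MvPolynomial (Expo ((q + 2) * (q + 2)) (q + 2)) k ⧸ I)) =
      monomial (ofExpo γ) 1 := by
    rw [X, monomial_mul, one_mul, add_tsub_cancel_of_le hle]
  have key := pow_mul_fval hq L (Zmap φ) H hfac' (fun c : Cell q => X (finProdFinEquiv c))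
    (fun c => hX _) (X i) (hX i) (monomial (ofExpo γ - Finsupp.single i 1) 1)
  rw [hmon, Zmap_monomial_one, ← map_fOdd] at key
  refine ⟨2 * (q + 2), Ideal.Quotient.eq_zero_iff_mem.1 ?_⟩
  rw [← hφdef, map_mul, map_pow]
  exact key

end Pool.Agent.CatP.Odd
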