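import Pool.Agent.CatP.Odd.Tens

/-! Notation for the products of odd letters along the blocks. -/

namespace Pool.Agent.CatP.Odd

open ExteriorAlgebra TensorProduct

/-- The cells of a family. -/
def famSet {q : ℕ} (f : Fam q) : Finset (Cell q) := Finset.univ.filter fun c => fam c = f

/-- The product of all the `th c`, block after block. -/
noncomputable def thAll (A : Type*) [CommRing A] (q : ℕ) : LL A (Cell q) :=
  (List.ofFn fun b : Fin (q + 2) => (List.ofFn fun j : Fin (q + 2) =>
    (th (b, j) : LL A (Cell q))).prod).prod

variable {A B : Type*} [CommRing A] [CommRing B] [Algebra A B] {q : ℕ}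

/-- The letters of the family `inr 1` except the one in block `a₀ + 1`. -/
noncomputable def X1 (w : Cell q → B) (a₀ : Fin (q + 1)) : TT A B (Cell q) :=
  xi w ((famSet (Sum.inr 1)).erase (a₀.succ, 0))

/-- The letters of the family `inr 2`. -/
noncomputable def X2 (w : Cell q → B) : TT A B (Cell q) := xi w (famSet (Sum.inr 2))

/-- The letters of the family `inl a`. -/
noncomputable def XF (w : Cell q → B) (a : Fin (q + 1)) : TT A B (Cell q) :=
  xi w (famSet (Sum.inl a))

/-- The product of the letters of the families in a list. -/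
noncomputable def Xi (w : Cell q → B) (l : List (Fin (q + 1))) : TT A B (Cell q) :=
  (l.map (XF w)).prod

/-- The value of block `a + 1` without the letter in block `a₀ + 1` of the family `inr 1`. -/
noncomputable def yb (Z : B →ₗ[A] A) (w : Cell q → B) (a₀ a : Fin (q + 1)) : LL A (Cell q) :=
  ZL Z (X1 w a₀ * X2 w * Xi w (List.ofFn a.succAbove))

/-- The value of block `a + 1` with the letter of the family `inr 1` replaced by `w (0, 0)`. -/
noncomputable def cb (Z : B →ₗ[A] A) (w : Cell q → B) (a : Fin (q + 1)) : LL A (Cell q) :=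
  ZL Z ((1 : LL A (Cell q)) ⊗ₜ[A] w (0, 0) * X2 w * Xi w (List.ofFn a.succAbove))

/-- The value of block `0` with the letter `(0, 0)` taken out. -/
noncomputable def zb (Z : B →ₗ[A] A) (w : Cell q → B) : LL A (Cell q) :=
  ZL Z ((1 : LL A (Cell q)) ⊗ₜ[A] w (0, 0) * Xi w (List.finRange (q + 1)))

/-- The whole product of the values of the blocks. -/
noncomputable def bigF (Z : B →ₗ[A] A) (w : Cell q → B) : LL A (Cell q) :=
  (List.ofFn fun b : Fin (q + 2) => ZL Z (List.ofFn fun j : Fin (q + 2) =>
    (xi w (famSet (fam (b, j))) : TT A B (Cell q))).prod).prod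

end Pool.Agent.CatP.Odd
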