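import Pool.Agent.CatP.Odd.Arr

/-! The product of the values of the blocks is `fval` times the product of all the `th c`. -/

namespace Pool.Agent.CatP.Odd

open ExteriorAlgebra TensorProduct

/-- Products of pure tensors. -/
theorem bridge_tmul {A B : Type*} [CommRing A] [CommRing B] [Algebra A B] {I : Type*} [Fintype I]
    [DecidableEq I] {n : ℕ} (t : Fin n → LL A I) (v : Fin n → B) :
    (List.ofFn fun j => (t j ⊗ₜ[A] v j : TT A B I)).prod =
      (List.ofFn t).prod ⊗ₜ[A] (∏ j, v j) := by
  induction n with
  | zero => simp [Algebra.TensorProduct.one_def]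
  | succ n ih =>
    rw [List.ofFn_succ, List.prod_cons, ih (fun j => t j.succ) (fun j => v j.succ),
      Algebra.TensorProduct.tmul_mul_tmul, Fin.prod_univ_succ, List.ofFn_succ, List.prod_cons]

/-- The value of a product of odd letters. -/
theorem bridge_block {A B : Type*} [CommRing A] [CommRing B] [Algebra A B] {I : Type*} [Fintype I]
    [DecidableEq I] (Z : B →ₗ[A] A) (w : I → B) {n : ℕ} (S : Fin n → Finset I) :
    ZL Z (List.ofFn fun j => (xi w (S j) : TT A B I)).prod =
      ∑ r ∈ Fintype.piFinset S, Z (∏ j, w (r j)) •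
        (List.ofFn fun j => (th (r j) : LL A I)).prod := by
  have h := (MultilinearMap.mkPiAlgebraFin A n (TT A B I)).map_sum_finset
    (fun (_ : Fin n) (i : I) => (th i : LL A I) ⊗ₜ[A] w i) S
  simp only [MultilinearMap.mkPiAlgebraFin_apply] at h
  have h2 : (List.ofFn fun j => (xi w (S j) : TT A B I)).prod =
      (List.ofFn fun j => ∑ i ∈ S j, (th i : LL A I) ⊗ₜ[A] w i).prod := rfl
  rw [h2, h, map_sum]
  refine Finset.sum_congr rfl fun r _ => ?_
  rw [bridge_tmul, ZL_tmul]

/-- The product over all cells as an alternating map. -/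
theorem bridge_alt {A : Type*} [CommRing A] {q : ℕ} (v : Cell q → (Cell q → A)) :
    (List.ofFn fun b : Fin (q + 2) => (List.ofFn fun j : Fin (q + 2) =>
      (ι A (v (b, j)) : LL A (Cell q))).prod).prod =
      (ιMulti A ((q + 2) * (q + 2))).domDomCongr finProdFinEquiv.symm v := by
  rw [AlternatingMap.domDomCongr_apply, ιMulti_apply, List.ofFn_mul, List.prod_flatten,
    List.map_ofFn]
  congr 1
  congr 1
  funext b
  simp only [Function.comp]
  congr 1
  congr 1
  funext j
  congr 2
  rw [eq_comm, Equiv.symm_apply_eq]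
  apply Fin.ext
  simp only [finProdFinEquiv_apply_val]
  ring

theorem bridge {A B : Type*} [CommRing A] [CommRing B] [Algebra A B] {q : ℕ} (Z : B →ₗ[A] A)
    (w : Cell q → B) : bigF Z w = fval Z w • thAll A q := by
  classical
  have h1 : bigF Z w = ∑ R ∈ Fintype.piFinset fun b : Fin (q + 2) =>
      Fintype.piFinset fun j : Fin (q + 2) => famSet (fam ((b, j) : Cell q)),
      (∏ b, Z (∏ j, w (R b j))) • (List.ofFn fun b : Fin (q + 2) =>
        (List.ofFn fun j : Fin (q + 2) => (th (R b j) : LL A (Cell q))).prod).prod := by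
    unfold bigF
    simp only [bridge_block]
    have h := (MultilinearMap.mkPiAlgebraFin A (q + 2) (LL A (Cell q))).map_sum_finset
      (fun (_ : Fin (q + 2)) (r : Fin (q + 2) → Cell q) => Z (∏ j, w (r j)) •
        (List.ofFn fun j => (th (r j) : LL A (Cell q))).prod)
      (fun b : Fin (q + 2) => Fintype.piFinset fun j : Fin (q + 2) =>
        famSet (fam ((b, j) : Cell q)))
    simp only [MultilinearMap.mkPiAlgebraFin_apply] at h
    rw [h]
    refine Finset.sum_congr rfl fun R _ => ?_
    have h3 := (MultilinearMap.mkPiAlgebraFin A (q + 2) (LL A (Cell q))).map_smul_univ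
      (fun b => Z (∏ j, w (R b j)))
      (fun b => (List.ofFn fun j => (th (R b j) : LL A (Cell q))).prod)
    simp only [MultilinearMap.mkPiAlgebraFin_apply] at h3
    exact h3
  have hG : ∀ s : Cell q → Cell q, (List.ofFn fun b : Fin (q + 2) =>
        (List.ofFn fun j : Fin (q + 2) => (th (s (b, j)) : LL A (Cell q))).prod).prod =
      (ιMulti A ((q + 2) * (q + 2))).domDomCongr finProdFinEquiv.symm
        (fun c => Pi.single (s c) 1) := by
    intro s
    exact bridge_alt (fun c => Pi.single (s c) 1)
  have hAll : thAll A q = (ιMulti A ((q + 2) * (q + 2))).domDomCongr finProdFinEquiv.symm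
        (fun c : Cell q => (Pi.single c 1 : Cell q → A)) := hG id
  rw [h1]
  unfold fval
  rw [Finset.sum_smul]
  symm
  refine Finset.sum_of_injOn (fun s : Equiv.Perm (Cell q) => fun b j => s (b, j)) ?_ ?_ ?_ ?_
  · intro s _ t _ hst
    ext1 ⟨b, j⟩
    exact congrFun (congrFun hst b) j
  · intro s hs
    have h7 := (Finset.mem_filter.1 (Finset.mem_coe.1 hs)).2
    refine Finset.mem_coe.2 (Fintype.mem_piFinset.2 fun b => Fintype.mem_piFinset.2 fun j => ?_)
    exact Finset.mem_filter.2 ⟨Finset.mem_univ _, h7 (b, j)⟩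
  · intro R hR hn
    simp only [Fintype.mem_piFinset, famSet, Finset.mem_filter, Finset.mem_univ, true_and] at hR
    have h4 := hG (fun c => R c.1 c.2)
    simp only at h4
    rw [h4]
    have hni : ¬ Function.Injective (fun c : Cell q => R c.1 c.2) := by
      intro hinj
      apply hn
      refine ⟨Equiv.ofBijective _ (Finite.injective_iff_bijective.1 hinj), ?_, ?_⟩
      · refine Finset.mem_coe.2 (Finset.mem_filter.2 ⟨Finset.mem_univ _, ?_⟩)
        rintro ⟨b, j⟩
        exact hR b j
      · rfl
    have hni2 : ¬ Function.Injective (fun c : Cell q =>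
        (Pi.single (R c.1 c.2) 1 : Cell q → A)) := by
      intro hinj
      exact hni fun c d hcd => hinj (by simp only; rw [show R c.1 c.2 = R d.1 d.2 from hcd])
    rw [AlternatingMap.map_eq_zero_of_not_injective _ _ hni2, smul_zero]
  · intro s _
    have h4 := hG s
    rw [h4, hAll]
    have h5 := ((ιMulti A ((q + 2) * (q + 2)) (M := Cell q → A)).domDomCongr
      finProdFinEquiv.symm).map_perm (fun c : Cell q => (Pi.single c 1 : Cell q → A)) s
    have h6 : (fun c : Cell q => (Pi.single (s c) 1 : Cell q → A)) =
      (fun c : Cell q => (Pi.single c 1 : Cell q → A)) ∘ s := rfl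
    rw [h6, h5]
    rw [mul_comm, mul_smul]
    congr 1

theorem thAll_cancel {A : Type*} [CommRing A] {q : ℕ} (a : A) (h : a • thAll A q = 0) :
    a = 0 := by
  classical
  have hAll : thAll A q = (ιMulti A ((q + 2) * (q + 2))).domDomCongr finProdFinEquiv.symm
        (fun c : Cell q => (Pi.single c 1 : Cell q → A)) :=
    bridge_alt (fun c => Pi.single c 1)
  let F : ∀ i, (Cell q → A) [⋀^Fin i]→ₗ[A] A := fun i =>
    if hi : i = (q + 2) * (q + 2) then
      hi ▸ (Matrix.detRowAlternating (n := Cell q) (R := A)).domDomCongr finProdFinEquiv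
    else 0
  have h1 : liftAlternating F (thAll A q) = 1 := by
    rw [hAll, AlternatingMap.domDomCongr_apply, liftAlternating_apply_ιMulti]
    have h2 : F ((q + 2) * (q + 2)) =
        (Matrix.detRowAlternating (n := Cell q) (R := A)).domDomCongr finProdFinEquiv := by
      simp only [F, dif_pos]
    rw [h2, AlternatingMap.domDomCongr_apply]
    have h3 : ((fun i => (fun c : Cell q => (Pi.single c 1 : Cell q → A))
        (finProdFinEquiv.symm i)) ∘ finProdFinEquiv) =
        (1 : Matrix (Cell q) (Cell q) A) := by
      funext c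
      simp only [Function.comp, Equiv.symm_apply_apply]
      ext d
      rw [Matrix.one_apply, Pi.single_apply]
      simp only [eq_comm]
    have h4 : Matrix.detRowAlternating (1 : Matrix (Cell q) (Cell q) A) = 1 := Matrix.det_one
    rw [← h3] at h4
    exact h4
  have h5 := congrArg (liftAlternating F) h
  rw [map_smul, h1, map_zero, smul_eq_mul, mul_one] at h5
  exact h5

end Pool.Agent.CatP.Odd
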