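import Pool.Agent.CatP.Odd.Term
import Pool.Agent.CatP.Odd.Bridge

/-! If the letter `(0, 0)` is equal to a letter of the family `inr 1`, the value is zero. -/

namespace Pool.Agent.CatP.Odd

open ExteriorAlgebra TensorProduct

theorem fam_eq_inr_zero {q : ℕ} {c : Cell q} : fam c = Sum.inr 0 ↔ c = (0, 0) := by
  constructor
  · intro h
    obtain ⟨b, j⟩ := c
    induction b using Fin.cases with
    | zero =>
      induction j using Fin.cases with
      | zero => rfl
      | succ j => rw [fam_zero_succ] at h; cases h
    | succ a =>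
      induction j using Fin.cases with
      | zero => rw [fam_succ_zero] at h; simp at h
      | succ j =>
        induction j using Fin.cases with
        | zero => rw [fam_succ_one] at h; simp at h
        | succ j => rw [fam_succ_succ] at h; cases h
  · rintro rfl
    exact fam_zero_zero

theorem fam_eq_inr_one {q : ℕ} {c : Cell q} :
    fam c = Sum.inr 1 ↔ ∃ a : Fin (q + 1), (a.succ, 0) = c := by
  constructor
  · intro h
    obtain ⟨b, j⟩ := c
    induction b using Fin.cases with
    | zero =>
      induction j using Fin.cases with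
      | zero => rw [fam_zero_zero] at h; simp at h
      | succ j => rw [fam_zero_succ] at h; cases h
    | succ a =>
      induction j using Fin.cases with
      | zero => exact ⟨a, rfl⟩
      | succ j =>
        induction j using Fin.cases with
        | zero => rw [fam_succ_one] at h; simp at h
        | succ j => rw [fam_succ_succ] at h; cases h
  · rintro ⟨a, rfl⟩
    exact fam_succ_zero a

theorem famSet_inr_zero (q : ℕ) : famSet (Sum.inr 0 : Fam q) = {(0, 0)} := by
  ext c
  simp only [famSet, Finset.mem_filter, Finset.mem_univ, true_and, Finset.mem_singleton]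
  exact fam_eq_inr_zero

theorem mem_famSet_inr_one {q : ℕ} (a : Fin (q + 1)) :
    ((a.succ, 0) : Cell q) ∈ famSet (Sum.inr 1 : Fam q) := by
  simp only [famSet, Finset.mem_filter, Finset.mem_univ, true_and]
  exact fam_succ_zero a

theorem card_famSet_inr_one (q : ℕ) : (famSet (Sum.inr 1 : Fam q)).card = q + 1 := by
  have h : famSet (Sum.inr 1 : Fam q) =
      Finset.univ.image fun a : Fin (q + 1) => ((a.succ, 0) : Cell q) := by
    ext c
    simp only [famSet, Finset.mem_filter, Finset.mem_univ, true_and, Finset.mem_image]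
    exact fam_eq_inr_one
  rw [h, Finset.card_image_of_injective _ fun a b hab => by simpa using hab, Finset.card_univ,
    Fintype.card_fin]

theorem Xi_ofFn {A B : Type*} [CommRing A] [CommRing B] [Algebra A B] {q n : ℕ} (w : Cell q → B)
    (f : Fin n → Fin (q + 1)) :
    (Xi w (List.ofFn f) : TT A B (Cell q)) =
      (List.ofFn fun j => (xi w (famSet (Sum.inl (f j))) : TT A B (Cell q))).prod := by
  unfold Xi
  rw [List.map_ofFn]
  rfl

theorem bigF_split {A B : Type*} [CommRing A] [CommRing B] [Algebra A B] {q : ℕ}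
    (Z : B →ₗ[A] A) (w : Cell q → B) (a₀ : Fin (q + 1)) (h : w (a₀.succ, 0) = w (0, 0)) :
    bigF Z w = ((th ((0, 0) : Cell q) : LL A (Cell q)) * zb Z w) *
      (List.ofFn fun a : Fin (q + 1) => yb Z w a₀ a + th (a₀.succ, 0) * cb Z w a).prod := by
  unfold bigF
  rw [List.ofFn_succ, List.prod_cons]
  congr 1
  · rw [List.ofFn_succ, List.prod_cons, fam_zero_zero, famSet_inr_zero]
    have h1 : (List.ofFn fun j : Fin (q + 1) =>
        (xi w (famSet (fam ((0, j.succ) : Cell q))) : TT A B (Cell q))) =
        (List.ofFn fun j : Fin (q + 1) => XF w j) := rfl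
    rw [h1]
    have h2 : (xi w {((0, 0) : Cell q)} : TT A B (Cell q)) =
        ((th ((0, 0) : Cell q) : LL A (Cell q)) ⊗ₜ[A] (1 : B)) *
          ((1 : LL A (Cell q)) ⊗ₜ[A] w (0, 0)) := by
      unfold xi
      rw [Finset.sum_singleton, Algebra.TensorProduct.tmul_mul_tmul, mul_one, one_mul]
    rw [h2, mul_assoc, ZL_left_mul]
    unfold zb Xi
    rw [← List.ofFn_eq_map]
  · congr 1
    congr 1
    funext a
    rw [List.ofFn_succ, List.prod_cons, List.ofFn_succ, List.prod_cons, fam_succ_zero,
      fam_succ_one]
    have h1 : (List.ofFn fun j : Fin q =>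
        (xi w (famSet (fam ((a.succ, j.succ.succ) : Cell q))) : TT A B (Cell q))) =
        (List.ofFn fun j : Fin q =>
          (xi w (famSet (Sum.inl (a.succAbove j))) : TT A B (Cell q))) := rfl
    rw [h1, ← Xi_ofFn]
    have h2 : (xi w (famSet (Sum.inr 1 : Fam q)) : TT A B (Cell q)) =
        X1 w a₀ + ((th ((a₀.succ, 0) : Cell q) : LL A (Cell q)) ⊗ₜ[A] (1 : B)) *
          ((1 : LL A (Cell q)) ⊗ₜ[A] w (0, 0)) := by
      unfold X1 xi
      rw [← Finset.sum_erase_add _ _ (mem_famSet_inr_one a₀), Algebra.TensorProduct.tmul_mul_tmul,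
        mul_one, one_mul, h]
    rw [h2, add_mul, map_add]
    congr 1
    · unfold yb X2
      rw [mul_assoc]
    · rw [mul_assoc, ZL_left_mul]
      unfold cb X2
      rw [mul_assoc]

theorem bigF_eq_zero {A B : Type*} [CommRing A] [CommRing B] [Algebra A B] {q : ℕ} (hq : Odd q)
    (L : Submodule A B) (Z : B →ₗ[A] A) (H : H1 L Z (q + 2)) (w : Cell q → B)
    (hw : ∀ c, w c ∈ L) (a₀ : Fin (q + 1)) (h : w (a₀.succ, 0) = w (0, 0)) :
    bigF Z w = 0 := by
  classical
  rw [bigF_split Z w a₀ h, mul_assoc]
  have key : ∀ s : Finset (Fin (q + 1)),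
      zb Z w * (List.ofFn (s.piecewise (yb Z w a₀)
        (fun a => th (a₀.succ, 0) * cb Z w a))).prod = 0 := by
    intro s
    rcases Nat.lt_or_ge (sᶜ).card 2 with hs | hs
    · rcases Nat.lt_or_ge (sᶜ).card 1 with hs0 | hs1
      · have hs' : s = Finset.univ := by
          have : sᶜ = ∅ := Finset.card_eq_zero.mp (by omega)
          rwa [Finset.compl_eq_empty_iff] at this
        rw [hs', Finset.piecewise_univ]
        have h1 : (List.ofFn (yb Z w a₀)).prod ∈
            Fil (Submodule.span A ((fun i : Cell q => (Pi.single i 1 : Cell q → A)) ''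
              ((famSet (Sum.inr 1)).erase (a₀.succ, 0) : Finset (Cell q)))) (∑ _i : Fin (q + 1), 1) := by
          refine prod_ofFn_mem_Fil _ _ _ fun a => ?_
          have := ZL_xi_mem_Fil Z w ((famSet (Sum.inr 1)).erase (a₀.succ, 0)) (1 : TT A B (Cell q))
            (X2 w * Xi w (List.ofFn a.succAbove))
          rw [one_mul, ← mul_assoc] at this
          exact this
        rw [Fil_span_eq_bot] at h1
        · rw [(Submodule.mem_bot A).mp h1, mul_zero]
        · rw [Finset.card_erase_of_mem (mem_famSet_inr_one a₀), card_famSet_inr_one]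
          simp
      · have hs2 : (sᶜ).card = 1 := by omega
        obtain ⟨a, ha⟩ := Finset.card_eq_one.mp hs2
        have h2 : s.piecewise (yb Z w a₀) (fun a => th (a₀.succ, 0) * cb Z w a) =
            Function.update (yb Z w a₀) a (th (a₀.succ, 0) * cb Z w a) := by
          funext i
          by_cases hi : i = a
          · subst hi
            rw [Function.update_self, Finset.piecewise_eq_of_notMem]
            have : i ∈ sᶜ := by rw [ha]; exact Finset.mem_singleton_self _
            exact Finset.mem_compl.mp this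
          · rw [Function.update_of_ne hi, Finset.piecewise_eq_of_mem]
            by_contra hc
            have : i ∈ sᶜ := Finset.mem_compl.mpr hc
            rw [ha, Finset.mem_singleton] at this
            exact hi this
        rw [h2]
        exact term_zero hq L Z H w hw a₀ a _
    · have h1 : (List.ofFn (s.piecewise (yb Z w a₀)
          (fun a => (th (a₀.succ, 0) : LL A (Cell q)) * cb Z w a))).prod ∈
            Fil (Submodule.span A ((fun i : Cell q => (Pi.single i 1 : Cell q → A)) ''
              (({(a₀.succ, 0)} : Finset (Cell q)) : Set (Cell q))))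
              (∑ i : Fin (q + 1), if i ∈ sᶜ then 1 else 0) := by
        refine prod_ofFn_mem_Fil _ _ _ fun a => ?_
        by_cases ha : a ∈ s
        · rw [Finset.piecewise_eq_of_mem _ _ _ ha, if_neg (by simpa using ha), Fil_zero]
          exact Submodule.mem_top
        · rw [Finset.piecewise_eq_of_notMem _ _ _ ha, if_pos (Finset.mem_compl.mpr ha)]
          refine mul_right_mem_Fil _ _ (ι_mem_Fil _ ?_)
          refine Submodule.subset_span ⟨(a₀.succ, 0), ?_, rfl⟩
          simp
      rw [Fil_span_eq_bot] at h1
      · rw [(Submodule.mem_bot A).mp h1, mul_zero]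
      · rw [Finset.sum_ite_mem, Finset.univ_inter, Finset.sum_const, smul_eq_mul, mul_one,
          Finset.card_singleton]
        omega
  have hsum := (MultilinearMap.mkPiAlgebraFin A (q + 1) (LL A (Cell q))).map_add_univ
    (yb Z w a₀) (fun a => th (a₀.succ, 0) * cb Z w a)
  simp only [MultilinearMap.mkPiAlgebraFin_apply] at hsum
  have hsum' : (List.ofFn fun a : Fin (q + 1) =>
      yb Z w a₀ a + th (a₀.succ, 0) * cb Z w a).prod =
      ∑ s : Finset (Fin (q + 1)), (List.ofFn (s.piecewise (yb Z w a₀)
        (fun a => th (a₀.succ, 0) * cb Z w a))).prod := hsum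
  rw [hsum', Finset.mul_sum, Finset.sum_eq_zero fun s _ => key s, mul_zero]

theorem G01 {A B : Type*} [CommRing A] [CommRing B] [Algebra A B] {q : ℕ} (hq : Odd q)
    (L : Submodule A B) (Z : B →ₗ[A] A) (H : H1 L Z (q + 2)) (w : Cell q → B)
    (hw : ∀ c, w c ∈ L) (a₀ : Fin (q + 1)) (h : w (a₀.succ, 0) = w (0, 0)) :
    fval Z w = 0 :=
  thAll_cancel _ (by rw [← bridge, bigF_eq_zero hq L Z H w hw a₀ h])

end Pool.Agent.CatP.Odd
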