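import Mathlib

/-! General facts on exterior algebras: the grading involution, and the filtration by the number of
factors in a submodule. -/

namespace Pool.Agent.CatP.Odd

open ExteriorAlgebra

variable {A M : Type*} [CommRing A] [AddCommGroup M] [Module A M]

/-- The grading involution. -/
noncomputable abbrev gi : ExteriorAlgebra A M →ₐ[A] ExteriorAlgebra A M :=
  CliffordAlgebra.involute

theorem gi_ι (v : M) : gi (ι A v) = - ι A v :=
  CliffordAlgebra.involute_ι v

theorem gi_gi (t : ExteriorAlgebra A M) : gi (gi t) = t :=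
  CliffordAlgebra.involute_involute t

theorem ι_mul_eq (v : M) (t : ExteriorAlgebra A M) : ι A v * t = gi t * ι A v := by
  induction t using ExteriorAlgebra.induction with
  | algebraMap r => rw [AlgHom.commutes]; exact (Algebra.commutes r _).symm
  | ι w =>
    rw [gi_ι, neg_mul]
    exact eq_neg_of_add_eq_zero_left (ι_add_mul_swap v w)
  | mul a b ha hb => rw [← mul_assoc, ha, mul_assoc, hb, map_mul, mul_assoc]
  | add a b ha hb => rw [mul_add, ha, hb, map_add, add_mul]

theorem mul_ι_eq (v : M) (t : ExteriorAlgebra A M) : t * ι A v = ι A v * gi t := by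
  rw [ι_mul_eq, gi_gi]

/-- Elements fixed by the involution are central. -/
theorem comm_of_gi (t : ExteriorAlgebra A M) (ht : gi t = t) (s : ExteriorAlgebra A M) :
    t * s = s * t := by
  induction s using ExteriorAlgebra.induction with
  | algebraMap r => exact (Algebra.commutes r _).symm
  | ι w => rw [mul_ι_eq, ht]
  | mul a b ha hb => rw [← mul_assoc, ha, mul_assoc, hb, mul_assoc]
  | add a b ha hb => rw [mul_add, ha, hb, add_mul]

/-- The span of the products with at least `k` factors in `V`. -/
def Fil (V : Submodule A M) (k : ℕ) : Submodule A (ExteriorAlgebra A M) :=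
  (V.map (ι A)) ^ k * ⊤

theorem Fil_zero (V : Submodule A M) : Fil V 0 = ⊤ := by
  rw [Fil, pow_zero, one_mul]

theorem grass_Fil_succ (V : Submodule A M) (k : ℕ) : Fil V (k + 1) = V.map (ι A) * Fil V k := by
  rw [Fil, Fil, pow_succ', mul_assoc]

theorem ι_mem_Fil (V : Submodule A M) {v : M} (hv : v ∈ V) : ι A v ∈ Fil V 1 := by
  rw [grass_Fil_succ, Fil_zero, ← mul_one (ι A v)]
  exact Submodule.mul_mem_mul (Submodule.mem_map_of_mem hv) Submodule.mem_top

theorem grass_top_mul_le (V : Submodule A M) :
    (⊤ : Submodule A (ExteriorAlgebra A M)) * V.map (ι A) ≤ V.map (ι A) * ⊤ := by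
  rw [Submodule.mul_le]
  rintro t - _ ⟨v, hv, rfl⟩
  rw [mul_ι_eq]
  exact Submodule.mul_mem_mul (Submodule.mem_map_of_mem hv) Submodule.mem_top

theorem grass_top_mul_pow_le (V : Submodule A M) (k : ℕ) :
    (⊤ : Submodule A (ExteriorAlgebra A M)) * (V.map (ι A)) ^ k ≤ (V.map (ι A)) ^ k * ⊤ := by
  induction k with
  | zero => rw [pow_zero, one_mul, mul_one]
  | succ k ih =>
    rw [pow_succ, ← mul_assoc]
    calc ⊤ * (V.map (ι A)) ^ k * V.map (ι A)
        ≤ (V.map (ι A)) ^ k * ⊤ * V.map (ι A) := mul_le_mul_left ih _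
      _ = (V.map (ι A)) ^ k * (⊤ * V.map (ι A)) := by rw [mul_assoc]
      _ ≤ (V.map (ι A)) ^ k * (V.map (ι A) * ⊤) := mul_le_mul_right (grass_top_mul_le V) _
      _ = (V.map (ι A)) ^ k * V.map (ι A) * ⊤ := by rw [mul_assoc]

theorem mul_mem_Fil (V : Submodule A M) {a b : ExteriorAlgebra A M} {j k : ℕ}
    (ha : a ∈ Fil V j) (hb : b ∈ Fil V k) : a * b ∈ Fil V (j + k) := by
  have h := Submodule.mul_mem_mul ha hb
  have h2 : Fil V j * Fil V k ≤ Fil V (j + k) := by
    unfold Fil
    calc (V.map (ι A)) ^ j * ⊤ * ((V.map (ι A)) ^ k * ⊤)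
        = (V.map (ι A)) ^ j * (⊤ * (V.map (ι A)) ^ k) * ⊤ := by simp only [mul_assoc]
      _ ≤ (V.map (ι A)) ^ j * ((V.map (ι A)) ^ k * ⊤) * ⊤ :=
          mul_le_mul_left (mul_le_mul_right (grass_top_mul_pow_le V k) _) _
      _ = (V.map (ι A)) ^ (j + k) * (⊤ * ⊤) := by rw [pow_add]; simp only [mul_assoc]
      _ ≤ (V.map (ι A)) ^ (j + k) * ⊤ := mul_le_mul_right le_top _
  exact h2 h

theorem Fil_anti (V : Submodule A M) {j k : ℕ} (h : j ≤ k) : Fil V k ≤ Fil V j := by
  obtain ⟨m, rfl⟩ := Nat.exists_eq_add_of_le h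
  unfold Fil
  rw [pow_add, mul_assoc]
  exact mul_le_mul_right le_top _

theorem mul_left_mem_Fil (V : Submodule A M) (a : ExteriorAlgebra A M) {b : ExteriorAlgebra A M}
    {k : ℕ} (hb : b ∈ Fil V k) : a * b ∈ Fil V k := by
  have ha : a ∈ Fil V 0 := by rw [Fil_zero]; exact Submodule.mem_top
  have := mul_mem_Fil V ha hb
  rwa [zero_add] at this

theorem mul_right_mem_Fil (V : Submodule A M) {a : ExteriorAlgebra A M} (b : ExteriorAlgebra A M)
    {k : ℕ} (ha : a ∈ Fil V k) : a * b ∈ Fil V k := by
  have hb : b ∈ Fil V 0 := by rw [Fil_zero]; exact Submodule.mem_top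
  have := mul_mem_Fil V ha hb
  rwa [add_zero] at this

theorem prod_ofFn_mem_Fil (V : Submodule A M) {m : ℕ} (u : Fin m → ExteriorAlgebra A M)
    (k : Fin m → ℕ) (h : ∀ i, u i ∈ Fil V (k i)) : (List.ofFn u).prod ∈ Fil V (∑ i, k i) := by
  induction m with
  | zero =>
    rw [Finset.univ_eq_empty, Finset.sum_empty, Fil_zero]
    exact Submodule.mem_top
  | succ m ih =>
    rw [List.ofFn_succ, List.prod_cons, Fin.sum_univ_succ]
    exact mul_mem_Fil V (h 0) (ih (fun i => u i.succ) (fun i => k i.succ) fun i => h i.succ)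

theorem ι_mul_smul_ι (v x : M) (a : A) :
    ι A v * a • ι A x = (a • ι A x) * (ι A (-v)) := by
  have h := eq_neg_of_add_eq_zero_left (ι_add_mul_swap (R := A) v x)
  rw [Algebra.mul_smul_comm, Algebra.smul_mul_assoc, h, map_neg, mul_neg]

theorem grass_map_mul_span_le (V : Submodule A M) (x : M) :
    V.map (ι A) * (Submodule.span A {ι A x}) ≤ (Submodule.span A {ι A x}) * V.map (ι A) := by
  rw [Submodule.mul_le]
  rintro _ ⟨v, hv, rfl⟩ n hn
  obtain ⟨a, rfl⟩ := Submodule.mem_span_singleton.1 hn
  rw [ι_mul_smul_ι v x a]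
  exact Submodule.mul_mem_mul hn (Submodule.mem_map_of_mem (V.neg_mem hv))

theorem grass_span_mul_span_eq (x : M) :
    (Submodule.span A {ι A x}) * (Submodule.span A {ι A x}) =
      (⊥ : Submodule A (ExteriorAlgebra A M)) := by
  rw [Submodule.span_mul_span, Set.singleton_mul_singleton, ι_sq_zero]
  exact Submodule.span_zero_singleton A

theorem grass_pow_sup_le (V : Submodule A M) (x : M) (k : ℕ) :
    (V.map (ι A) ⊔ Submodule.span A {ι A x}) ^ (k + 1) ≤
      (V.map (ι A)) ^ (k + 1) ⊔ (Submodule.span A {ι A x}) * (V.map (ι A)) ^ k := by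
  induction k with
  | zero => simp
  | succ k ih =>
    rw [pow_succ']
    refine (mul_le_mul_right ih _).trans ?_
    rw [Submodule.sup_mul, Submodule.mul_sup, Submodule.mul_sup, ← mul_assoc, ← mul_assoc (Submodule.span A {ι A x}),
      grass_span_mul_span_eq, Submodule.bot_mul, sup_bot_eq]
    refine sup_le (sup_le ?_ ?_) ?_
    · rw [← pow_succ']
      exact le_sup_left
    · refine (mul_le_mul_left (grass_map_mul_span_le V x) _).trans ?_
      rw [mul_assoc, ← pow_succ']
      exact le_sup_right
    · exact le_sup_right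

/-- If `V` is spanned by fewer than `k` vectors, then `Fil V k = ⊥`. -/
theorem Fil_span_eq_bot {I : Type*} (s : Finset I) (e : I → M) {k : ℕ} (hk : s.card < k) :
    Fil (Submodule.span A (e '' s)) k = ⊥ := by
  classical
  induction s using Finset.induction_on generalizing k with
  | empty =>
    obtain ⟨k, rfl⟩ := Nat.exists_eq_succ_of_ne_zero (Nat.pos_iff_ne_zero.1 hk)
    rw [Nat.succ_eq_add_one, grass_Fil_succ, Finset.coe_empty, Set.image_empty, Submodule.span_empty,
      Submodule.map_bot, Submodule.bot_mul]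
  | insert a s ha ih =>
    rw [Finset.card_insert_of_notMem ha] at hk
    obtain ⟨k, rfl⟩ := Nat.exists_eq_succ_of_ne_zero (Nat.ne_zero_of_lt hk)
    rw [eq_bot_iff]
    have h1 : (Submodule.span A (e '' ((insert a s : Finset I) : Set I))).map (ι A) =
        (Submodule.span A (e '' (s : Set I))).map (ι A) ⊔ Submodule.span A {ι A (e a)} := by
      rw [Finset.coe_insert, Set.image_insert_eq, Submodule.span_insert, Submodule.map_sup,
        Submodule.map_span, Set.image_singleton, sup_comm]
    have h2 := ih (k := k) (by omega)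
    have h3 := ih (k := k + 1) (by omega)
    unfold Fil at h2 h3 ⊢
    rw [h1, Nat.succ_eq_add_one]
    refine (mul_le_mul_left (grass_pow_sup_le _ _ k) _).trans ?_
    rw [Submodule.sup_mul, h3, mul_assoc, h2, Submodule.mul_bot, sup_bot_eq]

/-- Contraction lowers the filtration by at most one. -/
theorem contract_mem_Fil (V : Submodule A M) (d : Module.Dual A M) {t : ExteriorAlgebra A M}
    {k : ℕ} (ht : t ∈ Fil V (k + 1)) :
    CliffordAlgebra.contractLeft (Q := (0 : QuadraticForm A M)) d t ∈ Fil V k := by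
  induction k generalizing t with
  | zero => rw [Fil_zero]; exact Submodule.mem_top
  | succ k ih =>
    have h1 : Fil V (k + 1 + 1) ≤
        (Fil V (k + 1)).comap (CliffordAlgebra.contractLeft (Q := (0 : QuadraticForm A M)) d) := by
      rw [grass_Fil_succ V (k + 1), Submodule.mul_le]
      rintro _ ⟨v, hv, rfl⟩ b hb
      rw [Submodule.mem_comap]
      have h2 := CliffordAlgebra.contractLeft_ι_mul (Q := (0 : QuadraticForm A M)) (d := d) v b
      have h3 : CliffordAlgebra.contractLeft (Q := (0 : QuadraticForm A M)) d (ι A v * b) =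
        d v • b - ι A v * CliffordAlgebra.contractLeft (Q := (0 : QuadraticForm A M)) d b := h2
      rw [h3]
      refine Submodule.sub_mem _ (Submodule.smul_mem _ _ hb) ?_
      rw [grass_Fil_succ]
      exact Submodule.mul_mem_mul (Submodule.mem_map_of_mem hv) (ih hb)
    exact h1 ht

/-- Contraction with a functional which vanishes on `V` preserves the filtration. -/
theorem contract_mem_Fil_of_zero (V : Submodule A M) (d : Module.Dual A M)
    (hd : ∀ v ∈ V, d v = 0) {t : ExteriorAlgebra A M} {k : ℕ} (ht : t ∈ Fil V k) :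
    CliffordAlgebra.contractLeft (Q := (0 : QuadraticForm A M)) d t ∈ Fil V k := by
  induction k generalizing t with
  | zero => rw [Fil_zero]; exact Submodule.mem_top
  | succ k ih =>
    have h1 : Fil V (k + 1) ≤
        (Fil V (k + 1)).comap (CliffordAlgebra.contractLeft (Q := (0 : QuadraticForm A M)) d) := by
      nth_rewrite 1 [grass_Fil_succ V k]
      rw [Submodule.mul_le]
      rintro _ ⟨v, hv, rfl⟩ b hb
      rw [Submodule.mem_comap]
      have h2 := CliffordAlgebra.contractLeft_ι_mul (Q := (0 : QuadraticForm A M)) (d := d) v b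
      have h3 : CliffordAlgebra.contractLeft (Q := (0 : QuadraticForm A M)) d (ι A v * b) =
        d v • b - ι A v * CliffordAlgebra.contractLeft (Q := (0 : QuadraticForm A M)) d b := h2
      rw [h3, hd v hv, zero_smul, zero_sub]
      refine Submodule.neg_mem _ ?_
      rw [grass_Fil_succ]
      exact Submodule.mul_mem_mul (Submodule.mem_map_of_mem hv) (ih hb)
    exact h1 ht

theorem contract_gi (d : Module.Dual A M) (t : ExteriorAlgebra A M) :
    gi (CliffordAlgebra.contractLeft (Q := (0 : QuadraticForm A M)) d t) =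
      - CliffordAlgebra.contractLeft (Q := (0 : QuadraticForm A M)) d (gi t) := by
  induction t using CliffordAlgebra.left_induction with
  | algebraMap r =>
    rw [AlgHom.commutes, CliffordAlgebra.contractLeft_algebraMap, map_zero, neg_zero]
  | add x y hx hy => simp only [map_add, hx, hy, neg_add]
  | ι_mul x m hx =>
    rw [CliffordAlgebra.contractLeft_ι_mul, map_sub, map_smul, map_mul, hx, map_mul,
      CliffordAlgebra.involute_ι, neg_mul_neg, neg_mul, map_neg, neg_neg,
      CliffordAlgebra.contractLeft_ι_mul]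

/-- The contraction is an antiderivation. -/
theorem contract_mul (d : Module.Dual A M) (s t : ExteriorAlgebra A M) :
    CliffordAlgebra.contractLeft (Q := (0 : QuadraticForm A M)) d (s * t) =
      CliffordAlgebra.contractLeft (Q := (0 : QuadraticForm A M)) d s * t +
      gi s * CliffordAlgebra.contractLeft (Q := (0 : QuadraticForm A M)) d t := by
  induction s using CliffordAlgebra.left_induction with
  | algebraMap r =>
    have h1 : gi (algebraMap A (ExteriorAlgebra A M) r) = algebraMap A (ExteriorAlgebra A M) r :=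
      AlgHom.commutes _ r
    have h2 := CliffordAlgebra.contractLeft_algebraMap (Q := (0 : QuadraticForm A M)) (d := d) r
    have h3 := CliffordAlgebra.contractLeft_algebraMap_mul (Q := (0 : QuadraticForm A M))
      (d := d) r t
    rw [h2, h3, zero_mul, zero_add]
    exact congrArg (· * CliffordAlgebra.contractLeft (Q := (0 : QuadraticForm A M)) d t) h1.symm
  | add x y hx hy => simp only [map_add, add_mul, hx, hy]; abel
  | ι_mul x m hx =>
    rw [mul_assoc, CliffordAlgebra.contractLeft_ι_mul, hx, CliffordAlgebra.contractLeft_ι_mul,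
      map_mul, CliffordAlgebra.involute_ι, sub_mul, smul_mul_assoc, mul_add, neg_mul, neg_mul,
      mul_assoc, mul_assoc]
    abel

end Pool.Agent.CatP.Odd
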