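import Pool.Agent.CatP.Odd.Grass

/-! Products of vectors all of whose minors vanish. -/

namespace Pool.Agent.CatP.Odd

open ExteriorAlgebra

variable {A : Type*} [CommRing A]

theorem ιMulti_eq_zero_of_minors {I : Type*} [Fintype I] {m : ℕ} (v : Fin m → (I → A))
    (h : ∀ r : Fin m → I, (Matrix.of fun a b => v b (r a)).det = 0) :
    ExteriorAlgebra.ιMulti A m v = 0 := by
  classical
  let _ : LinearOrder I := LinearOrder.lift' (Fintype.equivFin I) (Equiv.injective _)
  have h1 : exteriorPower.ιMulti A m v = 0 := by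
    refine ((Pi.basisFun A I).exteriorPower m).ext_elem fun s => ?_
    rw [exteriorPower.basis_repr_apply, exteriorPower.ιMultiDual_apply_ιMulti, map_zero,
      Finsupp.zero_apply, ← Matrix.det_transpose]
    exact h _
  have h2 := congrArg Subtype.val h1
  rwa [exteriorPower.ιMulti_apply_coe] at h2

/-- If all `m x m` minors of vectors of `V` vanish, then `Fil V m = ⊥`. -/
theorem Fil_eq_bot_of_minors {I : Type*} [Fintype I] [DecidableEq I] (V : Submodule A (I → A))
    (m : ℕ) (h : ∀ v : Fin m → (I → A), (∀ l, v l ∈ V) → ∀ r : Fin m → I,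
      (Matrix.of fun a b => v b (r a)).det = 0) : Fil V m = ⊥ := by
  have h1 : (V.map (ι A)) ^ m = ⊥ := by
    rw [Submodule.pow_eq_span_pow_set, Submodule.span_eq_bot]
    intro x hx
    obtain ⟨f, rfl⟩ := Set.mem_pow.1 hx
    have h2 : ∀ i, ∃ w ∈ V, ι A w = (f i : ExteriorAlgebra A (I → A)) :=
      fun i => Submodule.mem_map.1 (f i).2
    choose w hw1 hw2 using h2
    have h3 := ιMulti_eq_zero_of_minors w (h w hw1)
    rw [ExteriorAlgebra.ιMulti_apply] at h3
    rw [← h3]
    congr 2
    funext i
    exact (hw2 i).symm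
  unfold Fil
  rw [h1, Submodule.bot_mul]

end Pool.Agent.CatP.Odd
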