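import Pool.Agent.CatP.Odd.Defs
import Pool.Agent.CatP.Odd.Grass

/-! The exterior algebra and the operators which define the point outside the ideal. -/

namespace Pool.Agent.CatP.Odd

open MvPolynomial Pool.Agent.H91.Cat

/-- The exterior algebra with generators for the cells and for the families. -/
abbrev EE (k : Type*) [Field k] (q : ℕ) := ExteriorAlgebra k (Cell q ⊕ Fam q → k)

variable {k : Type*} [Field k] {q : ℕ}

/-- The basis vector of a cell or of a family. -/
noncomputable def bv (i : Cell q ⊕ Fam q) : Cell q ⊕ Fam q → k := Pi.single i 1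

/-- The generator of a cell. -/
noncomputable def tt (k : Type*) [Field k] (c : Cell q) : EE k q := ExteriorAlgebra.ι k (bv (Sum.inl c))

/-- The generator of a family. -/
noncomputable def yy (k : Type*) [Field k] (f : Fam q) : EE k q := ExteriorAlgebra.ι k (bv (Sum.inr f))

/-- The derivative with respect to the generator of a family. -/
noncomputable def dy (k : Type*) [Field k] (f : Fam q) : EE k q →ₗ[k] EE k q :=
  CliffordAlgebra.contractLeft (Q := (0 : QuadraticForm k (Cell q ⊕ Fam q → k)))
    (LinearMap.proj (Sum.inr f))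

/-- The operator of a cell. -/
noncomputable def op (k : Type*) [Field k] (c : Cell q) : EE k q →ₗ[k] EE k q :=
  if fam c = Sum.inr 0 then LinearMap.mulLeft k (tt k c * yy k (Sum.inr 0))
  else LinearMap.mulLeft k (tt k c) ∘ₗ dy k (fam c)

/-- The product of the generators of all families except `inr 0`. -/
noncomputable def vol (k : Type*) [Field k] (q : ℕ) : EE k q :=
  yy k (Sum.inr 1) * yy k (Sum.inr 2) * (List.ofFn fun a : Fin (q + 1) => yy k (Sum.inl a)).prod

theorem dy_tt (f : Fam q) (c : Cell q) (t : EE k q) :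
    dy k f (tt k c * t) = - (tt k c * dy k f t) := by
  unfold dy tt
  rw [show (ExteriorAlgebra.ι k (bv (Sum.inl c)) : EE k q) =
    CliffordAlgebra.ι (0 : QuadraticForm k (Cell q ⊕ Fam q → k)) (bv (Sum.inl c)) from rfl,
    CliffordAlgebra.contractLeft_ι_mul]
  simp [bv]

theorem dy_yy {f g : Fam q} (hfg : f ≠ g) (t : EE k q) :
    dy k f (yy k g * t) = - (yy k g * dy k f t) := by
  unfold dy yy
  rw [show (ExteriorAlgebra.ι k (bv (Sum.inr g)) : EE k q) =
    CliffordAlgebra.ι (0 : QuadraticForm k (Cell q ⊕ Fam q → k)) (bv (Sum.inr g)) from rfl,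
    CliffordAlgebra.contractLeft_ι_mul]
  simp [bv, hfg]

theorem dy_dy (f g : Fam q) (t : EE k q) : dy k f (dy k g t) = - dy k g (dy k f t) :=
  CliffordAlgebra.contractLeft_comm _ _ _

theorem tt_tt (c c' : Cell q) : tt k c * tt k c' = - (tt k c' * tt k c) := by
  unfold tt
  rw [ι_mul_eq, gi_ι, neg_mul]

theorem gi_tt (c : Cell q) : gi (tt k c) = - tt k c := gi_ι _

theorem gi_yy (f : Fam q) : gi (yy k f) = - yy k f := gi_ι _

theorem gi_ty (c : Cell q) (f : Fam q) : gi (tt k c * yy k f) = tt k c * yy k f := by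
  rw [map_mul, gi_tt, gi_yy, neg_mul_neg]

theorem op_zero {c : Cell q} (h : fam c = Sum.inr 0) (t : EE k q) :
    op k c t = tt k c * yy k (Sum.inr 0) * t := by
  unfold op
  rw [if_pos h]
  rfl

theorem op_other {c : Cell q} (h : fam c ≠ Sum.inr 0) (t : EE k q) :
    op k c t = tt k c * dy k (fam c) t := by
  unfold op
  rw [if_neg h]
  rfl

theorem op_comm_aux (c c' : Cell q) (h : fam c = Sum.inr 0) (h' : fam c' ≠ Sum.inr 0)
    (t : EE k q) : op k c (op k c' t) = op k c' (op k c t) := by
  rw [op_zero h, op_other h', op_zero h, op_other h', mul_assoc (tt k c) _ t, dy_tt, dy_yy h',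
    mul_neg (tt k c) _, neg_neg, ← mul_assoc (tt k c) _ (dy k (fam c') t),
    ← mul_assoc (tt k c') _ (dy k (fam c') t), ← mul_assoc _ (tt k c') (dy k (fam c') t),
    comm_of_gi (tt k c * yy k (Sum.inr 0)) (gi_ty _ _) (tt k c')]

theorem op_comm (c c' : Cell q) (t : EE k q) : op k c (op k c' t) = op k c' (op k c t) := by
  by_cases h : fam c = Sum.inr 0
  · by_cases h' : fam c' = Sum.inr 0
    · rw [op_zero h, op_zero h', op_zero h', op_zero h, ← mul_assoc (tt k c * yy k (Sum.inr 0)),
        ← mul_assoc (tt k c' * yy k (Sum.inr 0)),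
        comm_of_gi (tt k c * yy k (Sum.inr 0)) (gi_ty _ _) (tt k c' * yy k (Sum.inr 0))]
    · exact op_comm_aux c c' h h' t
  · by_cases h' : fam c' = Sum.inr 0
    · exact (op_comm_aux c' c h' h t).symm
    · rw [op_other h, op_other h', op_other h', op_other h, dy_tt, dy_tt, mul_neg, mul_neg,
        ← mul_assoc, ← mul_assoc, tt_tt c' c, dy_dy (fam c') (fam c), neg_mul_neg]

theorem op_gi (c : Cell q) (t : EE k q) : gi (op k c t) = op k c (gi t) := by
  by_cases h : fam c = Sum.inr 0
  · rw [op_zero h, op_zero h, map_mul, gi_ty]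
  · rw [op_other h, op_other h, map_mul, gi_tt, dy, contract_gi, neg_mul_neg]

theorem gi_prod_odd (l : List (EE k q)) (hl : ∀ a ∈ l, gi a = - a) :
    gi l.prod = (-1 : k) ^ l.length • l.prod := by
  induction l with
  | nil => simp
  | cons a l ih =>
    rw [List.prod_cons, map_mul, hl a List.mem_cons_self,
      ih fun x hx => hl x (List.mem_cons_of_mem _ hx), List.length_cons, pow_succ, mul_smul_comm,
      neg_mul, mul_neg_one, smul_neg, neg_smul]

theorem vol_gi (hq : Odd q) : gi (vol k q) = vol k q := by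
  unfold vol
  rw [map_mul, map_mul, gi_yy, gi_yy, neg_mul_neg, gi_prod_odd]
  · rw [List.length_ofFn, (hq.add_odd odd_one).neg_one_pow, one_smul]
  · intro a ha
    rw [List.mem_ofFn] at ha
    obtain ⟨i, rfl⟩ := ha
    exact gi_yy _

theorem fam_ne_zero {c : Cell q} (hc : c ≠ (0, 0)) : fam c ≠ Sum.inr 0 := by
  obtain ⟨b, j⟩ := c
  induction b using Fin.cases with
  | zero =>
    induction j using Fin.cases with
    | zero => exact absurd rfl hc
    | succ j => rw [fam_zero_succ]; exact fun h => by cases h
  | succ a =>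
    induction j using Fin.cases with
    | zero => rw [fam_succ_zero]; exact fun h => by simp at h
    | succ j =>
      induction j using Fin.cases with
      | zero => rw [fam_succ_one]; exact fun h => by simp at h
      | succ j => rw [fam_succ_succ]; exact fun h => by cases h

/-- Away from the cell `(0, 0)` the operators are derivations of the even part. -/
theorem op_mul (c : Cell q) (hc : c ≠ (0, 0)) (s t : EE k q) (hs : gi s = s) :
    op k c (s * t) = op k c s * t + s * op k c t := by
  have h := fam_ne_zero hc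
  rw [op_other h, op_other h, op_other h, dy, contract_mul, hs, mul_add, ← mul_assoc,
    ← mul_assoc, ← mul_assoc, comm_of_gi s hs (tt k c)]

/-- The linear map to the exterior algebra given by a commuting family of operators. -/
theorem exists_zL (k : Type*) [Field k] (q : ℕ) :
    ∃ zL : MvPolynomial (Fin ((q + 2) * (q + 2))) k →ₗ[k] EE k q, zL 1 = vol k q ∧
      ∀ i b, zL (X i * b) = op k (finProdFinEquiv.symm i) (zL b) := by
  classical
  let T : Set (Module.End k (EE k q)) :=
    Set.range fun i : Fin ((q + 2) * (q + 2)) => op k (finProdFinEquiv.symm i)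
  have hT : ∀ a ∈ T, ∀ b ∈ T, a * b = b * a := by
    rintro _ ⟨i, rfl⟩ _ ⟨j, rfl⟩
    exact LinearMap.ext fun t => op_comm _ _ t
  have hI := Algebra.isMulCommutative_adjoin k hT
  let hCR : CommRing (Algebra.adjoin k T) :=
    { (inferInstance : Ring (Algebra.adjoin k T)) with
      mul_comm := fun a b => hI.is_comm.comm a b }
  let F : MvPolynomial (Fin ((q + 2) * (q + 2))) k →ₐ[k] Algebra.adjoin k T :=
    MvPolynomial.aeval fun i => ⟨op k (finProdFinEquiv.symm i), Algebra.subset_adjoin ⟨i, rfl⟩⟩
  refine ⟨(LinearMap.applyₗ (vol k q)) ∘ₗ (Algebra.adjoin k T).val.toLinearMap ∘ₗ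
    F.toLinearMap, ?_, ?_⟩
  · have h1 : F 1 = 1 := map_one F
    show ((F 1 : Algebra.adjoin k T) : Module.End k (EE k q)) (vol k q) = vol k q
    rw [h1]
    rfl
  · intro i b
    show ((F (X i * b) : Algebra.adjoin k T) : Module.End k (EE k q)) (vol k q) =
      op k (finProdFinEquiv.symm i) (((F b : Algebra.adjoin k T) : Module.End k (EE k q))
        (vol k q))
    have h1 : F (X i * b) = F (X i) * F b := map_mul F _ _
    have h2 : F (X i) = ⟨op k (finProdFinEquiv.symm i), Algebra.subset_adjoin ⟨i, rfl⟩⟩ :=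
      MvPolynomial.aeval_X _ _
    rw [h1, h2]
    rfl

/-- The linear map to the exterior algebra. -/
noncomputable def zL (k : Type*) [Field k] (q : ℕ) :
    MvPolynomial (Fin ((q + 2) * (q + 2))) k →ₗ[k] EE k q := (exists_zL k q).choose

theorem zL_one : zL k q 1 = vol k q := (exists_zL k q).choose_spec.1

theorem zL_X_mul (i : Fin ((q + 2) * (q + 2))) (b : MvPolynomial (Fin ((q + 2) * (q + 2))) k) :
    zL k q (X i * b) = op k (finProdFinEquiv.symm i) (zL k q b) :=
  (exists_zL k q).choose_spec.2 i b

theorem gi_zL (hq : Odd q) (b : MvPolynomial (Fin ((q + 2) * (q + 2))) k) :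
    gi (zL k q b) = zL k q b := by
  induction b using MvPolynomial.induction_on with
  | C a =>
    have h1 : (C a : MvPolynomial (Fin ((q + 2) * (q + 2))) k) = a • 1 := by
      rw [MvPolynomial.smul_eq_C_mul, mul_one]
    rw [h1, map_smul, zL_one, map_smul, vol_gi hq]
  | add x y hx hy => rw [map_add, map_add, hx, hy]
  | mul_X x i hx =>
    have h1 : x * X i = X i * x := mul_comm _ _
    rw [h1, zL_X_mul, op_gi, hx]

/-- The even part of the exterior algebra. -/
noncomputable def Ev (k : Type*) [Field k] (q : ℕ) : Subalgebra k (EE k q) :=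
  AlgHom.equalizer (gi (A := k) (M := Cell q ⊕ Fam q → k)) (AlgHom.id k _)

theorem mem_Ev (t : EE k q) : t ∈ Ev k q ↔ gi t = t := Iff.rfl

noncomputable instance (k : Type*) [Field k] (q : ℕ) : CommRing (Ev k q) :=
  { (inferInstance : Ring (Ev k q)) with
    mul_comm := fun a b => Subtype.ext (comm_of_gi a.1 a.2 b.1) }

/-- The point of the catalecticant variety with values in the even part. -/
noncomputable def ptE (hq : Odd q) : MvPolynomial (Expo ((q + 2) * (q + 2)) (q + 2)) k →+* Ev k q :=
  MvPolynomial.eval₂Hom (algebraMap k (Ev k q))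
    (fun γ => ⟨zL k q (monomial (ofExpo γ) 1), gi_zL hq _⟩)

end Pool.Agent.CatP.Odd
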