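import Pool.Agent.CatP.Odd.Defs
import Pool.Agent.CatP.Odd.Grass
import Pool.Agent.CatP.Odd.GrassM

/-! The tensor product of an exterior algebra and the commutative algebra `B`, odd letters, and the
extension of the functional. -/

namespace Pool.Agent.CatP.Odd

open ExteriorAlgebra TensorProduct

variable (A B : Type*) [CommRing A] [CommRing B] [Algebra A B] (I : Type*) [Fintype I]
  [DecidableEq I]

/-- The exterior algebra on the free module with basis `I`. -/
abbrev LL := ExteriorAlgebra A (I → A)

/-- The exterior algebra with coefficients in `B`. -/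
abbrev TT := LL A I ⊗[A] B

variable {A B I}

/-- The basis vector of degree one. -/
noncomputable def th (i : I) : LL A I := ι A (Pi.single i 1)

/-- The extension of the functional `Z`. -/
noncomputable def ZL (Z : B →ₗ[A] A) : TT A B I →ₗ[A] LL A I :=
  (TensorProduct.rid A (LL A I)).toLinearMap ∘ₗ (LinearMap.lTensor (LL A I) Z)

theorem ZL_tmul (Z : B →ₗ[A] A) (t : LL A I) (b : B) :
    ZL Z (t ⊗ₜ[A] b) = Z b • t := by
  simp [ZL]

/-- The odd letter attached to the cells in `s`. -/
noncomputable def xi (w : I → B) (s : Finset I) : TT A B I :=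
  ∑ i ∈ s, (th i : LL A I) ⊗ₜ[A] w i

/-- The span of the elements of degree one. -/
noncomputable def T1 (A B I : Type*) [CommRing A] [CommRing B] [Algebra A B] [Fintype I]
    [DecidableEq I] : Submodule A (TT A B I) :=
  Submodule.span A {t | ∃ (v : I → A) (b : B), t = ι A v ⊗ₜ[A] b}

theorem xi_mem_T1 (w : I → B) (s : Finset I) : xi w s ∈ T1 A B I := by
  refine Submodule.sum_mem _ fun i _ => Submodule.subset_span ⟨Pi.single i 1, w i, rfl⟩

theorem tens_ι_anticomm (v w : I → A) :
    (ι A v * ι A w : LL A I) = - (ι A w * ι A v) := by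
  rw [ι_mul_eq, gi_ι, neg_mul]

theorem T1_anticomm {a b : TT A B I} (ha : a ∈ T1 A B I) (hb : b ∈ T1 A B I) :
    a * b = - (b * a) := by
  induction ha using Submodule.span_induction with
  | mem x hx =>
    obtain ⟨v, b1, rfl⟩ := hx
    induction hb using Submodule.span_induction with
    | mem y hy =>
      obtain ⟨w, b2, rfl⟩ := hy
      rw [Algebra.TensorProduct.tmul_mul_tmul, Algebra.TensorProduct.tmul_mul_tmul,
        tens_ι_anticomm, TensorProduct.neg_tmul, mul_comm b1 b2]
    | zero => rw [mul_zero, zero_mul, neg_zero]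
    | add y z _ _ h1 h2 => rw [mul_add, add_mul, h1, h2, neg_add]
    | smul c y _ h => rw [mul_smul_comm, smul_mul_assoc, h, smul_neg]
  | zero => rw [mul_zero, zero_mul, neg_zero]
  | add y z _ _ h1 h2 => rw [mul_add, add_mul, h1, h2, neg_add]
  | smul c y _ h => rw [mul_smul_comm, smul_mul_assoc, h, smul_neg]

theorem T1_sq {a : TT A B I} (ha : a ∈ T1 A B I) : a * a = 0 := by
  induction ha using Submodule.span_induction with
  | mem x hx =>
    obtain ⟨v, b1, rfl⟩ := hx
    rw [Algebra.TensorProduct.tmul_mul_tmul, ι_sq_zero, TensorProduct.zero_tmul]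
  | zero => rw [mul_zero]
  | add y z hy hz h1 h2 =>
    rw [mul_add, add_mul, add_mul, h1, h2, T1_anticomm hy hz]
    abel
  | smul c y _ h => rw [mul_smul_comm, smul_mul_assoc, h, smul_zero, smul_zero]

/-- The grading involution of the tensor product. -/
noncomputable def tensG : TT A B I →ₐ[A] TT A B I :=
  Algebra.TensorProduct.map gi (AlgHom.id A B)

theorem tensG_tmul (t : LL A I) (b : B) :
    tensG (t ⊗ₜ[A] b : TT A B I) = gi t ⊗ₜ[A] b := by
  simp [tensG]

theorem tensG_T1 {a : TT A B I} (ha : a ∈ T1 A B I) : tensG a = - a := by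
  induction ha using Submodule.span_induction with
  | mem x hx =>
    obtain ⟨v, b1, rfl⟩ := hx
    rw [tensG_tmul, gi_ι, TensorProduct.neg_tmul]
  | zero => rw [map_zero, neg_zero]
  | add y z _ _ h1 h2 => rw [map_add, h1, h2, neg_add]
  | smul c y _ h => rw [map_smul, h, smul_neg]

theorem ZL_tensG (Z : B →ₗ[A] A) (t : TT A B I) : ZL Z (tensG t) = gi (ZL Z t) := by
  induction t using TensorProduct.induction_on with
  | zero => simp
  | tmul s b => rw [tensG_tmul, ZL_tmul, ZL_tmul, map_smul]
  | add x y h1 h2 => rw [map_add, map_add, h1, h2, map_add, map_add]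

/-- The product of two elements of degree one is central. -/
theorem T1_mul_central {a b : TT A B I} (ha : a ∈ T1 A B I) (hb : b ∈ T1 A B I)
    (t : TT A B I) : a * b * t = t * (a * b) := by
  induction ha using Submodule.span_induction with
  | mem x hx =>
    obtain ⟨v, b1, rfl⟩ := hx
    induction hb using Submodule.span_induction with
    | mem y hy =>
      obtain ⟨w, b2, rfl⟩ := hy
      rw [Algebra.TensorProduct.tmul_mul_tmul]
      induction t using TensorProduct.induction_on with
      | zero => rw [mul_zero, zero_mul]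
      | tmul s c =>
        rw [Algebra.TensorProduct.tmul_mul_tmul, Algebra.TensorProduct.tmul_mul_tmul,
          mul_comm c, comm_of_gi (ι A v * ι A w)]
        rw [map_mul, gi_ι, gi_ι, neg_mul_neg]
      | add x y h1 h2 => rw [mul_add, add_mul, h1, h2]
    | zero => simp
    | add y z _ _ h1 h2 => rw [mul_add, add_mul, mul_add, h1, h2]
    | smul c y _ h => rw [mul_smul_comm, smul_mul_assoc, mul_smul_comm, h]
  | zero => simp
  | add y z _ _ h1 h2 => rw [add_mul, add_mul, mul_add, h1, h2]
  | smul c y _ h => rw [smul_mul_assoc, smul_mul_assoc, mul_smul_comm, h]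

theorem one_tmul_central (b : B) (t : TT A B I) :
    ((1 : LL A I) ⊗ₜ[A] b) * t = t * ((1 : LL A I) ⊗ₜ[A] b) := by
  induction t using TensorProduct.induction_on with
  | zero => rw [mul_zero, zero_mul]
  | tmul s c =>
    rw [Algebra.TensorProduct.tmul_mul_tmul, Algebra.TensorProduct.tmul_mul_tmul, mul_comm c,
      one_mul, mul_one]
  | add x y h1 h2 => rw [mul_add, add_mul, h1, h2]

/-- Left multiplication by elements of the exterior algebra. -/
theorem ZL_left_mul (Z : B →ₗ[A] A) (s : LL A I) (t : TT A B I) :
    ZL Z ((s ⊗ₜ[A] (1 : B)) * t) = s * ZL Z t := by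
  induction t using TensorProduct.induction_on with
  | zero => simp
  | tmul u c =>
    rw [Algebra.TensorProduct.tmul_mul_tmul, one_mul, ZL_tmul, ZL_tmul, mul_smul_comm]
  | add x y h1 h2 => rw [mul_add, map_add, map_add, mul_add, h1, h2]

/-- If `t` is central of even degree, its value is central. Here: `t` is a product of `1 ⊗ b` and
of an even number of elements of degree one. -/
theorem ZL_even_central (Z : B →ₗ[A] A) (b : B) (l : List (TT A B I)) (hl : ∀ a ∈ l, a ∈ T1 A B I)
    (hev : Even l.length) (s : LL A I) :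
    ZL Z (((1 : LL A I) ⊗ₜ[A] b) * l.prod) * s = s * ZL Z (((1 : LL A I) ⊗ₜ[A] b) * l.prod) := by
  refine comm_of_gi _ ?_ s
  rw [← ZL_tensG, map_mul, tensG_tmul, map_one]
  congr 2
  have key : ∀ l : List (TT A B I), (∀ a ∈ l, a ∈ T1 A B I) →
      tensG l.prod = (-1 : A) ^ l.length • l.prod := by
    intro l
    induction l with
    | nil => intro _; simp
    | cons a l ih =>
      intro hl
      rw [List.prod_cons, map_mul, tensG_T1 (hl a List.mem_cons_self),
        ih fun x hx => hl x (List.mem_cons_of_mem _ hx), List.length_cons, pow_succ, mul_smul_comm,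
        neg_mul, mul_neg_one, smul_neg, neg_smul]
  rw [key l hl, hev.neg_one_pow, one_smul]

/-- Values of products containing the letter `xi w s` are in the filtration. -/
theorem ZL_xi_mem_Fil (Z : B →ₗ[A] A) (w : I → B) (s : Finset I) (t t' : TT A B I) :
    ZL Z (t * xi w s * t') ∈
      Fil (Submodule.span A ((fun i : I => (Pi.single i 1 : I → A)) '' s)) 1 := by
  have h0 : ∀ i ∈ s, (th i : LL A I) ∈
      Fil (Submodule.span A ((fun i : I => (Pi.single i 1 : I → A)) '' s)) 1 := fun i hi =>
    ι_mem_Fil _ (Submodule.subset_span ⟨i, hi, rfl⟩)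
  induction t using TensorProduct.induction_on with
  | zero => simp
  | tmul u b =>
    induction t' using TensorProduct.induction_on with
    | zero => simp
    | tmul u' b' =>
      rw [xi, Finset.mul_sum, Finset.sum_mul, map_sum]
      refine Submodule.sum_mem _ fun i hi => ?_
      rw [Algebra.TensorProduct.tmul_mul_tmul, Algebra.TensorProduct.tmul_mul_tmul, ZL_tmul]
      exact Submodule.smul_mem _ _ (mul_right_mem_Fil _ _ (mul_left_mem_Fil _ _ (h0 i hi)))
    | add x y h1 h2 => rw [mul_add, map_add]; exact Submodule.add_mem _ h1 h2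
  | add x y h1 h2 => rw [add_mul, add_mul, map_add]; exact Submodule.add_mem _ h1 h2

/-- The vectors of values of the letters in `s`. -/
noncomputable def Vsub (Z : B →ₗ[A] A) (w : I → B) (s : Finset I) : Submodule A (I → A) :=
  LinearMap.range (LinearMap.pi fun i => if i ∈ s then Z ∘ₗ LinearMap.mulLeft A (w i) else 0)

theorem ZL_xi_mem_Vsub (Z : B →ₗ[A] A) (w : I → B) (s : Finset I) (t : TT A B I) :
    ZL Z (xi w s * t) ∈ Fil (Vsub Z w s) 1 := by
  induction t using TensorProduct.induction_on with
  | zero => simp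
  | tmul u c =>
    have h1 : ZL Z (xi w s * (u ⊗ₜ[A] c)) =
        ι A ((LinearMap.pi fun i => if i ∈ s then Z ∘ₗ LinearMap.mulLeft A (w i) else 0) c) *
          u := by
      have h2 : ((LinearMap.pi fun i => if i ∈ s then Z ∘ₗ LinearMap.mulLeft A (w i) else 0) c :
          I → A) = ∑ i ∈ s, Z (w i * c) • Pi.single i 1 := by
        funext j
        rw [LinearMap.pi_apply, Finset.sum_apply]
        simp only [Pi.smul_apply, smul_eq_mul]
        by_cases hj : j ∈ s
        · rw [if_pos hj, Finset.sum_eq_single j]
          · simp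
          · intro i _ hij
            rw [Pi.single_eq_of_ne (Ne.symm hij), mul_zero]
          · intro h; exact absurd hj h
        · rw [if_neg hj, Finset.sum_eq_zero]
          · simp
          · intro i hi
            have hij : j ≠ i := fun h => hj (h ▸ hi)
            rw [Pi.single_eq_of_ne hij, mul_zero]
      rw [h2, map_sum, Finset.sum_mul, xi, Finset.sum_mul, map_sum]
      refine Finset.sum_congr rfl fun i _ => ?_
      rw [Algebra.TensorProduct.tmul_mul_tmul, ZL_tmul, map_smul, smul_mul_assoc]
      rfl
    rw [h1]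
    exact mul_right_mem_Fil _ _ (ι_mem_Fil _ ⟨c, rfl⟩)
  | add x y h1 h2 => rw [mul_add, map_add]; exact Submodule.add_mem _ h1 h2

theorem Fil_Vsub (L : Submodule A B) (Z : B →ₗ[A] A) (m : ℕ) (H : H1 L Z m) (w : I → B)
    (s : Finset I) (hw : ∀ i ∈ s, w i ∈ L) : Fil (Vsub Z w s) m = ⊥ := by
  refine Fil_eq_bot_of_minors _ m fun v hv r => ?_
  choose c hc using hv
  have h1 := H (fun a => if r a ∈ s then w (r a) else 0) c (by
    intro a
    by_cases ha : r a ∈ s
    · simp only [if_pos ha]; exact hw _ ha
    · simp only [if_neg ha]; exact L.zero_mem)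
  rw [← h1]
  congr 1
  ext a b
  rw [Matrix.of_apply, Matrix.of_apply, ← hc b, LinearMap.pi_apply]
  by_cases ha : r a ∈ s
  · simp only [if_pos ha]; rfl
  · simp only [if_neg ha]; simp

end Pool.Agent.CatP.Odd
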