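import Pool.Agent.CatP.Odd.Arr

/-! The main identity: the three-term relations. -/

namespace Pool.Agent.CatP.Odd

open ExteriorAlgebra TensorProduct

/-! ### Families and cells -/

theorem tmz_fam_inj {q : ℕ} (b j j' : Fin (q + 2)) (h : fam (b, j) = fam (b, j')) : j = j' := by
  induction b using Fin.cases with
  | zero =>
    induction j using Fin.cases with
    | zero =>
      induction j' using Fin.cases with
      | zero => rfl
      | succ j' => rw [fam_zero_zero, fam_zero_succ] at h; cases h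
    | succ j =>
      induction j' using Fin.cases with
      | zero => rw [fam_zero_zero, fam_zero_succ] at h; cases h
      | succ j' =>
        rw [fam_zero_succ, fam_zero_succ] at h
        rw [Sum.inl.inj h]
  | succ a =>
    induction j using Fin.cases with
    | zero =>
      induction j' using Fin.cases with
      | zero => rfl
      | succ j' =>
        induction j' using Fin.cases with
        | zero => rw [fam_succ_zero, fam_succ_one] at h; simp at h
        | succ j' => rw [fam_succ_zero, fam_succ_succ] at h; cases h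
    | succ j =>
      induction j using Fin.cases with
      | zero =>
        induction j' using Fin.cases with
        | zero => rw [fam_succ_zero, fam_succ_one] at h; simp at h
        | succ j' =>
          induction j' using Fin.cases with
          | zero => rfl
          | succ j' => rw [fam_succ_one, fam_succ_succ] at h; cases h
      | succ j =>
        induction j' using Fin.cases with
        | zero => rw [fam_succ_zero, fam_succ_succ] at h; cases h
        | succ j' =>
          induction j' using Fin.cases with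
          | zero => rw [fam_succ_one, fam_succ_succ] at h; cases h
          | succ j' =>
            rw [fam_succ_succ, fam_succ_succ] at h
            rw [Fin.succAbove_right_injective (Sum.inl.inj h)]

theorem tmz_card_le {q : ℕ} (f : Fam q) (b₀ : Fin (q + 2)) (h : ∀ j, fam (b₀, j) ≠ f) :
    (famSet f).card ≤ q + 1 := by
  have h1 : (famSet f).card ≤ (Finset.univ.erase b₀).card := by
    refine Finset.card_le_card_of_injOn Prod.fst ?_ ?_
    · intro c hc
      rw [Finset.mem_coe, famSet, Finset.mem_filter] at hc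
      rw [Finset.mem_coe, Finset.mem_erase]
      refine ⟨fun hb => h c.2 ?_, Finset.mem_univ _⟩
      rw [← hb]
      exact hc.2
    · rintro ⟨b, j⟩ hc ⟨b', j'⟩ hc' hbb
      rw [Finset.mem_coe, famSet, Finset.mem_filter] at hc hc'
      simp only at hbb
      subst hbb
      rw [tmz_fam_inj b j j' (hc.2.trans hc'.2.symm)]
  refine h1.trans ?_
  rw [Finset.card_erase_of_mem (Finset.mem_univ _), Finset.card_univ, Fintype.card_fin]
  exact le_rfl

theorem tmz_card_inr1 {q : ℕ} : (famSet (Sum.inr 1 : Fam q)).card ≤ q + 1 := by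
  refine tmz_card_le _ 0 fun j => ?_
  induction j using Fin.cases with
  | zero => rw [fam_zero_zero]; simp
  | succ j => rw [fam_zero_succ]; simp

theorem tmz_card_inr2 {q : ℕ} : (famSet (Sum.inr 2 : Fam q)).card ≤ q + 1 := by
  refine tmz_card_le _ 0 fun j => ?_
  induction j using Fin.cases with
  | zero => rw [fam_zero_zero]; simp
  | succ j => rw [fam_zero_succ]; simp

theorem tmz_card_inl {q : ℕ} (a : Fin (q + 1)) : (famSet (Sum.inl a : Fam q)).card ≤ q + 1 := by
  refine tmz_card_le _ a.succ fun j => ?_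
  induction j using Fin.cases with
  | zero => rw [fam_succ_zero]; simp
  | succ j =>
    induction j using Fin.cases with
    | zero => rw [fam_succ_one]; simp
    | succ j =>
      rw [fam_succ_succ]
      intro h
      exact Fin.succAbove_ne a j (Sum.inl.inj h)

theorem tmz_card_one {q : ℕ} (a₀ : Fin (q + 1)) :
    ((famSet (Sum.inr 1 : Fam q)).erase (a₀.succ, 0)).card ≤ q := by
  have h1 : ((a₀.succ, 0) : Cell q) ∈ famSet (Sum.inr 1 : Fam q) := by
    rw [famSet, Finset.mem_filter]
    exact ⟨Finset.mem_univ _, fam_succ_zero a₀⟩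
  rw [Finset.card_erase_of_mem h1]
  have := tmz_card_inr1 (q := q)
  omega

theorem tmz_disj {q : ℕ} {f f' : Fam q} (h : f ≠ f') : Disjoint (famSet f) (famSet f') := by
  rw [Finset.disjoint_left]
  intro c hc hc'
  rw [famSet, Finset.mem_filter] at hc hc'
  exact h (hc.2.symm.trans hc'.2)

section

variable {A B : Type*} [CommRing A] [CommRing B] [Algebra A B] {q : ℕ}

theorem tmz_xi_union {I : Type*} [Fintype I] [DecidableEq I] (w : I → B) {s t : Finset I}
    (h : Disjoint s t) : (xi w (s ∪ t) : TT A B I) = xi w s + xi w t := by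
  unfold xi
  rw [Finset.sum_union h]

/-! ### Products of odd letters -/

variable {I : Type*} [Fintype I] [DecidableEq I]

theorem tmz_prod_central (l : List (TT A B I)) (hl : ∀ a ∈ l, a ∈ T1 A B I)
    (hev : Even l.length) (t : TT A B I) : l.prod * t = t * l.prod := by
  have main : ∀ n : ℕ, ∀ l : List (TT A B I), l.length = 2 * n → (∀ a ∈ l, a ∈ T1 A B I) →
      l.prod * t = t * l.prod := by
    intro n
    induction n with
    | zero =>
      intro l hl _
      have : l = [] := List.length_eq_zero_iff.1 (by omega)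
      subst this
      simp
    | succ n ih =>
      intro l hl hm
      match l, hl, hm with
      | [], hl, _ => simp at hl
      | [a], hl, _ => simp at hl; omega
      | a :: b :: l', hl, hm =>
        have h1 := ih l' (by simp at hl; omega) fun c hc => hm c (by simp [hc])
        have ha := hm a (by simp)
        have hb := hm b (by simp)
        simp only [List.prod_cons]
        calc a * (b * l'.prod) * t = a * b * (l'.prod * t) := by noncomm_ring
          _ = a * b * (t * l'.prod) := by rw [h1]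
          _ = (a * b * t) * l'.prod := by noncomm_ring
          _ = (t * (a * b)) * l'.prod := by rw [T1_mul_central ha hb]
          _ = t * (a * (b * l'.prod)) := by noncomm_ring
  obtain ⟨n, hn⟩ := hev
  exact main n l (by omega) hl

theorem tmz_mul_prod_zero (l : List (TT A B I)) (hl : ∀ a ∈ l, a ∈ T1 A B I) (u : TT A B I)
    (hu : u ∈ l) : u * l.prod = 0 := by
  induction l with
  | nil => simp at hu
  | cons b l ih =>
    have hb : b ∈ T1 A B I := hl b (by simp)
    rw [List.prod_cons]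
    rcases List.mem_cons.1 hu with h | h
    · subst h
      rw [← mul_assoc, T1_sq hb, zero_mul]
    · have hu1 : u ∈ T1 A B I := hl u (by simp [h])
      have h2 := ih (fun a ha => hl a (by simp [ha])) h
      rw [← mul_assoc, T1_anticomm hu1 hb, neg_mul, mul_assoc, h2, mul_zero, neg_zero]

theorem tmz_perm_prod {l l' : List (TT A B I)} (h : l.Perm l') (hl : ∀ a ∈ l, a ∈ T1 A B I) :
    l.prod = l'.prod ∨ l.prod = - l'.prod := by
  induction h with
  | nil => exact Or.inl rfl
  | cons x _ ih =>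
    rcases ih fun a ha => hl a (by simp [ha]) with h | h
    · left
      simp [h]
    · right
      simp [h]
  | swap x y l =>
    right
    have hx : x ∈ T1 A B I := hl x (by simp)
    have hy : y ∈ T1 A B I := hl y (by simp)
    simp only [List.prod_cons]
    rw [← mul_assoc, T1_anticomm hy hx, neg_mul, mul_assoc]
  | trans h₁ h₂ ih₁ ih₂ =>
    have hl2 : ∀ a ∈ _, a ∈ T1 A B I := fun a ha => hl a (h₁.mem_iff.2 ha)
    rcases ih₁ hl with h | h <;> rcases ih₂ hl2 with h' | h'
    · left; rw [h, h']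
    · right; rw [h, h']
    · right; rw [h, h']
    · left; rw [h, h', neg_neg]

theorem tmz_Xi_mem (w : Cell q → B) (l : List (Fin (q + 1))) :
    ∀ a ∈ l.map (XF w : Fin (q + 1) → TT A B (Cell q)), a ∈ T1 A B (Cell q) := by
  intro a ha
  obtain ⟨i, _, rfl⟩ := List.mem_map.1 ha
  exact xi_mem_T1 _ _

theorem tmz_Xi_perm (w : Cell q → B) {l l' : List (Fin (q + 1))} (h : l.Perm l') :
    (Xi w l : TT A B (Cell q)) = Xi w l' ∨ (Xi w l : TT A B (Cell q)) = - Xi w l' :=
  tmz_perm_prod (h.map _) (tmz_Xi_mem w l)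

theorem tmz_XF_Xi (w : Cell q → B) (l : List (Fin (q + 1))) {i : Fin (q + 1)} (hi : i ∈ l) :
    (XF w i : TT A B (Cell q)) * Xi w l = 0 :=
  tmz_mul_prod_zero _ (tmz_Xi_mem w l) _ (List.mem_map_of_mem hi)

theorem tmz_XF_X2_Xi (w : Cell q → B) (l : List (Fin (q + 1))) {i : Fin (q + 1)} (hi : i ∈ l) :
    (XF w i : TT A B (Cell q)) * (X2 w * Xi w l) = 0 := by
  have h1 : (XF w i : TT A B (Cell q)) ∈ T1 A B (Cell q) := xi_mem_T1 _ _
  have h2 : (X2 w : TT A B (Cell q)) ∈ T1 A B (Cell q) := xi_mem_T1 _ _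
  rw [← mul_assoc, T1_anticomm h1 h2, neg_mul, mul_assoc, tmz_XF_Xi w l hi, mul_zero, neg_zero]

theorem tmz_X2_X2 (w : Cell q → B) (t : TT A B (Cell q)) : X2 w * (X2 w * t) = 0 := by
  have h2 : (X2 w : TT A B (Cell q)) ∈ T1 A B (Cell q) := xi_mem_T1 _ _
  rw [← mul_assoc, T1_sq h2, zero_mul]

/-! ### Brackets -/

/-- The bracket of two letters. -/
noncomputable def brr (Z : B →ₗ[A] A) (w : Cell q → B) (l : List (Fin (q + 1)))
    (u v : TT A B (Cell q)) : LL A (Cell q) :=
  ZL Z (u * ((1 : LL A (Cell q)) ⊗ₜ[A] w (0, 0) * Xi w l * v))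

/-- The bracket of three letters. -/
noncomputable def trr (Z : B →ₗ[A] A) (w : Cell q → B) (l : List (Fin (q + 1)))
    (u v y : TT A B (Cell q)) : LL A (Cell q) :=
  ZL Z (u * (Xi w l * (v * y)))

variable (Z : B →ₗ[A] A) (w : Cell q → B) (l : List (Fin (q + 1)))

theorem brr_add (u u' v : TT A B (Cell q)) :
    brr Z w l (u + u') v = brr Z w l u v + brr Z w l u' v := by
  unfold brr
  rw [add_mul, map_add]

theorem trr_add (u u' v y : TT A B (Cell q)) :
    trr Z w l (u + u') v y = trr Z w l u v y + trr Z w l u' v y := by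
  unfold trr
  rw [add_mul, map_add]

variable {l} in
theorem tmz_c_central (hl : Even l.length) (t : TT A B (Cell q)) :
    ((1 : LL A (Cell q)) ⊗ₜ[A] w (0, 0) * Xi w l) * t =
      t * ((1 : LL A (Cell q)) ⊗ₜ[A] w (0, 0) * Xi w l) := by
  have h1 : (Xi w l : TT A B (Cell q)) * t = t * Xi w l :=
    tmz_prod_central _ (tmz_Xi_mem w l) (by rwa [List.length_map]) t
  rw [mul_assoc, h1, ← mul_assoc, one_tmul_central, mul_assoc]

variable {l} in
theorem brr_swap (hl : Even l.length) {u v : TT A B (Cell q)} (hu : u ∈ T1 A B (Cell q))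
    (hv : v ∈ T1 A B (Cell q)) : brr Z w l u v = - brr Z w l v u := by
  have e : ∀ s t : TT A B (Cell q),
      s * ((1 : LL A (Cell q)) ⊗ₜ[A] w (0, 0) * Xi w l * t) =
        (s * t) * ((1 : LL A (Cell q)) ⊗ₜ[A] w (0, 0) * Xi w l) := fun s t => by
    rw [tmz_c_central w hl t, mul_assoc s t]
  unfold brr
  rw [e, e, T1_anticomm hu hv, neg_mul, map_neg]

variable {l} in
theorem brr_self (hl : Even l.length) {u : TT A B (Cell q)} (hu : u ∈ T1 A B (Cell q)) :
    brr Z w l u u = 0 := by
  unfold brr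
  rw [tmz_c_central w hl, ← mul_assoc, T1_sq hu, zero_mul, map_zero]

theorem trr_swap (u : TT A B (Cell q)) {v y : TT A B (Cell q)} (hv : v ∈ T1 A B (Cell q))
    (hy : y ∈ T1 A B (Cell q)) : trr Z w l u v y = - trr Z w l u y v := by
  unfold trr
  rw [T1_anticomm hv hy, mul_neg, mul_neg, map_neg]

variable {l} in
theorem trr_self (hl : Even l.length) {u : TT A B (Cell q)} (hu : u ∈ T1 A B (Cell q))
    (y : TT A B (Cell q)) : trr Z w l u u y = 0 := by
  unfold trr
  have h1 : (Xi w l : TT A B (Cell q)) * (u * y) = (u * y) * Xi w l :=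
    tmz_prod_central _ (tmz_Xi_mem w l) (by rwa [List.length_map]) _
  rw [h1, ← mul_assoc, ← mul_assoc, T1_sq hu, zero_mul, zero_mul, map_zero]

variable {l} in
theorem brr_central (hl : Even l.length) {u v : TT A B (Cell q)} (hu : u ∈ T1 A B (Cell q))
    (hv : v ∈ T1 A B (Cell q)) (s : LL A (Cell q)) :
    brr Z w l u v * s = s * brr Z w l u v := by
  have h1 : u * ((1 : LL A (Cell q)) ⊗ₜ[A] w (0, 0) * Xi w l * v) =
      (1 : LL A (Cell q)) ⊗ₜ[A] w (0, 0) *
        ((l.map (XF w : Fin (q + 1) → TT A B (Cell q))) ++ [u, v]).prod := by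
    rw [List.prod_append, ← mul_assoc, ← tmz_c_central w hl]
    simp [Xi, mul_assoc]
  unfold brr
  rw [h1]
  refine ZL_even_central Z _ _ ?_ ?_ s
  · intro a ha
    rcases List.mem_append.1 ha with h | h
    · exact tmz_Xi_mem w l a h
    · rcases List.mem_cons.1 h with h | h
      · rwa [h]
      · rw [List.mem_singleton] at h
        rwa [h]
  · rw [List.length_append, List.length_map]
    exact hl.add ⟨1, rfl⟩

/-! ### Membership in the filtrations -/

/-- The span of the basis vectors in `s`. -/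
noncomputable def tmS (A : Type*) [CommRing A] {q : ℕ} (s : Finset (Cell q)) :
    Submodule A (Cell q → A) :=
  Submodule.span A ((fun i : Cell q => (Pi.single i 1 : Cell q → A)) '' s)

theorem brr_mem_left (s : Finset (Cell q)) (v : TT A B (Cell q)) :
    brr Z w l (xi w s) v ∈ Fil (tmS A s) 1 := by
  have h := ZL_xi_mem_Fil Z w s 1 ((1 : LL A (Cell q)) ⊗ₜ[A] w (0, 0) * Xi w l * v)
  rwa [one_mul] at h

theorem brr_mem_right (s : Finset (Cell q)) (u : TT A B (Cell q)) :
    brr Z w l u (xi w s) ∈ Fil (tmS A s) 1 := by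
  have h := ZL_xi_mem_Fil Z w s (u * ((1 : LL A (Cell q)) ⊗ₜ[A] w (0, 0) * Xi w l)) 1
  rw [mul_one] at h
  unfold brr
  rwa [← mul_assoc]

theorem trr_mem_1 (s : Finset (Cell q)) (v y : TT A B (Cell q)) :
    trr Z w l (xi w s) v y ∈ Fil (tmS A s) 1 := by
  have h := ZL_xi_mem_Fil Z w s 1 (Xi w l * (v * y))
  rwa [one_mul] at h

theorem trr_mem_2 (s : Finset (Cell q)) (u y : TT A B (Cell q)) :
    trr Z w l u (xi w s) y ∈ Fil (tmS A s) 1 := by
  have h := ZL_xi_mem_Fil Z w s (u * Xi w l) y
  unfold trr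
  rwa [mul_assoc, mul_assoc] at h

theorem trr_mem_3 (s : Finset (Cell q)) (u v : TT A B (Cell q)) :
    trr Z w l u v (xi w s) ∈ Fil (tmS A s) 1 := by
  have h := ZL_xi_mem_Fil Z w s (u * Xi w l * v) 1
  unfold trr
  rwa [mul_one, mul_assoc, mul_assoc] at h

theorem brr_mem_V (s : Finset (Cell q)) (v : TT A B (Cell q)) :
    brr Z w l (xi w s) v ∈ Fil (Vsub Z w s) 1 := ZL_xi_mem_Vsub Z w s _

theorem trr_mem_V (s : Finset (Cell q)) (v y : TT A B (Cell q)) :
    trr Z w l (xi w s) v y ∈ Fil (Vsub Z w s) 1 := ZL_xi_mem_Vsub Z w s _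

theorem yb_mem_one (a₀ e : Fin (q + 1)) :
    yb Z w a₀ e ∈ Fil (tmS A ((famSet (Sum.inr 1)).erase (a₀.succ, 0))) 1 := by
  have h := ZL_xi_mem_Fil Z w ((famSet (Sum.inr 1)).erase (a₀.succ, 0)) 1
    (X2 w * Xi w (List.ofFn e.succAbove))
  rw [one_mul, ← mul_assoc] at h
  exact h

theorem yb_mem_two (a₀ e : Fin (q + 1)) :
    yb Z w a₀ e ∈ Fil (tmS A (famSet (Sum.inr 2))) 1 :=
  ZL_xi_mem_Fil Z w (famSet (Sum.inr 2)) (X1 w a₀) (Xi w (List.ofFn e.succAbove))

theorem yb_mem_inl (a₀ : Fin (q + 1)) {e i : Fin (q + 1)} (h : i ≠ e) :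
    yb Z w a₀ e ∈ Fil (tmS A (famSet (Sum.inl i))) 1 := by
  have hi : i ∈ List.ofFn e.succAbove := by
    rw [List.mem_ofFn]
    exact Fin.exists_succAbove_eq h
  obtain ⟨l₁, l₂, hl⟩ := List.append_of_mem hi
  have h1 : (X1 w a₀ * X2 w * Xi w (List.ofFn e.succAbove) : TT A B (Cell q)) =
      X1 w a₀ * X2 w * Xi w l₁ * xi w (famSet (Sum.inl i)) * Xi w l₂ := by
    rw [hl]
    simp [Xi, XF, mul_assoc]
  unfold yb
  rw [h1]
  exact ZL_xi_mem_Fil Z w _ _ _

/-! ### The product -/

/-- The product of the values of the blocks, with the entries `a` and `m` replaced. -/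
noncomputable def psi (a₀ a m : Fin (q + 1)) (t₀ t : LL A (Cell q)) : LL A (Cell q) :=
  (List.ofFn (Function.update (Function.update (yb Z w a₀) m t) a t₀)).prod

theorem tmz_ofFn_update {R : Type*} [Ring R] {n : ℕ} (f : Fin n → R) (i : Fin n) :
    ∃ x y : R, ∀ t : R, (List.ofFn (Function.update f i t)).prod = x * t * y := by
  induction n with
  | zero => exact i.elim0
  | succ n ih =>
    induction i using Fin.cases with
    | zero =>
      refine ⟨1, (List.ofFn fun j : Fin n => f j.succ).prod, fun t => ?_⟩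
      rw [List.ofFn_succ, List.prod_cons, Function.update_self, one_mul]
      congr 2
    | succ i =>
      obtain ⟨x, y, h⟩ := ih (fun j => f j.succ) i
      refine ⟨f 0 * x, y, fun t => ?_⟩
      rw [List.ofFn_succ, List.prod_cons, Function.update_of_ne (Fin.succ_ne_zero i).symm]
      have h2 : (fun j : Fin n => Function.update f i.succ t j.succ) =
          Function.update (fun j => f j.succ) i t := by
        funext j
        by_cases hj : j = i
        · subst hj
          simp
        · rw [Function.update_of_ne hj, Function.update_of_ne (fun h => hj (Fin.succ_injective _ h))]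
      rw [h2, h t]
      noncomm_ring

theorem psi_add {a₀ a m : Fin (q + 1)} (hm : m ≠ a) (t₀ t t' : LL A (Cell q)) :
    psi Z w a₀ a m t₀ (t + t') = psi Z w a₀ a m t₀ t + psi Z w a₀ a m t₀ t' := by
  unfold psi
  obtain ⟨x, y, h⟩ := tmz_ofFn_update (Function.update (yb Z w a₀) a t₀) m
  rw [Function.update_comm hm, Function.update_comm hm, Function.update_comm hm, h, h, h]
  noncomm_ring

theorem psi_neg {a₀ a m : Fin (q + 1)} (hm : m ≠ a) (t₀ t : LL A (Cell q)) :
    psi Z w a₀ a m t₀ (-t) = - psi Z w a₀ a m t₀ t := by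
  unfold psi
  obtain ⟨x, y, h⟩ := tmz_ofFn_update (Function.update (yb Z w a₀) a t₀) m
  rw [Function.update_comm hm, Function.update_comm hm, h, h]
  noncomm_ring

theorem psi_mem {a₀ a m : Fin (q + 1)} (hm : m ≠ a) (t₀ t : LL A (Cell q))
    (V : Submodule A (Cell q → A)) (hy : ∀ e, e ≠ a → e ≠ m → yb Z w a₀ e ∈ Fil V 1) {kt : ℕ}
    (ht : t ∈ Fil V kt) : psi Z w a₀ a m t₀ t ∈ Fil V (kt + (q - 1)) := by
  have hq : 1 ≤ q := by
    by_contra h
    have : q = 0 := by omega
    subst this
    exact hm (Fin.ext (by omega))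
  have h := prod_ofFn_mem_Fil V
    (Function.update (Function.update (yb Z w a₀) m t) a t₀)
    (Function.update (Function.update (fun _ : Fin (q + 1) => 1) m kt) a 0) ?_
  · have hs : ∑ i, Function.update (Function.update (fun _ : Fin (q + 1) => 1) m kt) a 0 i =
        kt + (q - 1) := by
      rw [← Finset.add_sum_erase _ _ (Finset.mem_univ a), Function.update_self, zero_add,
        ← Finset.add_sum_erase _ _ (Finset.mem_erase.2 ⟨hm, Finset.mem_univ m⟩),
        Function.update_of_ne hm, Function.update_self]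
      congr 1
      rw [Finset.sum_congr rfl (g := fun _ => 1)]
      · rw [Finset.sum_const, Finset.card_erase_of_mem
          (Finset.mem_erase.2 ⟨hm, Finset.mem_univ m⟩), Finset.card_erase_of_mem
          (Finset.mem_univ _), Finset.card_univ, Fintype.card_fin]
        simp
      · intro i hi
        rw [Finset.mem_erase, Finset.mem_erase] at hi
        rw [Function.update_of_ne hi.2.1, Function.update_of_ne hi.1]
    rw [hs] at h
    exact h
  · intro i
    by_cases hi : i = a
    · subst hi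
      rw [Function.update_self, Function.update_self, Fil_zero]
      trivial
    · rw [Function.update_of_ne hi, Function.update_of_ne hi]
      by_cases hi' : i = m
      · subst hi'
        rw [Function.update_self, Function.update_self]
        exact ht
      · rw [Function.update_of_ne hi', Function.update_of_ne hi']
        exact hy i hi hi'

/-- A product with too many values of a family vanishes. -/
theorem tmz_vanish {a₀ a m : Fin (q + 1)} (hm : m ≠ a) (t₀ : LL A (Cell q)) (s : Finset (Cell q))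
    (hy : ∀ e, e ≠ a → e ≠ m → yb Z w a₀ e ∈ Fil (tmS A s) 1) {b c t : LL A (Cell q)}
    {kb kc kt : ℕ} (hb : b ∈ Fil (tmS A s) kb) (hc : c ∈ Fil (tmS A s) kc)
    (ht : t ∈ Fil (tmS A s) kt) (hk : s.card < kb + (kc + (kt + (q - 1)))) :
    b * (c * psi Z w a₀ a m t₀ t) = 0 := by
  have h := mul_mem_Fil (tmS A s) hb (mul_mem_Fil (tmS A s) hc
    (psi_mem Z w hm t₀ t (tmS A s) hy ht))
  have h0 : Fil (tmS A s) (kb + (kc + (kt + (q - 1)))) = ⊥ :=
    Fil_span_eq_bot s (fun i : Cell q => (Pi.single i 1 : Cell q → A)) hk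
  rw [h0] at h
  exact (Submodule.mem_bot A).1 h

/-- A product with `q + 2` values of the same odd letter vanishes. -/
theorem tmz_rel (L : Submodule A B) (H : H1 L Z (q + 2)) (hw : ∀ c, w c ∈ L)
    {a₀ a m : Fin (q + 1)} (hm : m ≠ a) (t₀ : LL A (Cell q)) (s : Finset (Cell q))
    (hs : ∀ e, e ≠ a → e ≠ m →
      xi w s * (X2 w * Xi w (List.ofFn e.succAbove)) =
        X1 w a₀ * ((X2 w : TT A B (Cell q)) * Xi w (List.ofFn e.succAbove)))
    (v v' y y' : TT A B (Cell q)) :
    brr Z w l (xi w s) v * (brr Z w l (xi w s) v' *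
      psi Z w a₀ a m t₀ (trr Z w l (xi w s) y y')) = 0 := by
  have hq : 1 ≤ q := by
    by_contra h
    have : q = 0 := by omega
    subst this
    exact hm (Fin.ext (by omega))
  have hy : ∀ e, e ≠ a → e ≠ m → yb Z w a₀ e ∈ Fil (Vsub Z w s) 1 := by
    intro e he he'
    unfold yb
    rw [mul_assoc, ← hs e he he']
    exact ZL_xi_mem_Vsub Z w s _
  have h := mul_mem_Fil (Vsub Z w s) (brr_mem_V Z w l s v) (mul_mem_Fil (Vsub Z w s)
    (brr_mem_V Z w l s v') (psi_mem Z w hm t₀ _ (Vsub Z w s) hy (trr_mem_V Z w l s y y')))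
  have h0 : Fil (Vsub Z w s) (1 + (1 + (1 + (q - 1)))) = ⊥ := by
    have : 1 + (1 + (1 + (q - 1))) = q + 2 := by omega
    rw [this]
    exact Fil_Vsub L Z (q + 2) H w s fun i _ => hw i
  rw [h0] at h
  exact (Submodule.mem_bot A).1 h

/-- The three relations give the vanishing of the main product. -/
theorem tmz_main (L : Submodule A B) (H : H1 L Z (q + 2)) (hw : ∀ c, w c ∈ L)
    {a₀ a m : Fin (q + 1)} (hm : m ≠ a) (t₀ : LL A (Cell q)) (hl : Even l.length) :
    brr Z w l (XF w m) (XF w a) * (brr Z w l (XF w m) (X2 w) *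
      psi Z w a₀ a m t₀ (trr Z w l (X1 w a₀) (X2 w) (XF w a))) = 0 := by
  have hq : 1 ≤ q := by
    by_contra h
    have : q = 0 := by omega
    subst this
    exact hm (Fin.ext (by omega))
  have T1h : (XF w a : TT A B (Cell q)) ∈ T1 A B (Cell q) := xi_mem_T1 _ _
  have T1m : (XF w m : TT A B (Cell q)) ∈ T1 A B (Cell q) := xi_mem_T1 _ _
  have T1g : (X2 w : TT A B (Cell q)) ∈ T1 A B (Cell q) := xi_mem_T1 _ _
  have T1o : (X1 w a₀ : TT A B (Cell q)) ∈ T1 A B (Cell q) := xi_mem_T1 _ _
  have d12 : Disjoint ((famSet (Sum.inr 1 : Fam q)).erase (a₀.succ, 0))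
      (famSet (Sum.inr 2 : Fam q)) :=
    (tmz_disj (by simp)).mono_left (Finset.erase_subset _ _)
  have d1l : ∀ i : Fin (q + 1), Disjoint ((famSet (Sum.inr 1 : Fam q)).erase (a₀.succ, 0))
      (famSet (Sum.inl i : Fam q)) := fun i =>
    (tmz_disj (by simp)).mono_left (Finset.erase_subset _ _)
  have d2l : ∀ i : Fin (q + 1), Disjoint (famSet (Sum.inr 2 : Fam q))
      (famSet (Sum.inl i : Fam q)) := fun i => tmz_disj (by simp)
  have dhm : Disjoint (famSet (Sum.inl a : Fam q)) (famSet (Sum.inl m : Fam q)) :=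
    tmz_disj (by simpa using hm.symm)
  -- the relations
  have hmem : ∀ e i : Fin (q + 1), e ≠ i → i ∈ List.ofFn e.succAbove := by
    intro e i h
    rw [List.mem_ofFn]
    exact Fin.exists_succAbove_eq h.symm
  have z1 : (xi w ((famSet (Sum.inr 1)).erase (a₀.succ, 0) ∪ famSet (Sum.inl m)) :
      TT A B (Cell q)) = X1 w a₀ + XF w m := tmz_xi_union w (d1l m)
  have z3 : (xi w ((famSet (Sum.inr 1)).erase (a₀.succ, 0) ∪
      (famSet (Sum.inr 2) ∪ famSet (Sum.inl m))) :
      TT A B (Cell q)) = X1 w a₀ + (X2 w + XF w m) := by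
    rw [tmz_xi_union w (Finset.disjoint_union_right.2 ⟨d12, d1l m⟩), tmz_xi_union w (d2l m)]
    rfl
  have z3' : (xi w ((famSet (Sum.inr 1)).erase (a₀.succ, 0) ∪
      (famSet (Sum.inl a) ∪ famSet (Sum.inl m))) :
      TT A B (Cell q)) = X1 w a₀ + (XF w a + XF w m) := by
    rw [tmz_xi_union w (Finset.disjoint_union_right.2 ⟨d1l a, d1l m⟩), tmz_xi_union w dhm]
    rfl
  have R1 := tmz_rel Z w l L H hw hm t₀
    ((famSet (Sum.inr 1)).erase (a₀.succ, 0) ∪ famSet (Sum.inl m)) (fun e he he' => by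
      rw [z1, add_mul, tmz_XF_X2_Xi w _ (hmem e m he'), add_zero]) (XF w a) (X2 w) (X2 w) (XF w a)
  have R3 := tmz_rel Z w l L H hw hm t₀
    ((famSet (Sum.inr 1)).erase (a₀.succ, 0) ∪ (famSet (Sum.inr 2) ∪ famSet (Sum.inl m)))
    (fun e he he' => by
      rw [z3, add_mul, add_mul, tmz_XF_X2_Xi w _ (hmem e m he'), tmz_X2_X2, add_zero, add_zero])
    (XF w a) (XF w m) (X2 w) (XF w a)
  have R3' := tmz_rel Z w l L H hw hm t₀
    ((famSet (Sum.inr 1)).erase (a₀.succ, 0) ∪ (famSet (Sum.inl a) ∪ famSet (Sum.inl m)))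
    (fun e he he' => by
      rw [z3', add_mul, add_mul, tmz_XF_X2_Xi w _ (hmem e m he'), tmz_XF_X2_Xi w _ (hmem e a he),
        add_zero, add_zero])
    (XF w m) (X2 w) (XF w a) (X2 w)
  rw [z1, brr_add, brr_add, trr_add, psi_add Z w hm] at R1
  rw [z3, brr_add, brr_add, brr_add, brr_add, trr_add, trr_add, psi_add Z w hm, psi_add Z w hm,
    brr_self Z w hl T1m, trr_self Z w hl T1g] at R3
  rw [z3', brr_add, brr_add, brr_add, brr_add, trr_add, trr_add, psi_add Z w hm, psi_add Z w hm,
    brr_self Z w hl T1m, trr_self Z w hl T1h, trr_swap Z w l _ T1h T1g, trr_swap Z w l _ T1h T1g,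
    psi_neg Z w hm, psi_neg Z w hm] at R3'
  have psi0 : psi Z w a₀ a m t₀ 0 = 0 := by
    have := psi_add Z w (a₀ := a₀) hm t₀ 0 0
    rw [add_zero] at this
    exact left_eq_add.1 this
  rw [psi0] at R3 R3'
  -- the vanishing terms
  have top : ∀ (V : Submodule A (Cell q → A)) (x : LL A (Cell q)), x ∈ Fil V 0 := fun V x => by
    rw [Fil_zero]
    trivial
  have hyo : ∀ e, e ≠ a → e ≠ m → yb Z w a₀ e ∈
      Fil (tmS A ((famSet (Sum.inr 1)).erase (a₀.succ, 0))) 1 := fun e _ _ => yb_mem_one Z w a₀ e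
  have hyg : ∀ e, e ≠ a → e ≠ m → yb Z w a₀ e ∈
      Fil (tmS A (famSet (Sum.inr 2))) 1 := fun e _ _ => yb_mem_two Z w a₀ e
  have hym : ∀ e, e ≠ a → e ≠ m → yb Z w a₀ e ∈
      Fil (tmS A (famSet (Sum.inl m))) 1 := fun e _ h => yb_mem_inl Z w a₀ h.symm
  have hyh : ∀ e, e ≠ a → e ≠ m → yb Z w a₀ e ∈
      Fil (tmS A (famSet (Sum.inl a))) 1 := fun e h _ => yb_mem_inl Z w a₀ h.symm
  have co := tmz_card_one (q := q) a₀
  have cg := tmz_card_inr2 (q := q)
  have cm := tmz_card_inl (q := q) m
  have ch := tmz_card_inl (q := q) a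
  -- vanishing because of the first family
  have o111 : ∀ v v' y y', brr Z w l (X1 w a₀) v * (brr Z w l (X1 w a₀) v' *
      psi Z w a₀ a m t₀ (trr Z w l (X1 w a₀) y y')) = 0 := fun v v' y y' =>
    tmz_vanish Z w hm t₀ _ hyo (brr_mem_left Z w l _ v) (brr_mem_left Z w l _ v')
      (trr_mem_1 Z w l _ y y') (by omega)
  have o110 : ∀ v v' t, brr Z w l (X1 w a₀) v * (brr Z w l (X1 w a₀) v' *
      psi Z w a₀ a m t₀ t) = 0 := fun v v' t =>
    tmz_vanish Z w hm t₀ _ hyo (brr_mem_left Z w l _ v) (brr_mem_left Z w l _ v')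
      (top _ t) (by omega)
  have o101 : ∀ v c y y', brr Z w l (X1 w a₀) v * (c *
      psi Z w a₀ a m t₀ (trr Z w l (X1 w a₀) y y')) = 0 := fun v c y y' =>
    tmz_vanish Z w hm t₀ _ hyo (brr_mem_left Z w l _ v) (top _ c)
      (trr_mem_1 Z w l _ y y') (by omega)
  have o011 : ∀ b v' y y', b * (brr Z w l (X1 w a₀) v' *
      psi Z w a₀ a m t₀ (trr Z w l (X1 w a₀) y y')) = 0 := fun b v' y y' =>
    tmz_vanish Z w hm t₀ _ hyo (top _ b) (brr_mem_left Z w l _ v')
      (trr_mem_1 Z w l _ y y') (by omega)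
  -- vanishing because of the family `m`
  have m1 : ∀ v v' y y', brr Z w l (XF w m) v * (brr Z w l (XF w m) v' *
      psi Z w a₀ a m t₀ (trr Z w l (XF w m) y y')) = 0 := fun v v' y y' =>
    tmz_vanish Z w hm t₀ _ hym (brr_mem_left Z w l _ v) (brr_mem_left Z w l _ v')
      (trr_mem_1 Z w l _ y y') (by omega)
  have m2 : ∀ v v' y y', brr Z w l (XF w m) v * (brr Z w l v' (XF w m) *
      psi Z w a₀ a m t₀ (trr Z w l (XF w m) y y')) = 0 := fun v v' y y' =>
    tmz_vanish Z w hm t₀ _ hym (brr_mem_left Z w l _ v) (brr_mem_right Z w l _ v')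
      (trr_mem_1 Z w l _ y y') (by omega)
  have m3 : ∀ v v' y y', brr Z w l v (XF w m) * (brr Z w l (XF w m) v' *
      psi Z w a₀ a m t₀ (trr Z w l (XF w m) y y')) = 0 := fun v v' y y' =>
    tmz_vanish Z w hm t₀ _ hym (brr_mem_right Z w l _ v) (brr_mem_left Z w l _ v')
      (trr_mem_1 Z w l _ y y') (by omega)
  -- vanishing because of the families `g` and `h`
  have g1 : ∀ v v' y y', brr Z w l (X2 w) v * (brr Z w l (X2 w) v' *
      psi Z w a₀ a m t₀ (trr Z w l y (X2 w) y')) = 0 := fun v v' y y' =>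
    tmz_vanish Z w hm t₀ _ hyg (brr_mem_left Z w l _ v) (brr_mem_left Z w l _ v')
      (trr_mem_2 Z w l _ y y') (by omega)
  have h1 : ∀ v v' y y', brr Z w l (XF w a) v * (brr Z w l (XF w a) v' *
      psi Z w a₀ a m t₀ (trr Z w l y y' (XF w a))) = 0 := fun v v' y y' =>
    tmz_vanish Z w hm t₀ _ hyh (brr_mem_left Z w l _ v) (brr_mem_left Z w l _ v')
      (trr_mem_3 Z w l _ y y') (by omega)
  simp only [add_zero, zero_add, add_mul, mul_add, o110, o101, o011, m1] at R1
  simp only [add_zero, zero_add, add_mul, mul_add, o110, o101, o011, m2, g1] at R3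
  simp only [add_zero, zero_add, add_mul, mul_add, mul_neg, o110, o101, o011, m3, h1] at R3'
  rw [brr_swap Z w hl T1g T1m] at R3
  rw [brr_swap Z w hl T1h T1m, brr_swap Z w hl T1h T1g] at R3'
  have hga : brr Z w l (X1 w a₀) (XF w m) * (brr Z w l (X2 w) (XF w a) *
      psi Z w a₀ a m t₀ (trr Z w l (XF w m) (X2 w) (XF w a))) =
      brr Z w l (X2 w) (XF w a) * (brr Z w l (X1 w a₀) (XF w m) *
      psi Z w a₀ a m t₀ (trr Z w l (XF w m) (X2 w) (XF w a))) := by
    rw [← mul_assoc, brr_central Z w hl T1o T1m, mul_assoc]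
  simp only [neg_mul, mul_neg, neg_neg] at R3 R3'
  rw [hga] at R3'
  generalize brr Z w l (XF w m) (XF w a) * (brr Z w l (XF w m) (X2 w) *
      psi Z w a₀ a m t₀ (trr Z w l (X1 w a₀) (X2 w) (XF w a))) = X at R1 R3 R3' ⊢
  generalize brr Z w l (XF w m) (XF w a) * (brr Z w l (X1 w a₀) (X2 w) *
      psi Z w a₀ a m t₀ (trr Z w l (XF w m) (X2 w) (XF w a))) = be at R1 R3 R3'
  generalize brr Z w l (X1 w a₀) (XF w a) * (brr Z w l (XF w m) (X2 w) *
      psi Z w a₀ a m t₀ (trr Z w l (XF w m) (X2 w) (XF w a))) = al at R1 R3 R3'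
  generalize brr Z w l (X2 w) (XF w a) * (brr Z w l (X1 w a₀) (XF w m) *
      psi Z w a₀ a m t₀ (trr Z w l (XF w m) (X2 w) (XF w a))) = ga at R1 R3 R3'
  have h9 : X = (X + -(-be + -ga)) - ((X + (be + al)) + (-X + (ga + -al))) := by abel
  rw [h9, R1, R3]
  rw [R3']
  simp

/-- The product of the values of the blocks in which block `0` has no letter of its own, and block
`a + 1` has the letter `w (0, 0)` in place of the letter of the family `inr 1`, vanishes. -/
theorem term_zero {A B : Type*} [CommRing A] [CommRing B] [Algebra A B] {q : ℕ} (hq : Odd q)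
    (L : Submodule A B) (Z : B →ₗ[A] A) (H : H1 L Z (q + 2)) (w : Cell q → B)
    (hw : ∀ c, w c ∈ L) (a₀ a : Fin (q + 1)) (t₀ : LL A (Cell q)) :
    zb Z w * (List.ofFn (Function.update (yb Z w a₀) a (t₀ * cb Z w a))).prod = 0 := by
  have hq1 : 1 ≤ q := hq.pos
  have : Nontrivial (Fin (q + 1)) := Fin.nontrivial_iff_two_le.2 (by omega)
  obtain ⟨m, hm⟩ := exists_ne a
  set l : List (Fin (q + 1)) := ((Finset.univ.erase a).erase m).toList with hldef
  have hmem : ∀ i, i ∈ l ↔ i ≠ m ∧ i ≠ a := by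
    intro i
    rw [hldef, Finset.mem_toList, Finset.mem_erase, Finset.mem_erase]
    simp
  have hnd : l.Nodup := Finset.nodup_toList _
  have hlen : l.length = q - 1 := by
    rw [hldef, Finset.length_toList, Finset.card_erase_of_mem
      (Finset.mem_erase.2 ⟨hm, Finset.mem_univ m⟩), Finset.card_erase_of_mem (Finset.mem_univ _),
      Finset.card_univ, Fintype.card_fin]
    omega
  have hl : Even l.length := by
    rw [hlen]
    obtain ⟨r, hr⟩ := hq
    exact ⟨r, by omega⟩
  have P1 : (List.finRange (q + 1)).Perm (a :: m :: l) := by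
    rw [List.perm_ext_iff_of_nodup (List.nodup_finRange _)]
    · intro i
      simp only [List.mem_finRange, List.mem_cons, hmem, true_iff]
      tauto
    · simp only [List.nodup_cons, List.mem_cons, hmem, hnd]
      tauto
  have P2 : (List.ofFn a.succAbove).Perm (m :: l) := by
    rw [List.perm_ext_iff_of_nodup (List.nodup_ofFn.2 Fin.succAbove_right_injective)]
    · intro i
      rw [List.mem_ofFn, List.mem_cons, hmem]
      constructor
      · rintro ⟨j, rfl⟩
        have := Fin.succAbove_ne a j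
        tauto
      · intro h
        refine Fin.exists_succAbove_eq ?_
        rcases h with h | h
        · rwa [h]
        · exact h.2
    · simp only [List.nodup_cons, hmem, hnd]
      tauto
  have P3 : (List.ofFn m.succAbove).Perm (a :: l) := by
    rw [List.perm_ext_iff_of_nodup (List.nodup_ofFn.2 Fin.succAbove_right_injective)]
    · intro i
      rw [List.mem_ofFn, List.mem_cons, hmem]
      constructor
      · rintro ⟨j, rfl⟩
        have := Fin.succAbove_ne m j
        tauto
      · intro h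
        refine Fin.exists_succAbove_eq ?_
        rcases h with h | h
        · rw [h]
          exact hm.symm
        · exact h.1
    · simp only [List.nodup_cons, hmem, hnd]
      tauto
  have hc : ∀ t : TT A B (Cell q), (Xi w l : TT A B (Cell q)) * t = t * Xi w l :=
    tmz_prod_central _ (tmz_Xi_mem w l) (by rwa [List.length_map])
  have T1m : (XF w m : TT A B (Cell q)) ∈ T1 A B (Cell q) := xi_mem_T1 _ _
  have T1g : (X2 w : TT A B (Cell q)) ∈ T1 A B (Cell q) := xi_mem_T1 _ _
  have T1h : (XF w a : TT A B (Cell q)) ∈ T1 A B (Cell q) := xi_mem_T1 _ _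
  -- the three values
  have e1 : (1 : LL A (Cell q)) ⊗ₜ[A] w (0, 0) * Xi w (a :: m :: l) =
      XF w a * ((1 : LL A (Cell q)) ⊗ₜ[A] w (0, 0) * Xi w l * XF w m) := by
    have : (Xi w (a :: m :: l) : TT A B (Cell q)) = XF w a * (XF w m * Xi w l) := by
      simp [Xi]
    rw [this, ← hc (XF w m), ← mul_assoc, one_tmul_central, mul_assoc, ← mul_assoc (_ ⊗ₜ[A] _)]
  have hz : zb Z w = brr Z w l (XF w m) (XF w a) ∨ zb Z w = - brr Z w l (XF w m) (XF w a) := by
    have h0 : ZL Z ((1 : LL A (Cell q)) ⊗ₜ[A] w (0, 0) * Xi w (a :: m :: l)) =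
        - brr Z w l (XF w m) (XF w a) := by
      rw [e1, ← brr_swap Z w hl T1h T1m]
      rfl
    unfold zb
    rcases tmz_Xi_perm (A := A) w P1 with h | h
    · right
      rw [h, h0]
    · left
      rw [h, mul_neg, map_neg, h0, neg_neg]
  have hcb : cb Z w a = brr Z w l (XF w m) (X2 w) ∨ cb Z w a = - brr Z w l (XF w m) (X2 w) := by
    have h0 : ZL Z ((1 : LL A (Cell q)) ⊗ₜ[A] w (0, 0) * X2 w * Xi w (m :: l)) =
        - brr Z w l (XF w m) (X2 w) := by
      rw [← brr_swap Z w hl T1g T1m]
      have : (Xi w (m :: l) : TT A B (Cell q)) = XF w m * Xi w l := by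
        simp [Xi]
      unfold brr
      rw [this, ← hc (XF w m), one_tmul_central, mul_assoc, ← mul_assoc (_ ⊗ₜ[A] _)]
    unfold cb
    rcases tmz_Xi_perm (A := A) w P2 with h | h
    · right
      rw [h, h0]
    · left
      rw [h, mul_neg, map_neg, h0, neg_neg]
  have hyb : yb Z w a₀ m = trr Z w l (X1 w a₀) (X2 w) (XF w a) ∨
      yb Z w a₀ m = - trr Z w l (X1 w a₀) (X2 w) (XF w a) := by
    have h0 : ZL Z (X1 w a₀ * X2 w * Xi w (a :: l)) =
        trr Z w l (X1 w a₀) (X2 w) (XF w a) := by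
      have : (Xi w (a :: l) : TT A B (Cell q)) = XF w a * Xi w l := by
        simp [Xi]
      unfold trr
      rw [this, hc, mul_assoc, mul_assoc]
    unfold yb
    rcases tmz_Xi_perm (A := A) w P3 with h | h
    · left
      rw [h, h0]
    · right
      rw [h, mul_neg, map_neg, h0]
  -- the value of block `a + 1` is central
  have hcc : ∀ s : LL A (Cell q), cb Z w a * s = s * cb Z w a := by
    intro s
    rcases hcb with h | h
    · rw [h, brr_central Z w hl T1m T1g]
    · rw [h, neg_mul, mul_neg, brr_central Z w hl T1m T1g]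
  have hprod : (List.ofFn (Function.update (yb Z w a₀) a (t₀ * cb Z w a))).prod =
      cb Z w a * psi Z w a₀ a m t₀ (yb Z w a₀ m) := by
    unfold psi
    rw [Function.update_eq_self]
    obtain ⟨x, y, h⟩ := tmz_ofFn_update (yb Z w a₀) a
    rw [h, h]
    calc x * (t₀ * cb Z w a) * y = x * t₀ * (cb Z w a * y) := by noncomm_ring
      _ = x * t₀ * (y * cb Z w a) := by rw [hcc]
      _ = (x * t₀ * y) * cb Z w a := by noncomm_ring
      _ = cb Z w a * (x * t₀ * y) := by rw [hcc]
  rw [hprod]
  have main := tmz_main Z w l L H hw (a₀ := a₀) hm t₀ hl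
  rcases hz with h1 | h1 <;> rcases hcb with h2 | h2 <;> rcases hyb with h3 | h3 <;>
    rw [h1, h2, h3] <;> simp only [psi_neg Z w hm, neg_mul, mul_neg, neg_neg, main, neg_zero]

end

end Pool.Agent.CatP.Odd
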